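import Pool.Agent.Lib.MP_e426f4_ag.TWS.Mult
import Pool.Agent.Lib.MP_e426f4_ag.TWL.Halving

/-!
# TWS.BadSum (TWIST, section 4): (BP) the bad primes are rare

For `H ≥ H0`, `0 < b ≤ L^cb`, `T` any finite set, `S` a finite set of primes in `(z, H]`, all bad for `(b, T)`:
`∑_{p ∈ S} 1/p ≤ L^(-4)`.

Proof. `TWL.halving` with `D0 = DD D = 4 D`, `e1 = E1 r`, `e2 = E2 r`, `cz = cz D r`, `C = CC D r cb` (the two numerical
conditions hold by definition), `c n = vI I (x b n)` (non-zero, `|·| ≤ |vt (x b n)| ≤ N^(DD D)` by `vI_dvd_vt`, `vt_x_ne`, `size_vt`),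
`T := NN N b T e`, `K` with `K³ ≤ N²`: `K := ((Icc 1 N).filter ...)`-bound of `mult4`: take `K = Nat.findGreatest (fun k => k^3 ≤ N^2) (N^2)`;
`ε = 1`, `oj m p = jacobiSym m p` for odd `p`.  For each `e ≤ L^E0`, each `I` and each dyadic block `(P, 2P]`,
`P = (zH + 1) 2^j` (`L^cz ≤ P`), the bad primes of this kind (for this `e` and `I`) number at most `P L^(-E2)`, so `∑ 1/p ≤ L^(-E2)`.
Number of `e`: `≤ L^E0` (`e ≥ 1`), of `I`: `≤ 2^r`, of blocks: `≤ 2 L` (as `2^j ≤ H`; primes in `(z, z+1]`: `p = z + 1 = P` itself: take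
blocks `[P, 2P)`).  Total `2^(r+1) L^(E0+1-E2) = 2^(r+1) L^(-7) ≤ L^(-4)` (`E2 = E0 + 8`).
-/

set_option autoImplicit false

namespace TwHP

open Finset Polynomial CD

variable {ι : Type} [Fintype ι] [DecidableEq ι]

/-- cube roots -/
theorem exists_cube (M : ℕ) : ∃ K : ℕ, K ^ 3 ≤ M ∧ ∀ m : ℕ, m ^ 3 ≤ M → m ≤ K := by
  refine ⟨Nat.findGreatest (fun k => k ^ 3 ≤ M) M, ?_, ?_⟩
  · exact Nat.findGreatest_spec (P := fun k => k ^ 3 ≤ M) (Nat.zero_le M) (by simp)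
  · intro m hm
    exact Nat.le_findGreatest ((Nat.le_self_pow (by norm_num) m).trans hm) hm

/-- one block -/
theorem bad_block [Nonempty ι] (c : CD ι) {D : ℕ} (hc : c.Valid D) (cb : ℕ) :
    ∃ H0 : ℕ, ∀ H : ℕ, H0 ≤ H → ∀ b : ℕ, 0 < b → (b : ℝ) ≤ Real.log H ^ cb →
      ∀ T S : Finset ℕ, ∀ e : ℕ, ∀ I : Finset ι, I.Nonempty → ∀ P : ℕ,
      Real.log H ^ cz D (Fintype.card ι) ≤ P →
      (NH D (Fintype.card ι) cb H : ℝ) ≤ Real.log H ^ E1 (Fintype.card ι) *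
        (c.NN (NH D (Fintype.card ι) cb H) b T e).card →
      (∀ p ∈ S, p.Prime ∧ p ≠ 2 ∧ P ≤ p ∧ p ≤ 2 * P ∧
        ((c.NN (NH D (Fintype.card ι) cb H) b T e).card : ℝ) < Real.log H *
          |∑ n ∈ c.NN (NH D (Fintype.card ι) cb H) b T e, (jacobiSym (c.vI I (c.x b n)) p : ℝ)|) →
      ∑ p ∈ S, 1 / (p : ℝ) ≤ 1 / Real.log H ^ E2 (Fintype.card ι) := by
  classical
  obtain ⟨r, hr⟩ : ∃ r : ℕ, r = Fintype.card ι := ⟨_, rfl⟩
  rw [← hr]
  obtain ⟨Ha, hHa⟩ := mult4 c hc cb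
  obtain ⟨Hb, hHb⟩ := size_vt c hc cb
  obtain ⟨L0, hL02, hhalf⟩ := Pool.Agent.Lib.MP_e426f4_ag.TWL.halving (DD D) (E1 r) (E2 r) (cz D r)
    (CC D r cb) (by unfold cz; omega) (by unfold CC; omega)
  obtain ⟨Hc, hHc⟩ := log_large L0
  refine ⟨max (max Ha Hb) Hc, fun H hH b hb0 hbL T S e I hI P hP hN hS => ?_⟩
  have h1 := hHa H (((le_max_left _ _).trans (le_max_left _ _)).trans hH) b hb0 hbL I hI
  have h2 := hHb H (((le_max_right _ _).trans (le_max_left _ _)).trans hH) b hb0 hbL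
  have h3 := hHc H ((le_max_right _ _).trans hH)
  rw [← hr] at h1 h2
  have hL0 : 0 < Real.log H := by linarith
  obtain ⟨K, hK1, hK2⟩ := exists_cube (NH D r cb H ^ 2)
  have hNHdef : NH D r cb H = ⌊Real.log H ^ CC D r cb⌋₊ := rfl
  rw [hNHdef] at h1 h2 hK1 hK2 hN hS
  have hPpos : (0 : ℝ) < P := lt_of_lt_of_le (by positivity) hP
  have hmem : ∀ n ∈ c.NN ⌊Real.log H ^ CC D r cb⌋₊ b T e, n ∈ Icc 1 ⌊Real.log H ^ CC D r cb⌋₊ := by
    intro n hn
    unfold CD.NN at hn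
    exact (Finset.mem_filter.mp hn).1
  have h4 := hhalf (Real.log H) h3 (fun n => c.vI I (c.x b n))
    (c.NN ⌊Real.log H ^ CC D r cb⌋₊ b T e) (fun n hn => by
      have hne := vt_x_ne hc b n
      obtain ⟨m, hm⟩ := vI_dvd_vt c I (c.x b n)
      have hvI : c.vI I (c.x b n) ≠ 0 := by
        intro h0
        rw [h0, zero_mul] at hm
        exact hne hm
      refine ⟨hvI, le_trans ?_ (h2 n (hmem n hn))⟩
      have hm0 : m ≠ 0 := by
        rintro rfl
        rw [mul_zero] at hm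
        exact hne hm
      rw [hm]
      push_cast
      rw [abs_mul]
      have : (1 : ℝ) ≤ |(m : ℝ)| := by
        have := Int.one_le_abs hm0
        exact_mod_cast this
      exact le_mul_of_one_le_right (abs_nonneg _) this)
    K hK1 (fun t ht => by
      apply hK2
      refine le_trans ?_ (h1 t ht)
      apply Nat.pow_le_pow_left
      apply Finset.card_le_card
      intro n hn
      rw [Finset.mem_filter] at hn ⊢
      exact ⟨hmem n hn.1, hn.2⟩)
    (by rw [mul_comm]; exact hN)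
    (fun _ => 1) (fun _ => by norm_num) P hP S (fun p hp => ⟨(hS p hp).1, (hS p hp).2.2.2.1⟩)
    (fun p hp => by
      obtain ⟨hpp, hp2, -, -, hlt⟩ := hS p hp
      have hodd : Odd p := hpp.odd_of_ne_two hp2
      have e1 : ∑ n ∈ c.NN ⌊Real.log H ^ CC D r cb⌋₊ b T e,
          (1 : ℝ) * (Pool.Agent.Lib.MP_e426f4_ag.TWL.oj (c.vI I (c.x b n)) p : ℝ) =
          ∑ n ∈ c.NN ⌊Real.log H ^ CC D r cb⌋₊ b T e, (jacobiSym (c.vI I (c.x b n)) p : ℝ) := by
        refine Finset.sum_congr rfl fun n _ => ?_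
        rw [one_mul, Pool.Agent.Lib.MP_e426f4_ag.TWL.oj, if_pos hodd]
      rw [e1]
      exact hlt.le)
  have h5 : ∑ p ∈ S, 1 / (p : ℝ) ≤ S.card * (1 / (P : ℝ)) := by
    rw [← nsmul_eq_mul]
    refine Finset.sum_le_card_nsmul _ _ _ fun p hp => ?_
    exact one_div_le_one_div_of_le hPpos (by exact_mod_cast (hS p hp).2.2.1)
  refine h5.trans ?_
  rw [mul_one_div, div_le_div_iff₀ hPpos (by positivity), one_mul]
  exact h4

theorem bad_sum [Nonempty ι] (c : CD ι) {D : ℕ} (hc : c.Valid D) (cb : ℕ) :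
    ∃ H0 : ℕ, ∀ H : ℕ, H0 ≤ H → ∀ b : ℕ, 0 < b → (b : ℝ) ≤ Real.log H ^ cb →
      ∀ T S : Finset ℕ, (∀ p ∈ S, p.Prime ∧ zH D (Fintype.card ι) H < p ∧ p ≤ H ∧
        c.Bad (Real.log H) (NH D (Fintype.card ι) cb H) b T p) →
      ∑ p ∈ S, 1 / (p : ℝ) ≤ 1 / Real.log H ^ 4 := by
  classical
  obtain ⟨Ha, hHa⟩ := bad_block c hc cb
  obtain ⟨Hb, hHb⟩ := log_large (2 ^ (Fintype.card ι + 3))
  refine ⟨max Ha Hb, fun H hH b hb0 hbL T S hS => ?_⟩
  have hblock := hHa H ((le_max_left _ _).trans hH) b hb0 hbL T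
  have hLr := hHb H ((le_max_right _ _).trans hH)
  obtain ⟨r, hr⟩ : ∃ r : ℕ, r = Fintype.card ι := ⟨_, rfl⟩
  rw [← hr] at hblock hLr
  obtain ⟨L, hLdef⟩ : ∃ L : ℝ, L = Real.log H := ⟨_, rfl⟩
  have hL8 : 8 ≤ L := by
    have h1 : (1 : ℝ) ≤ 2 ^ r := one_le_pow₀ (by norm_num)
    rw [hLdef]
    refine le_trans ?_ hLr
    rw [pow_add]
    norm_num
    linarith
  have hL0 : 0 < L := by linarith
  have hL1 : 1 ≤ L := by linarith
  -- choice of the witnesses
  have hex : ∀ p : ℕ, ∃ k : ℕ × Finset ι, p ∈ S → ((k.1 : ℝ) ≤ L ^ E0 r ∧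
      (NH D r cb H : ℝ) ≤ L ^ E1 r * (c.NN (NH D r cb H) b T k.1).card ∧ k.2.Nonempty ∧
      ((c.NN (NH D r cb H) b T k.1).card : ℝ) < L *
        |∑ n ∈ c.NN (NH D r cb H) b T k.1, (jacobiSym (c.vI k.2 (c.x b n)) p : ℝ)|) := by
    intro p
    by_cases hp : p ∈ S
    · obtain ⟨-, -, -, e, he1, -, -, he2, I, hI, hlt⟩ := hS p hp
      rw [← hr, ← hLdef] at he1 he2 hlt
      exact ⟨(e, I), fun _ => ⟨he1, he2, hI, hlt⟩⟩
    · exact ⟨(0, ∅), fun h => absurd h hp⟩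
  choose k hk using hex
  obtain ⟨z, hz⟩ : ∃ z : ℕ, z = zH D r H + 1 := ⟨_, rfl⟩
  have hz0 : 0 < z := by omega
  have hzL : L ^ cz D r ≤ z := by
    rw [hz]
    push_cast
    unfold zH
    rw [← hLdef]
    exact (Nat.lt_floor_add_one _).le
  have hz2 : 3 ≤ z := by
    have h1 : L ^ 1 ≤ L ^ cz D r := pow_le_pow_right₀ hL1 (by unfold cz; omega)
    rw [pow_one] at h1
    have h2 : (3 : ℝ) ≤ z := by linarith
    exact_mod_cast h2
  let g : ℕ → (ℕ × Finset ι) × ℕ := fun p => (k p, Nat.log 2 (p / z))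
  let KK : Finset ((ℕ × Finset ι) × ℕ) :=
    ((range (⌊L ^ E0 r⌋₊ + 1)) ×ˢ (univ : Finset (Finset ι))) ×ˢ range (Nat.log 2 H + 1)
  have hgK : ∀ p ∈ S, g p ∈ KK := by
    intro p hp
    obtain ⟨h1, -, -, -⟩ := hk p hp
    have hpH := (hS p hp).2.2.1
    simp only [g, KK, Finset.mem_product, Finset.mem_range, Finset.mem_univ, and_true]
    refine ⟨?_, ?_⟩
    · exact Nat.lt_succ_of_le (Nat.le_floor h1)
    · apply Nat.lt_succ_of_le
      exact Nat.log_mono_right ((Nat.div_le_self _ _).trans hpH)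
  have hsum := Finset.sum_fiberwise_of_maps_to hgK (fun p : ℕ => 1 / (p : ℝ))
  rw [← hsum]
  have hfib : ∀ κ ∈ KK, ∑ p ∈ S.filter (fun p => g p = κ), 1 / (p : ℝ) ≤ 1 / L ^ E2 r := by
    intro κ _
    rcases (S.filter (fun p => g p = κ)).eq_empty_or_nonempty with hemp | ⟨p0, hp0⟩
    · rw [hemp, Finset.sum_empty]
      positivity
    · rw [Finset.mem_filter] at hp0
      obtain ⟨hp0S, hp0g⟩ := hp0
      obtain ⟨h1, h2, h3, -⟩ := hk p0 hp0S
      have hk0 : k p0 = κ.1 := congrArg Prod.fst hp0g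
      rw [hk0] at h2 h3
      rw [hLdef]
      rw [hLdef] at h2
      refine hblock _ κ.1.1 κ.1.2 h3 (z * 2 ^ κ.2) ?_ h2 ?_
      · rw [← hLdef]
        refine hzL.trans ?_
        exact_mod_cast Nat.le_mul_of_pos_right z (by positivity)
      · intro p hp
        rw [Finset.mem_filter] at hp
        obtain ⟨hpS, hpg⟩ := hp
        obtain ⟨-, -, -, h4⟩ := hk p hpS
        have hkp : k p = κ.1 := congrArg Prod.fst hpg
        have hlog : Nat.log 2 (p / z) = κ.2 := congrArg Prod.snd hpg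
        rw [hkp] at h4
        obtain ⟨hpp, hpz, -, -⟩ := hS p hpS
        rw [← hr] at hpz
        have hzp : z ≤ p := by omega
        have hdiv : p / z ≠ 0 := (Nat.div_pos hzp hz0).ne'
        refine ⟨hpp, by omega, ?_, ?_, ?_⟩
        · rw [← hlog]
          have := Nat.pow_log_le_self 2 hdiv
          calc z * 2 ^ Nat.log 2 (p / z) ≤ z * (p / z) := Nat.mul_le_mul_left _ this
            _ ≤ p := Nat.mul_div_le _ _
        · have h5 : p / z < 2 ^ (Nat.log 2 (p / z) + 1) := Nat.lt_pow_succ_log_self (by norm_num) _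
          rw [hlog] at h5
          have h6 : p < 2 ^ (κ.2 + 1) * z := (Nat.div_lt_iff_lt_mul hz0).mp h5
          calc p ≤ 2 ^ (κ.2 + 1) * z := h6.le
            _ = 2 * (z * 2 ^ κ.2) := by ring
        · rw [← hLdef]
          exact h4
  refine (Finset.sum_le_card_nsmul _ _ _ hfib).trans ?_
  rw [nsmul_eq_mul, ← hLdef]
  have hcard : ((KK.card : ℕ) : ℝ) ≤ (2 * L ^ E0 r) * 2 ^ r * (2 * L) := by
    simp only [KK, Finset.card_product, Finset.card_range, Finset.card_univ, Fintype.card_finset]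
    rw [← hr]
    push_cast
    have h1 : ((⌊L ^ E0 r⌋₊ : ℕ) : ℝ) + 1 ≤ 2 * L ^ E0 r := by
      have h2 := Nat.floor_le (by positivity : 0 ≤ L ^ E0 r)
      have h3 : (1 : ℝ) ≤ L ^ E0 r := one_le_pow₀ hL1
      linarith
    have h2 : ((Nat.log 2 H : ℕ) : ℝ) + 1 ≤ 2 * L := by
      rcases Nat.eq_zero_or_pos H with h0 | hpos
      · rw [h0]
        simp
        linarith
      · have h3 : 2 ^ Nat.log 2 H ≤ H := Nat.pow_log_le_self 2 hpos.ne'
        have h4 : ((2 : ℝ) ^ Nat.log 2 H) ≤ H := by exact_mod_cast h3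
        have h5 := Real.log_le_log (by positivity) h4
        rw [Real.log_pow, ← hLdef] at h5
        have h6 := Real.log_two_gt_d9
        have h7 : (0 : ℝ) ≤ (Nat.log 2 H : ℝ) := Nat.cast_nonneg _
        nlinarith
    refine mul_le_mul (mul_le_mul_of_nonneg_right h1 (by positivity)) h2 (by positivity)
      (by positivity)
  have hE : E2 r = E0 r + 8 := by unfold E2 E0; ring
  calc ((KK.card : ℕ) : ℝ) * (1 / L ^ E2 r) ≤ ((2 * L ^ E0 r) * 2 ^ r * (2 * L)) * (1 / L ^ E2 r) :=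
        mul_le_mul_of_nonneg_right hcard (by positivity)
    _ = 2 ^ (r + 2) / (L ^ 3 * L ^ 4) := by
      rw [hE, pow_add L (E0 r) 8, pow_add 2 r 2]
      field_simp
    _ ≤ L / (L * L ^ 4) := by
      have h8 : (2 : ℝ) ^ (r + 2) ≤ L := by
        rw [hLdef]
        refine le_trans ?_ hLr
        exact pow_le_pow_right₀ (by norm_num) (by omega)
      have h9 : L * L ^ 4 ≤ L ^ 3 * L ^ 4 := by
        refine mul_le_mul_of_nonneg_right ?_ (by positivity)
        calc L = L * 1 := (mul_one L).symm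
          _ ≤ L * L ^ 2 := mul_le_mul_of_nonneg_left (one_le_pow₀ hL1) hL0.le
          _ = L ^ 3 := by ring
      exact div_le_div₀ hL0.le h8 (by positivity) h9
    _ = 1 / L ^ 4 := by
      field_simp

end TwHP
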