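import Pool.Agent.Lib.MP_e426f4_ag.TW.Cop
import Pool.Agent.Lib.MP_e426f4_ag.TWL.WeilApp

/-!
# TWS.Base (TWIST, section 4): basic facts about the base points
-/

set_option autoImplicit false
set_option linter.unusedSectionVars false

namespace TwHP

open Finset Polynomial CD

variable {ι : Type} [Fintype ι] [DecidableEq ι]

theorem eval_modEq (f : ℤ[X]) {x y q : ℕ} (h : x ≡ y [MOD q]) :
    f.eval (x : ℤ) ≡ f.eval (y : ℤ) [ZMOD q] := by
  have h1 : (q : ℤ) ∣ (x : ℤ) - y := (Int.modEq_iff_dvd.1 (Int.natCast_modEq_iff.2 h).symm)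
  exact (Int.modEq_iff_dvd.2 (h1.trans (Polynomial.sub_dvd_eval_sub _ _ _))).symm

theorem vI_eval (c : CD ι) (I : Finset ι) (x : ℕ) : c.vI I x = (∏ i ∈ I, c.cc i).eval (x : ℤ) := by
  rw [Polynomial.eval_prod, CD.vI]
  refine Finset.prod_congr rfl fun i _ => ?_
  rw [CD.vc, CD.v, CD.v, CD.cc, Polynomial.eval_neg, Polynomial.eval_mul]

theorem jac_congr (c : CD ι) (I : Finset ι) {x y q : ℕ} (h : x ≡ y [MOD q]) :
    jacobiSym (c.vI I x) q = jacobiSym (c.vI I y) q := by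
  rw [vI_eval, vI_eval]
  exact jacobiSym.mod_left' (eval_modEq _ h)

theorem vI_single (c : CD ι) (i : ι) (x : ℕ) : c.vI {i} x = c.vc i x := by
  rw [CD.vI, Finset.prod_singleton]

theorem jac_congr_vc (c : CD ι) (i : ι) {x y q : ℕ} (h : x ≡ y [MOD q]) :
    jacobiSym (c.vc i x) q = jacobiSym (c.vc i y) q := by
  have := jac_congr c {i} h
  rwa [vI_single, vI_single] at this

theorem vt_congr (c : CD ι) {x y e : ℕ} (h : x ≡ y [MOD e]) : (e : ℤ) ∣ c.vt x ↔ (e : ℤ) ∣ c.vt y := by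
  have h1 := (eval_modEq c.Pt h).dvd
  have h2 : (e : ℤ) ∣ c.vt y - c.vt x := h1
  exact (dvd_iff_dvd_of_dvd_sub h2).symm

/-- primes not dividing `Q0` are `> w` -/
theorem gt_of_not_dvd {c : CD ι} {D : ℕ} (hc : c.Valid D) {q : ℕ} (hq : q.Prime) (h : ¬ q ∣ c.Q0) :
    c.w < q := by
  by_contra hcon
  exact h (hc.small_dvd q hq (not_lt.1 hcon))

/-- the product of the `cc i` is `± Pt` -/
theorem prod_cc (c : CD ι) : ∏ i, c.cc i = (-1) ^ (Fintype.card ι) * c.Pt := by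
  rw [CD.Pt, ← Finset.card_univ, ← Finset.prod_const, ← Finset.prod_mul_distrib]
  refine Finset.prod_congr rfl fun i _ => ?_
  rw [CD.cc]; ring

theorem Pt_ne {c : CD ι} {D : ℕ} (hc : c.Valid D) : c.Pt ≠ 0 := by
  intro h
  have := hc.ne c.x0 le_rfl rfl
  apply this
  rw [CD.vt, h, Polynomial.eval_zero]

theorem D_pos [Nonempty ι] {c : CD ι} {D : ℕ} (hc : c.Valid D) : 1 ≤ D := by
  obtain ⟨i⟩ := (inferInstance : Nonempty ι)
  rw [← hc.deg_Pt]
  refine (hc.deg_cc i).trans ?_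
  have h1 : c.cc i ∣ c.Pt := by
    have h2 : c.cc i ∣ ∏ i, c.cc i := Finset.dvd_prod_of_mem _ (Finset.mem_univ i)
    rw [prod_cc] at h2
    have hu : IsUnit ((-1 : ℤ[X]) ^ Fintype.card ι) := (isUnit_one.neg).pow _
    exact (hu.dvd_mul_left).1 h2
  exact Polynomial.natDegree_le_of_dvd h1 (Pt_ne hc)

theorem w_big {c : CD ι} {D : ℕ} (hc : c.Valid D) : 10000 ≤ c.w := by
  refine le_trans ?_ hc.w_ge
  rw [W0]
  have h1 : 1 ≤ 4 ^ Fintype.card ι := Nat.one_le_pow _ _ (by norm_num)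
  calc 10000 = 1 * 100 ^ 2 := by norm_num
    _ ≤ 4 ^ Fintype.card ι * (20 * D + 100) ^ 2 :=
      Nat.mul_le_mul h1 (Nat.pow_le_pow_left (by omega) 2)

theorem Pt_ne_zero {c : CD ι} {D : ℕ} (hc : c.Valid D) {q : ℕ} (hq : q.Prime) (hqQ : ¬ q ∣ c.Q0) :
    c.Pt.map (Int.castRingHom (ZMod q)) ≠ 0 := by
  have : Fact q.Prime := ⟨hq⟩
  exact (hc.sep q hq hqQ).squarefree.ne_zero

/-- a product of some `cc i`, reduced modulo a good prime: squarefree, of degree between `1` and `D` -/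
theorem cc_good {c : CD ι} {D : ℕ} (hc : c.Valid D) {q : ℕ} (hq : q.Prime) (hqQ : ¬ q ∣ c.Q0)
    (I : Finset ι) (hI : I.Nonempty) :
    Squarefree ((∏ i ∈ I, c.cc i).map (Int.castRingHom (ZMod q))) ∧
      1 ≤ ((∏ i ∈ I, c.cc i).map (Int.castRingHom (ZMod q))).natDegree ∧
      ((∏ i ∈ I, c.cc i).map (Int.castRingHom (ZMod q))).natDegree ≤ D := by
  have : Fact q.Prime := ⟨hq⟩
  have hPt := Pt_ne hc
  have h1 : (∏ i ∈ I, c.cc i) ∣ c.Pt := by
    have h2 : (∏ i ∈ I, c.cc i) ∣ ∏ i, c.cc i :=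
      Finset.prod_dvd_prod_of_subset _ _ _ (Finset.subset_univ I)
    rw [prod_cc] at h2
    have hu : IsUnit ((-1 : ℤ[X]) ^ Fintype.card ι) := (isUnit_one.neg).pow _
    exact (hu.dvd_mul_left).1 h2
  obtain ⟨g, hg⟩ := h1
  have h0 : (∏ i ∈ I, c.cc i) ≠ 0 := by
    rintro h; rw [h, zero_mul] at hg; exact hPt hg
  have hg0 : g ≠ 0 := by
    rintro rfl; rw [mul_zero] at hg; exact hPt hg
  have hm := hc.sep q hq hqQ
  have hmd := hc.sep_deg q hq hqQ
  have hm0 : c.Pt.map (Int.castRingHom (ZMod q)) ≠ 0 := hm.squarefree.ne_zero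
  have hgm : c.Pt.map (Int.castRingHom (ZMod q)) =
      (∏ i ∈ I, c.cc i).map (Int.castRingHom (ZMod q)) * g.map (Int.castRingHom (ZMod q)) := by
    rw [hg, Polynomial.map_mul]
  have ha0 : (∏ i ∈ I, c.cc i).map (Int.castRingHom (ZMod q)) ≠ 0 := by
    intro h; rw [h, zero_mul] at hgm; exact hm0 hgm
  have hb0 : g.map (Int.castRingHom (ZMod q)) ≠ 0 := by
    intro h; rw [h, mul_zero] at hgm; exact hm0 hgm
  have hdeg : ((∏ i ∈ I, c.cc i).map (Int.castRingHom (ZMod q))).natDegree = (∏ i ∈ I, c.cc i).natDegree := by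
    have e1 := congrArg Polynomial.natDegree hgm
    rw [hmd, Polynomial.natDegree_mul ha0 hb0] at e1
    have e2 := congrArg Polynomial.natDegree hg
    rw [hc.deg_Pt, Polynomial.natDegree_mul h0 hg0] at e2
    have e3 := Polynomial.natDegree_map_le (f := Int.castRingHom (ZMod q)) (p := ∏ i ∈ I, c.cc i)
    have e4 := Polynomial.natDegree_map_le (f := Int.castRingHom (ZMod q)) (p := g)
    omega
  refine ⟨hm.squarefree.squarefree_of_dvd ⟨_, hgm⟩, ?_, ?_⟩
  · rw [hdeg]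
    obtain ⟨i, hi⟩ := hI
    exact (hc.deg_cc i).trans (Polynomial.natDegree_le_of_dvd (Finset.dvd_prod_of_mem _ hi) h0)
  · rw [← hmd]
    exact Polynomial.natDegree_le_of_dvd ⟨_, hgm⟩ hm0

theorem W1x {c : CD ι} {D : ℕ} (hc : c.Valid D) {q : ℕ} (hq : q.Prime) (hqQ : ¬ q ∣ c.Q0) :
    ∃ x ∈ range q, ∀ i, jacobiSym (c.vc i x) q = 1 := by
  have : Fact q.Prime := ⟨hq⟩
  have hwq := gt_of_not_dvd hc hq hqQ
  have hw0 : (2 ^ Fintype.card ι * (20 * D + 41)) ^ 2 + 2 ≤ c.w := by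
    refine le_trans ?_ hc.w_ge
    rw [W0]
    have h1 : (2 ^ Fintype.card ι * (20 * D + 41)) ^ 2 = 4 ^ Fintype.card ι * (20 * D + 41) ^ 2 := by
      rw [mul_pow, ← pow_mul, mul_comm (Fintype.card ι) 2, pow_mul]; norm_num
    rw [h1]
    have h2 : 1 ≤ 4 ^ Fintype.card ι := Nat.one_le_pow _ _ (by norm_num)
    have h3 : (20 * D + 41) ^ 2 + 2 ≤ (20 * D + 100) ^ 2 := by
      have h4 : (20 * D + 100) ^ 2 = (20 * D + 41) ^ 2 + 59 * (40 * D + 141) := by ring
      rw [h4]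
      exact Nat.add_le_add_left (by omega) _
    calc 4 ^ Fintype.card ι * (20 * D + 41) ^ 2 + 2
        ≤ 4 ^ Fintype.card ι * (20 * D + 41) ^ 2 + 4 ^ Fintype.card ι * 2 := by omega
      _ = 4 ^ Fintype.card ι * ((20 * D + 41) ^ 2 + 2) := by ring
      _ ≤ _ := Nat.mul_le_mul_left _ h3
  have hw : (2 ^ Fintype.card ι * (20 * D + 41)) ^ 2 + 2 < q := lt_of_le_of_lt hw0 hwq
  have hq2 : q ≠ 2 := by
    have : 0 < (2 ^ Fintype.card ι * (20 * D + 41)) ^ 2 := by positivity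
    omega
  have hqpos : (0 : ℝ) < q := by exact_mod_cast hq.pos
  by_contra hcon
  push Not at hcon
  have hI : ∀ I : Finset ι, I.Nonempty →
      |∑ x ∈ range q, (jacobiSym ((∏ i ∈ I, c.cc i).eval (x : ℤ)) q : ℝ)| ≤ (20 * D + 40) * √(q : ℝ) := by
    intro I hne
    obtain ⟨g1, g2, g3⟩ := cc_good hc hq hqQ I hne
    exact Pool.Agent.Lib.MP_e426f4_ag.TWL.weil_int q hq2 _ g1 g2 D g3
  have hexp : ∑ x ∈ range q, ∏ i, (1 + (jacobiSym (c.vc i x) q : ℝ))
      = ∑ I : Finset ι, ∑ x ∈ range q, (jacobiSym ((∏ i ∈ I, c.cc i).eval (x : ℤ)) q : ℝ) := by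
    rw [Finset.sum_comm]
    refine Finset.sum_congr rfl fun x _ => ?_
    have h1 := Finset.prod_add (fun i : ι => (jacobiSym (c.vc i x) q : ℝ)) (fun _ => (1 : ℝ)) univ
    have h2 : ∏ i, (1 + (jacobiSym (c.vc i x) q : ℝ))
        = ∏ i, ((jacobiSym (c.vc i x) q : ℝ) + 1) :=
      Finset.prod_congr rfl fun i _ => add_comm _ _
    rw [h2, h1, Finset.powerset_univ]
    refine Finset.sum_congr rfl fun I _ => ?_
    rw [Finset.prod_const_one, mul_one, ← vI_eval, CD.vI]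
    have h3 : ∀ J : Finset ι, jacobiSym (∏ i ∈ J, c.vc i x) q
        = ∏ i ∈ J, jacobiSym (c.vc i x) q := by
      intro J
      induction J using Finset.induction_on with
      | empty => simp [jacobiSym.one_left]
      | insert a s ha ih => rw [Finset.prod_insert ha, Finset.prod_insert ha, jacobiSym.mul_left, ih]
    rw [h3]; push_cast; rfl
  have hlow : (q : ℝ) - 2 ^ Fintype.card ι * ((20 * D + 40) * √(q : ℝ))
      ≤ ∑ x ∈ range q, ∏ i, (1 + (jacobiSym (c.vc i x) q : ℝ)) := by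
    rw [hexp, ← Finset.add_sum_erase univ _ (Finset.mem_univ (∅ : Finset ι))]
    have h1 : ∑ x ∈ range q, (jacobiSym ((∏ i ∈ (∅ : Finset ι), c.cc i).eval (x : ℤ)) q : ℝ) = q := by
      simp [jacobiSym.one_left]
    rw [h1]
    have h2 : |∑ I ∈ univ.erase (∅ : Finset ι),
        ∑ x ∈ range q, (jacobiSym ((∏ i ∈ I, c.cc i).eval (x : ℤ)) q : ℝ)|
          ≤ 2 ^ Fintype.card ι * ((20 * D + 40) * √(q : ℝ)) := by
      refine (Finset.abs_sum_le_sum_abs _ _).trans ?_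
      refine (Finset.sum_le_sum fun I hI' => hI I ?_).trans ?_
      · rw [Finset.mem_erase] at hI'
        exact Finset.nonempty_iff_ne_empty.2 hI'.1
      · rw [Finset.sum_const, nsmul_eq_mul]
        refine mul_le_mul_of_nonneg_right ?_ (by positivity)
        have h3 : (univ.erase (∅ : Finset ι)).card ≤ 2 ^ Fintype.card ι := by
          refine (Finset.card_le_card (Finset.erase_subset _ _)).trans ?_
          rw [Finset.card_univ, Fintype.card_finset]
        exact_mod_cast h3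
    have h3 := neg_abs_le (∑ I ∈ univ.erase (∅ : Finset ι),
        ∑ x ∈ range q, (jacobiSym ((∏ i ∈ I, c.cc i).eval (x : ℤ)) q : ℝ))
    linarith
  -- upper bound under the assumption
  have hup : ∑ x ∈ range q, ∏ i, (1 + (jacobiSym (c.vc i x) q : ℝ)) ≤ 2 ^ Fintype.card ι * D := by
    have hz0 : (((range q).filter (fun x : ℕ => jacobiSym (c.Pt.eval (x : ℤ)) q = 0)).card) ≤ D :=
      Pool.Agent.Lib.MP_e426f4_ag.TWL.zeros_le q c.Pt (Pt_ne_zero hc hq hqQ) D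
        (le_of_eq (hc.sep_deg q hq hqQ))
    have h1 : ∀ x ∈ range q, ∏ i, (1 + (jacobiSym (c.vc i x) q : ℝ))
        ≤ if jacobiSym (c.Pt.eval (x : ℤ)) q = 0 then (2 : ℝ) ^ Fintype.card ι else 0 := by
      intro x hx
      have hle : ∀ i, (1 + (jacobiSym (c.vc i x) q : ℝ)) ≤ 2 ∧
          0 ≤ (1 + (jacobiSym (c.vc i x) q : ℝ)) := by
        intro i
        rcases jacobiSym.trichotomy (c.vc i x) q with h | h | h <;> rw [h] <;> norm_num
      have hle2 : ∏ i, (1 + (jacobiSym (c.vc i x) q : ℝ)) ≤ 2 ^ Fintype.card ι := by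
        calc ∏ i, (1 + (jacobiSym (c.vc i x) q : ℝ)) ≤ ∏ _i : ι, (2 : ℝ) :=
              Finset.prod_le_prod (fun i _ => (hle i).2) (fun i _ => (hle i).1)
          _ = 2 ^ Fintype.card ι := by simp
      split_ifs with h
      · exact hle2
      · obtain ⟨i, hi⟩ := hcon x hx
        have hne : jacobiSym (c.vc i x) q ≠ 0 := by
          intro h2
          apply h
          obtain ⟨k, hk⟩ := vc_dvd_vt c i x
          have hk' : c.Pt.eval (x : ℤ) = c.vc i x * k := hk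
          rw [hk', jacobiSym.mul_left, h2, zero_mul]
        have hm1 : jacobiSym (c.vc i x) q = -1 := by
          rcases jacobiSym.trichotomy (c.vc i x) q with h' | h' | h'
          · exact absurd h' hne
          · exact absurd h' hi
          · exact h'
        rw [← Finset.mul_prod_erase univ _ (Finset.mem_univ i), hm1]
        norm_num
    refine (Finset.sum_le_sum h1).trans ?_
    rw [← Finset.sum_filter, Finset.sum_const, nsmul_eq_mul, mul_comm]
    refine mul_le_mul_of_nonneg_left ?_ (by positivity)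
    exact_mod_cast hz0
  have hs : √(q : ℝ) * √(q : ℝ) = q := Real.mul_self_sqrt hqpos.le
  have hsl : (2 ^ Fintype.card ι * (20 * D + 41) : ℝ) < √(q : ℝ) := by
    apply Real.lt_sqrt_of_sq_lt
    have : ((2 ^ Fintype.card ι * (20 * D + 41)) ^ 2 : ℕ) < q := by omega
    exact_mod_cast this
  have hr : (1 : ℝ) ≤ 2 ^ Fintype.card ι := one_le_pow₀ (by norm_num)
  have hD0 : (0 : ℝ) ≤ D := Nat.cast_nonneg D
  have hspos : 0 < √(q : ℝ) := Real.sqrt_pos.2 hqpos
  have h1 := hlow.trans hup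
  have hD' : (D : ℝ) < √(q : ℝ) := by nlinarith
  have h2 : (2 : ℝ) ^ Fintype.card ι * D ≤ 2 ^ Fintype.card ι * √(q : ℝ) :=
    mul_le_mul_of_nonneg_left hD'.le (by positivity)
  have h3 : (2 ^ Fintype.card ι * (20 * D + 41) : ℝ) * √(q : ℝ) < √(q : ℝ) * √(q : ℝ) :=
    mul_lt_mul_of_pos_right hsl hspos
  nlinarith

theorem x_modEq (c : CD ι) (b n : ℕ) : c.x b n ≡ c.x0 [MOD c.Q0] := by
  rw [CD.x]
  have h := (Nat.modEq_zero_iff_dvd.2 (Dvd.intro (c.tb b + b * n) rfl :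
    c.Q0 ∣ c.Q0 * (c.tb b + b * n)))
  have h2 := Nat.ModEq.add_left c.x0 h
  rwa [Nat.add_zero] at h2

theorem x_ge (c : CD ι) (b n : ℕ) : c.x0 ≤ c.x b n := Nat.le_add_right _ _

theorem vt_x_ne {c : CD ι} {D : ℕ} (hc : c.Valid D) (b n : ℕ) : c.vt (c.x b n) ≠ 0 :=
  hc.ne _ (x_ge c b n) (x_modEq c b n)

theorem tb_le (c : CD ι) (b : ℕ) : c.tb b ≤ b := by
  classical
  rw [CD.tb]
  split_ifs with h
  · exact h.choose_spec.1.le
  · exact Nat.zero_le _

theorem tb_exists {c : CD ι} {D : ℕ} (hc : c.Valid D) {b : ℕ} (hb : Squarefree b)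
    (hbQ : b.Coprime c.Q0) :
    ∃ t : ℕ, t < b ∧ ∀ q ∈ b.primeFactors, ∀ i, jacobiSym (c.vc i (c.x0 + c.Q0 * t)) q = 1 := by
  have hbpos : 0 < b := Nat.pos_of_ne_zero hb.ne_zero
  -- for every prime factor, a good `t`
  have h1 : ∀ q ∈ b.primeFactors, ∃ t : ℕ, ∀ i, jacobiSym (c.vc i (c.x0 + c.Q0 * t)) q = 1 := by
    intro q hq
    have hqp := Nat.prime_of_mem_primeFactors hq
    have hqb := Nat.dvd_of_mem_primeFactors hq
    have hqQ : ¬ q ∣ c.Q0 := by
      intro h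
      exact hqp.one_lt.ne' (Nat.eq_one_of_dvd_coprimes hbQ hqb h)
    obtain ⟨y, _, hy⟩ := W1x hc hqp hqQ
    have hcop : c.Q0.Coprime q := (Nat.Coprime.symm ((Nat.Prime.coprime_iff_not_dvd hqp).2 hqQ))
    -- solve `x0 + Q0 t ≡ y`
    have : Fact q.Prime := ⟨hqp⟩
    have hQ0 : (c.Q0 : ZMod q) ≠ 0 := by
      intro h; exact hqQ ((ZMod.natCast_eq_zero_iff _ _).1 h)
    refine ⟨(((y : ZMod q) - c.x0) * (c.Q0 : ZMod q)⁻¹).val, fun i => ?_⟩
    rw [← hy i]
    refine jac_congr_vc c i ?_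
    rw [← ZMod.natCast_eq_natCast_iff]
    push_cast
    rw [ZMod.natCast_zmod_val]
    field_simp
    ring
  choose! g hg using h1
  let t := Nat.chineseRemainderOfFinset g id b.primeFactors
    (fun q hq => (Nat.prime_of_mem_primeFactors hq).ne_zero)
    (fun q hq q' hq' hne => (Nat.coprime_primes (Nat.prime_of_mem_primeFactors hq)
      (Nat.prime_of_mem_primeFactors hq')).2 hne)
  refine ⟨t % b, Nat.mod_lt _ hbpos, fun q hq i => ?_⟩
  rw [← hg q hq i]
  refine jac_congr_vc c i ?_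
  refine Nat.ModEq.add_left _ (Nat.ModEq.mul_left _ ?_)
  have h2 : (t % b : ℕ) ≡ t [MOD q] := (Nat.mod_modEq _ _).of_dvd (Nat.dvd_of_mem_primeFactors hq)
  exact h2.trans (t.2 q hq)

/-- at the primes of `b` -/
theorem x_jac {c : CD ι} {D : ℕ} (hc : c.Valid D) {b : ℕ} (hb : Squarefree b) (hbQ : b.Coprime c.Q0)
    (n : ℕ) {q : ℕ} (hq : q.Prime) (hqb : q ∣ b) (i : ι) : jacobiSym (c.vc i (c.x b n)) q = 1 := by
  classical
  have h := tb_exists hc hb hbQ
  have htb : c.tb b = h.choose := by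
    rw [CD.tb, dif_pos h]
  have h1 := h.choose_spec.2 q (Nat.mem_primeFactors.2 ⟨hq, hqb, hb.ne_zero⟩) i
  rw [← htb] at h1
  rw [← h1]
  refine jac_congr_vc c i ?_
  rw [CD.x]
  refine Nat.ModEq.add_left _ (Nat.ModEq.mul_left _ ?_)
  have h2 : b * n ≡ 0 [MOD q] := Nat.modEq_zero_iff_dvd.2 (hqb.mul_right n)
  simpa using Nat.ModEq.add_left (c.tb b) h2

/-- `n ↦ x b n` is injective modulo `e` -/
theorem x_inj (c : CD ι) {b e : ℕ} (he : e.Coprime (c.Q0 * b)) (n n' : ℕ)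
    (h : c.x b n ≡ c.x b n' [MOD e]) : n ≡ n' [MOD e] := by
  rw [CD.x, CD.x] at h
  have h1 := Nat.ModEq.add_left_cancel' _ h
  have h2 := Nat.ModEq.cancel_left_of_coprime (Nat.Coprime.coprime_mul_right_right he) h1
  have h3 := Nat.ModEq.add_left_cancel' _ h2
  exact Nat.ModEq.cancel_left_of_coprime (Nat.Coprime.coprime_mul_left_right he) h3

/-- if all `J(vc i x|q) = 1` then `q` does not divide `vt x` -/
theorem not_dvd_vt (c : CD ι) (x q : ℕ) (hq : q.Prime) (h : ∀ i, jacobiSym (c.vc i x) q = 1) :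
    ¬ (q : ℤ) ∣ c.vt x := by
  have : Fact q.Prime := ⟨hq⟩
  intro hd
  rw [dvd_vt_iff c x q hq] at hd
  obtain ⟨i, b, hib⟩ := hd
  have h1 : (q : ℤ) ∣ c.vc i x := by
    rw [CD.vc]
    refine (dvd_neg).2 ?_
    cases b
    · exact hib.mul_right _
    · exact hib.mul_left _
  have h2 := h i
  rw [← jacobiSym.legendreSym.to_jacobiSym] at h2
  have h3 : legendreSym q (c.vc i x) = 0 := by
    rw [legendreSym.eq_zero_iff]
    exact (ZMod.intCast_zmod_eq_zero_iff_dvd _ _).2 h1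
  rw [h3] at h2
  exact absurd h2 (by norm_num)

/-- a prime at which some `J(vc i x|p)` vanishes divides `vt x` -/
theorem dvd_vt_of_zero (c : CD ι) (x p : ℕ) (hp : p.Prime) (i : ι)
    (h : jacobiSym (c.vc i x) p = 0) : (p : ℤ) ∣ c.vt x := by
  have : Fact p.Prime := ⟨hp⟩
  rw [← jacobiSym.legendreSym.to_jacobiSym, legendreSym.eq_zero_iff] at h
  exact ((ZMod.intCast_zmod_eq_zero_iff_dvd _ _).1 h).trans (vc_dvd_vt c i x)

end TwHP
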