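import Pool.Agent.Lib.MP_e426f4_ag.TWS.BadSum

/-!
# TWS.Ch (TWIST, section 4): (CH) almost all `a ≤ H` are chain-good
-/

set_option autoImplicit false
set_option linter.unusedSectionVars false

namespace TwHP

open Finset Polynomial CD

variable {ι : Type} [Fintype ι] [DecidableEq ι]

theorem sum_inv_le' (X : ℕ) : ∑ m ∈ Icc 1 X, (1 : ℝ) / m ≤ 1 + Real.log X := by
  have h := harmonic_le_one_add_log X
  rw [harmonic_eq_sum_Icc] at h
  push_cast at h
  refine le_trans (le_of_eq ?_) h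
  exact Finset.sum_congr rfl fun m _ => by rw [one_div]

/-- the product `b m p` divides `a` -/
theorem bmp_dvd (z a p : ℕ) (hp : p ∈ TT z a) :
    bb z a * (∏ q ∈ (TT z a).filter (· < p), q) * p ∣ a := by
  classical
  have hpa : p ∈ a.primeFactors ∧ z < p := mem_filter.1 hp
  set T' := (TT z a).filter (· < p) with hT'
  have hT : ∀ q ∈ T', q ∈ a.primeFactors ∧ z < q ∧ q < p := by
    intro q hq
    rw [hT', mem_filter, TT, mem_filter] at hq
    exact ⟨hq.1.1, hq.1.2, hq.2⟩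
  have hdis : Disjoint (a.primeFactors.filter (· ≤ z)) T' := by
    rw [Finset.disjoint_left]
    intro q hq hq'
    have h1 := (mem_filter.1 hq).2
    have h2 := (hT q hq').2.1
    omega
  have hnot : p ∉ a.primeFactors.filter (· ≤ z) ∪ T' := by
    rw [mem_union, not_or]
    constructor
    · intro h; have := (mem_filter.1 h).2; omega
    · intro h; have := (hT p h).2.2; omega
  have e1 : bb z a * (∏ q ∈ T', q) * p = ∏ q ∈ insert p (a.primeFactors.filter (· ≤ z) ∪ T'), q := by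
    rw [Finset.prod_insert hnot, Finset.prod_union hdis, bb]
    ring
  rw [e1]
  have hall : ∀ q ∈ insert p (a.primeFactors.filter (· ≤ z) ∪ T'), q ∈ a.primeFactors := by
    intro q hq
    rw [mem_insert, mem_union] at hq
    rcases hq with h | h | h
    · rw [h]; exact hpa.1
    · exact (mem_filter.1 h).1
    · exact (hT q h).1
  exact Finset.prod_primes_dvd a (fun q hq => (Nat.prime_of_mem_primeFactors (hall q hq)).prime)
    (fun q hq => Nat.dvd_of_mem_primeFactors (hall q hq))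

open Classical in
theorem ch4 [Nonempty ι] (c : CD ι) {D : ℕ} (hc : c.Valid D) (cb : ℕ) :
    ∃ H0 : ℕ, ∀ H : ℕ, H0 ≤ H →
      (((Icc 1 H).filter (fun a : ℕ => (bb (zH D (Fintype.card ι) H) a : ℝ) ≤ Real.log H ^ cb ∧
        ¬ c.CG (Real.log H) (NH D (Fintype.card ι) cb H) (zH D (Fintype.card ι) H) a)).card : ℝ)
        ≤ H / Real.log H := by
  obtain ⟨H1, h1⟩ := bad_sum c hc cb
  obtain ⟨H2, h2⟩ := log_large 4
  refine ⟨max (max H1 H2) 1, fun H hH => ?_⟩
  have k1 := h1 H ((le_max_left _ _).trans ((le_max_left _ _).trans hH))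
  have hL4 := h2 H ((le_max_right _ _).trans ((le_max_left _ _).trans hH))
  have hH1 : 1 ≤ H := (le_max_right _ _).trans hH
  set L := Real.log H with hL
  set N := NH D (Fintype.card ι) cb H with hN
  set z := zH D (Fintype.card ι) H with hz
  have hL0 : 0 < L := by linarith
  set Bf : Finset ℕ := (Icc 1 H).filter (fun b : ℕ => (b : ℝ) ≤ L ^ cb) with hBf
  set Sf : ℕ → ℕ → Finset ℕ := fun b m => (Icc 1 H).filter (fun p => p.Prime ∧ z < p ∧
    c.Bad L N b m.primeFactors p) with hSf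
  have hsub : (Icc 1 H).filter (fun a : ℕ => (bb z a : ℝ) ≤ L ^ cb ∧ ¬ c.CG L N z a) ⊆
      Bf.biUnion (fun b => (Icc 1 H).biUnion (fun m => (Sf b m).biUnion (fun p =>
        (Ioc 0 H).filter (fun a => b * m * p ∣ a)))) := by
    intro a ha
    rw [mem_filter, mem_Icc] at ha
    obtain ⟨⟨ha1, haH⟩, hab, hCG⟩ := ha
    rw [CD.CG] at hCG
    push Not at hCG
    obtain ⟨p, hp, hbad⟩ := hCG
    have hdvd := bmp_dvd z a p hp
    have hpa : p ∈ a.primeFactors ∧ z < p := mem_filter.1 hp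
    set T' := (TT z a).filter (· < p) with hT'
    have hTprime : ∀ q ∈ T', q.Prime := by
      intro q hq
      rw [hT', mem_filter, TT, mem_filter] at hq
      exact Nat.prime_of_mem_primeFactors hq.1.1
    have hpf : (∏ q ∈ T', q).primeFactors = T' := Nat.primeFactors_prod hTprime
    have hbpos : 0 < bb z a := by
      rw [bb]; exact Finset.prod_pos fun q hq => (Nat.prime_of_mem_primeFactors (mem_filter.1 hq).1).pos
    have hmpos : 0 < ∏ q ∈ T', q := Finset.prod_pos fun q hq => (hTprime q hq).pos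
    have hble : bb z a ≤ a := Nat.le_of_dvd ha1 ((Dvd.intro _ (by rw [mul_assoc])).trans hdvd)
    have hmle : ∏ q ∈ T', q ≤ a := by
      refine Nat.le_of_dvd ha1 ((Dvd.intro_left (bb z a * p) ?_).trans hdvd)
      ring
    have hple : p ≤ a := Nat.le_of_dvd ha1 (Nat.dvd_of_mem_primeFactors hpa.1)
    rw [mem_biUnion]
    refine ⟨bb z a, ?_, ?_⟩
    · rw [hBf, mem_filter, mem_Icc]; exact ⟨⟨hbpos, hble.trans haH⟩, hab⟩
    rw [mem_biUnion]
    refine ⟨∏ q ∈ T', q, mem_Icc.2 ⟨hmpos, hmle.trans haH⟩, ?_⟩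
    rw [mem_biUnion]
    refine ⟨p, ?_, ?_⟩
    · rw [hSf]
      simp only [mem_filter, mem_Icc]
      refine ⟨⟨(Nat.prime_of_mem_primeFactors hpa.1).pos, hple.trans haH⟩,
        Nat.prime_of_mem_primeFactors hpa.1, hpa.2, ?_⟩
      rw [hpf]; exact hbad
    · rw [mem_filter, mem_Ioc]
      exact ⟨⟨ha1, haH⟩, hdvd⟩
  have hcard : (((Icc 1 H).filter (fun a : ℕ => (bb z a : ℝ) ≤ L ^ cb ∧ ¬ c.CG L N z a)).card : ℝ) ≤
      ∑ b ∈ Bf, ∑ m ∈ Icc 1 H, ∑ p ∈ Sf b m, (H : ℝ) * (1 / b) * (1 / m) * (1 / p) := by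
    have e1 : ((Icc 1 H).filter (fun a : ℕ => (bb z a : ℝ) ≤ L ^ cb ∧ ¬ c.CG L N z a)).card ≤
        ∑ b ∈ Bf, ∑ m ∈ Icc 1 H, ∑ p ∈ Sf b m, H / (b * m * p) := by
      refine (Finset.card_le_card hsub).trans ?_
      refine Finset.card_biUnion_le.trans (Finset.sum_le_sum fun b _ => ?_)
      refine Finset.card_biUnion_le.trans (Finset.sum_le_sum fun m _ => ?_)
      refine Finset.card_biUnion_le.trans (Finset.sum_le_sum fun p _ => ?_)
      rw [Nat.Ioc_filter_dvd_card_eq_div]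
    have e2 : (((Icc 1 H).filter (fun a : ℕ => (bb z a : ℝ) ≤ L ^ cb ∧ ¬ c.CG L N z a)).card : ℝ) ≤
        ((∑ b ∈ Bf, ∑ m ∈ Icc 1 H, ∑ p ∈ Sf b m, H / (b * m * p) : ℕ) : ℝ) := by exact_mod_cast e1
    refine e2.trans ?_
    rw [Nat.cast_sum]
    refine Finset.sum_le_sum fun b _ => ?_
    rw [Nat.cast_sum]
    refine Finset.sum_le_sum fun m _ => ?_
    rw [Nat.cast_sum]
    refine Finset.sum_le_sum fun p _ => ?_
    refine Nat.cast_div_le.trans (le_of_eq ?_)
    push_cast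
    rw [one_div, one_div, one_div, div_eq_mul_inv, mul_inv, mul_inv]
    ring
  have hinner : ∀ b ∈ Bf, ∀ m ∈ Icc 1 H, ∑ p ∈ Sf b m, (H : ℝ) * (1 / b) * (1 / m) * (1 / p) ≤
      (H : ℝ) * (1 / L ^ 4) * (1 / b) * (1 / m) := by
    intro b hb m hm
    rw [hBf, mem_filter, mem_Icc] at hb
    have k2 := k1 b hb.1.1 hb.2 m.primeFactors (Sf b m) (by
      intro p hp
      rw [hSf] at hp
      simp only [mem_filter, mem_Icc] at hp
      exact ⟨hp.2.1, hp.2.2.1, hp.1.2, hp.2.2.2⟩)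
    rw [← Finset.mul_sum]
    calc (H : ℝ) * (1 / b) * (1 / m) * ∑ p ∈ Sf b m, 1 / (p : ℝ)
        ≤ (H : ℝ) * (1 / b) * (1 / m) * (1 / L ^ 4) := mul_le_mul_of_nonneg_left k2 (by positivity)
      _ = _ := by ring
  have hsum1 : ∑ m ∈ Icc 1 H, (1 : ℝ) / m ≤ 2 * L := by
    refine (sum_inv_le' H).trans ?_
    rw [← hL]; linarith
  have hsum2 : ∑ b ∈ Bf, (1 : ℝ) / b ≤ 2 * L := by
    refine le_trans ?_ hsum1
    exact Finset.sum_le_sum_of_subset_of_nonneg (Finset.filter_subset _ _) (fun _ _ _ => by positivity)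
  have hnn : 0 ≤ ∑ m ∈ Icc 1 H, (1 : ℝ) / m := Finset.sum_nonneg fun _ _ => by positivity
  refine hcard.trans ?_
  refine (Finset.sum_le_sum fun b hb => Finset.sum_le_sum fun m hm => hinner b hb m hm).trans ?_
  have e3 : ∑ b ∈ Bf, ∑ m ∈ Icc 1 H, (H : ℝ) * (1 / L ^ 4) * (1 / b) * (1 / m) =
      (H : ℝ) * (1 / L ^ 4) * ((∑ b ∈ Bf, (1 : ℝ) / b) * ∑ m ∈ Icc 1 H, (1 : ℝ) / m) := by
    rw [Finset.sum_mul_sum, Finset.mul_sum]
    refine Finset.sum_congr rfl fun b _ => ?_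
    rw [Finset.mul_sum]
    exact Finset.sum_congr rfl fun m _ => by ring
  rw [e3]
  calc (H : ℝ) * (1 / L ^ 4) * ((∑ b ∈ Bf, (1 : ℝ) / b) * ∑ m ∈ Icc 1 H, (1 : ℝ) / m)
      ≤ (H : ℝ) * (1 / L ^ 4) * ((2 * L) * (2 * L)) := by
        refine mul_le_mul_of_nonneg_left ?_ (by positivity)
        exact mul_le_mul hsum2 hsum1 hnn (by positivity)
    _ = (H / L) * (4 / L) := by field_simp; norm_num
    _ ≤ (H / L) * 1 := by
        refine mul_le_mul_of_nonneg_left ?_ (by positivity)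
        rw [div_le_one hL0]; exact hL4
    _ = H / L := mul_one _

end TwHP
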