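import Pool.Agent.Lib.MP_e426f4_ag.TWS.Base

/-!
# TWS.Count (TWIST, section 4): the number of `n ≤ N` with `e ∣ vt (x b n)`
-/

set_option autoImplicit false
set_option linter.unusedSectionVars false

namespace TwHP

open Finset Polynomial CD

variable {ι : Type} [Fintype ι] [DecidableEq ι]

/-- in a complete residue system the solutions `n` correspond to the roots -/
theorem count_block (c : CD ι) (b e : ℕ) (he : e.Coprime (c.Q0 * b)) (he0 : 0 < e) :
    ((range e).filter (fun n => (e : ℤ) ∣ c.vt (c.x b n))).card = c.rho e := by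
  rw [CD.rho]
  refine Finset.card_bij (fun n _ => c.x b n % e) ?_ ?_ ?_
  · intro n hn
    rw [mem_filter] at hn ⊢
    refine ⟨mem_range.2 (Nat.mod_lt _ he0), ?_⟩
    exact (vt_congr c (Nat.mod_modEq _ _)).2 hn.2
  · intro n hn n' hn' h
    rw [mem_filter, mem_range] at hn hn'
    have h1 := x_inj c he n n' h
    exact Nat.ModEq.eq_of_lt_of_lt h1 hn.1 hn'.1
  · intro y hy
    rw [mem_filter, mem_range] at hy
    -- surjectivity: injective on `range e`
    have hinj : Set.InjOn (fun n => c.x b n % e) (range e : Set ℕ) := by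
      intro n hn n' hn' h
      rw [Finset.mem_coe, mem_range] at hn hn'
      exact Nat.ModEq.eq_of_lt_of_lt (x_inj c he n n' h) hn hn'
    have himg : (range e).image (fun n => c.x b n % e) = range e := by
      refine Finset.eq_of_subset_of_card_le ?_ ?_
      · intro z hz
        obtain ⟨n, _, rfl⟩ := mem_image.1 hz
        exact mem_range.2 (Nat.mod_lt _ he0)
      · rw [Finset.card_image_of_injOn hinj]
    have hy' : y ∈ (range e).image (fun n => c.x b n % e) := by rw [himg]; exact mem_range.2 hy.1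
    obtain ⟨n, hn, hny⟩ := mem_image.1 hy'
    refine ⟨n, ?_, hny⟩
    rw [mem_filter]
    refine ⟨hn, ?_⟩
    rw [← hny] at hy
    exact (vt_congr c (Nat.mod_modEq _ _)).1 hy.2

/-- the number of `n ∈ [a, a + N)` in a residue class is periodic: count over an interval of a periodic set -/
theorem count_periodic (p : ℕ → Prop) [DecidablePred p] (e : ℕ) (he0 : 0 < e)
    (hp : ∀ n, p (n + e) ↔ p n) (N : ℕ) :
    |(((Icc 1 N).filter p).card : ℝ) - N * ((range e).filter p).card / e|
      ≤ ((range e).filter p).card := by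
  set ρ := ((range e).filter p).card with hρ
  have hper : Function.Periodic p e := fun n => propext (hp n)
  have hIcc : (Icc 1 N).filter p = (Ico 1 (N + 1)).filter p := by
    congr 1
  have hcount : ∀ n k : ℕ, ((Ico n (n + k * e)).filter p).card = k * ρ := by
    intro n k
    induction k with
    | zero => simp
    | succ k ih =>
      have h1 : Ico n (n + (k + 1) * e) = Ico n (n + k * e) ∪ Ico (n + k * e) (n + k * e + e) := by
        rw [Finset.Ico_union_Ico_eq_Ico (by omega) (by omega)]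
        congr 1; ring
      rw [h1, Finset.filter_union, Finset.card_union_of_disjoint, ih]
      · have h2 : ((Ico (n + k * e) (n + k * e + e)).filter p).card = ρ := by
          rw [Nat.filter_Ico_card_eq_of_periodic _ _ p hper, Nat.count_eq_card_filter_range]
        rw [h2]; ring
      · refine Finset.disjoint_filter_filter ?_
        exact Finset.Ico_disjoint_Ico_consecutive _ _ _
  -- lower and upper bounds
  have hdiv := Nat.div_add_mod N e
  have hlt := Nat.mod_lt N he0
  have hlow : (N / e) * ρ ≤ ((Icc 1 N).filter p).card := by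
    rw [hIcc, ← hcount 1 (N / e)]
    refine Finset.card_le_card (Finset.filter_subset_filter _ ?_)
    refine Finset.Ico_subset_Ico le_rfl ?_
    have : N / e * e ≤ N := Nat.div_mul_le_self _ _
    omega
  have hup : ((Icc 1 N).filter p).card ≤ (N / e + 1) * ρ := by
    rw [hIcc, ← hcount 1 (N / e + 1)]
    refine Finset.card_le_card (Finset.filter_subset_filter _ ?_)
    refine Finset.Ico_subset_Ico le_rfl ?_
    have : (N / e + 1) * e = e * (N / e) + e := by ring
    omega
  have heR : (0 : ℝ) < e := by exact_mod_cast he0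
  have hlow' : ((N / e : ℕ) : ℝ) * ρ ≤ (((Icc 1 N).filter p).card : ℝ) := by exact_mod_cast hlow
  have hup' : (((Icc 1 N).filter p).card : ℝ) ≤ (((N / e : ℕ) : ℝ) + 1) * ρ := by exact_mod_cast hup
  have hρ0 : (0 : ℝ) ≤ ρ := Nat.cast_nonneg _
  have hNe1 : ((N / e : ℕ) : ℝ) ≤ (N : ℝ) / e := Nat.cast_div_le
  have hNe2 : (N : ℝ) / e ≤ ((N / e : ℕ) : ℝ) + 1 := by
    rw [div_le_iff₀ heR]
    have : N ≤ (N / e + 1) * e := by
      have : (N / e + 1) * e = e * (N / e) + e := by ring
      omega
    exact_mod_cast this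
  have e1 : (N : ℝ) * ρ / e = (N : ℝ) / e * ρ := by ring
  rw [e1, abs_le]
  constructor <;> nlinarith

theorem count_e (c : CD ι) (N b e : ℕ) (he : e.Coprime (c.Q0 * b)) (he0 : 0 < e) :
    |(((Icc 1 N).filter (fun n => (e : ℤ) ∣ c.vt (c.x b n))).card : ℝ) - N * c.rho e / e| ≤ c.rho e := by
  classical
  have h := count_periodic (fun n => (e : ℤ) ∣ c.vt (c.x b n)) e he0 (fun n => by
    refine vt_congr c ?_
    rw [CD.x, CD.x]
    refine Nat.ModEq.add_left _ (Nat.ModEq.mul_left _ (Nat.ModEq.add_left _ (Nat.ModEq.mul_left _ ?_)))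
    exact Nat.add_modEq_right) N
  rw [count_block c b e he he0] at h
  exact h

/-- multiplicativity -/
theorem rho_mul (c : CD ι) (a b : ℕ) (hab : a.Coprime b) (ha : 0 < a) (hb : 0 < b) :
    c.rho (a * b) ≤ c.rho a * c.rho b := by
  rw [CD.rho, CD.rho, CD.rho, ← Finset.card_product]
  refine Finset.card_le_card_of_injOn (fun y => (y % a, y % b)) ?_ ?_
  · intro y hy
    rw [Finset.mem_coe, mem_filter] at hy
    rw [Finset.mem_coe, Finset.mem_product, mem_filter, mem_filter, mem_range, mem_range]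
    have h1 : (a : ℤ) ∣ c.vt y := (Dvd.intro _ (by push_cast; rfl)).trans hy.2
    have h2 : (b : ℤ) ∣ c.vt y := (Dvd.intro_left _ (by push_cast; rfl)).trans hy.2
    exact ⟨⟨Nat.mod_lt _ ha, (vt_congr c (Nat.mod_modEq _ _)).2 h1⟩,
      ⟨Nat.mod_lt _ hb, (vt_congr c (Nat.mod_modEq _ _)).2 h2⟩⟩
  · intro y hy y' hy' h
    rw [Finset.mem_coe, mem_filter, mem_range] at hy hy'
    have h1 : y ≡ y' [MOD a] := congrArg Prod.fst h
    have h2 : y ≡ y' [MOD b] := congrArg Prod.snd h
    have h3 : y ≡ y' [MOD a * b] := (Nat.modEq_and_modEq_iff_modEq_mul hab).1 ⟨h1, h2⟩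
    exact Nat.ModEq.eq_of_lt_of_lt h3 hy.1 hy'.1

theorem rho_prime {c : CD ι} {D : ℕ} (hc : c.Valid D) (q : ℕ) (hq : q.Prime) (hqQ : ¬ q ∣ c.Q0) :
    c.rho q ≤ D := by
  classical
  have : Fact q.Prime := ⟨hq⟩
  have h := Pool.Agent.Lib.MP_e426f4_ag.TWL.zeros_le q c.Pt (Pt_ne_zero hc hq hqQ) D
    (le_of_eq (hc.sep_deg q hq hqQ))
  refine le_trans (Finset.card_le_card ?_) h
  intro y hy
  rw [mem_filter] at hy ⊢
  refine ⟨hy.1, ?_⟩
  rw [← jacobiSym.legendreSym.to_jacobiSym, legendreSym.eq_zero_iff]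
  exact (ZMod.intCast_zmod_eq_zero_iff_dvd _ _).2 hy.2

theorem rho_one (c : CD ι) : c.rho 1 = 1 := by
  rw [CD.rho]
  simp

theorem rho_le {c : CD ι} {D : ℕ} (hc : c.Valid D) (e : ℕ) (he : Squarefree e) (heQ : e.Coprime c.Q0) :
    c.rho e ≤ D ^ e.primeFactors.card := by
  induction e using Nat.recOnPosPrimePosCoprime with
  | prime_pow p k hp hk =>
    have hk1 : k = 1 := by
      by_contra h
      have h2 : 2 ≤ k := by omega
      have h3 : p * p ∣ p ^ k := by
        rw [← pow_two]; exact pow_dvd_pow p h2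
      exact hp.one_lt.ne' (Nat.isUnit_iff.1 (he p h3))
    subst hk1
    rw [pow_one] at heQ ⊢
    rw [hp.primeFactors, Finset.card_singleton, pow_one]
    exact rho_prime hc p hp ((Nat.Prime.coprime_iff_not_dvd hp).1 heQ)
  | zero => exact absurd he not_squarefree_zero
  | one => rw [rho_one]; simp
  | coprime a b ha hb hab iha ihb =>
    rw [Nat.squarefree_mul hab] at he
    have h1 := iha he.1 (Nat.Coprime.coprime_mul_right heQ)
    have h2 := ihb he.2 (Nat.Coprime.coprime_mul_left heQ)
    rw [hab.primeFactors_mul, Finset.card_union_of_disjoint hab.disjoint_primeFactors, pow_add]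
    exact (rho_mul c a b hab (by omega) (by omega)).trans (Nat.mul_le_mul h1 h2)

/-- `NN` with `T = ∅` -/
theorem NN_empty (c : CD ι) (N b e : ℕ) :
    c.NN N b ∅ e = (Icc 1 N).filter (fun n => (e : ℤ) ∣ c.vt (c.x b n)) := by
  ext n
  simp [CD.NN]

theorem NN_sub (c : CD ι) (N b : ℕ) (T : Finset ℕ) (e : ℕ) :
    c.NN N b T e ⊆ (Icc 1 N).filter (fun n => (e : ℤ) ∣ c.vt (c.x b n)) := by
  intro n hn
  rw [CD.NN, mem_filter] at hn
  rw [mem_filter]
  exact ⟨hn.1, hn.2.2⟩

end TwHP
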