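import Pool.Agent.Lib.MP_e426f4_ag.TWS.Size
import Pool.Agent.Lib.MP_e426f4_ag.TWS.Count

/-!
# TWS.DgA (TWIST, section 4): the divisor bound and the large range of (DG)

`pow_omega_le`: `K^ω(m) ≤ C m^ε`: the primes `q` with `q^ε ≥ K` contribute factors `K ≤ q^ε`; the others number at most
`⌈K^(1/ε)⌉`, so `K^ω(m) ≤ K^(⌈K^(1/ε)⌉) ∏_{q ∣ m} q^ε ≤ C m^ε` (`∏_{q ∣ m} q ≤ m`: `Nat.prod_primeFactors_dvd`).

`dg_large`: `E > N`.  If `#NN(b,T,E) ≠ 0` then `E ∣ vt (x b n)` for some `n ≤ N`, so `E ≤ N^(DD D)` (`size_vt`, `vt_x_ne`).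
`#NN ≤ #{n ≤ N : E ∣ vt} ≤ ρ(E)(N/E + 1) ≤ 2 ρ(E) ≤ 2 D^ω(E) ≤ N^(1/20)` (`count_e`, `rho_le`, `pow_omega_le`), and
`∑_E #NN(b,T,E) ≤ ∑_{n ≤ N} #{E squarefree : E ∣ vt (x b n)} = ∑_n 2^ω(vt) ≤ N · N^(1/20)` (`pow_omega_le` again,
`|vt| ≤ N^(DD D)`; the number of squarefree divisors of `v` is `2^ω(v)`: `Nat.divisors_filter_squarefree`, or inject
`E ↦ E.primeFactors` into the powerset).  So the sum of squares is `≤ N^(1.1) ≤ N^(6/5)`.
-/

set_option autoImplicit false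

namespace TwHP

open Finset Polynomial CD

variable {ι : Type} [Fintype ι] [DecidableEq ι]

theorem pow_omega_le (K : ℕ) (ε : ℝ) (hε : 0 < ε) : ∃ C : ℝ, 1 ≤ C ∧ ∀ m : ℕ, m ≠ 0 →
    (K : ℝ) ^ m.primeFactors.card ≤ C * (m : ℝ) ^ ε := by
  obtain ⟨K', hK'⟩ : ∃ K' : ℝ, K' = max (K : ℝ) 1 := ⟨_, rfl⟩
  have hK1 : 1 ≤ K' := by rw [hK']; exact le_max_right _ _
  have hK2 : (K : ℝ) ≤ K' := by rw [hK']; exact le_max_left _ _
  have hK0 : 0 < K' := by linarith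
  obtain ⟨B, hB⟩ : ∃ B : ℕ, B = ⌈K' ^ (1 / ε)⌉₊ := ⟨_, rfl⟩
  refine ⟨K' ^ (B + 1), one_le_pow₀ hK1, fun m hm => ?_⟩
  have h1 : (K : ℝ) ^ m.primeFactors.card ≤ K' ^ m.primeFactors.card :=
    pow_le_pow_left₀ (by positivity) hK2 _
  refine h1.trans ?_
  have h2 : K' ^ m.primeFactors.card ≤
      ∏ q ∈ m.primeFactors, ((if q ≤ B then K' else 1) * (q : ℝ) ^ ε) := by
    rw [← Finset.prod_const]
    refine Finset.prod_le_prod (fun q _ => hK0.le) fun q hq => ?_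
    have hq1 : (1 : ℝ) ≤ q := by exact_mod_cast (Nat.prime_of_mem_primeFactors hq).one_le
    have hq2 : (1 : ℝ) ≤ (q : ℝ) ^ ε := Real.one_le_rpow hq1 hε.le
    by_cases hqB : q ≤ B
    · rw [if_pos hqB]
      exact le_mul_of_one_le_right hK0.le hq2
    · rw [if_neg hqB, one_mul]
      have h3 : K' ^ (1 / ε) ≤ q := by
        refine (Nat.le_ceil _).trans ?_
        rw [← hB]
        exact_mod_cast (not_le.1 hqB).le
      calc K' = (K' ^ (1 / ε)) ^ ε := by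
            rw [← Real.rpow_mul hK0.le, one_div_mul_cancel hε.ne', Real.rpow_one]
        _ ≤ (q : ℝ) ^ ε := Real.rpow_le_rpow (by positivity) h3 hε.le
  refine h2.trans ?_
  rw [Finset.prod_mul_distrib]
  have h3 : ∏ q ∈ m.primeFactors, (if q ≤ B then K' else 1) ≤ K' ^ (B + 1) := by
    rw [← Finset.prod_filter, Finset.prod_const]
    refine pow_le_pow_right₀ hK1 ?_
    have : (m.primeFactors.filter (· ≤ B)) ⊆ range (B + 1) := by
      intro q hq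
      rw [mem_filter] at hq
      exact mem_range.2 (by omega)
    simpa using Finset.card_le_card this
  have h4 : ∏ q ∈ m.primeFactors, (q : ℝ) ^ ε ≤ (m : ℝ) ^ ε := by
    rw [Real.finsetProd_rpow _ _ (fun q _ => by positivity)]
    refine Real.rpow_le_rpow (Finset.prod_nonneg fun q _ => by positivity) ?_ hε.le
    have h5 := Nat.le_of_dvd (Nat.pos_of_ne_zero hm) (Nat.prod_primeFactors_dvd m)
    have h6 : ((∏ p ∈ m.primeFactors, p : ℕ) : ℝ) ≤ m := by exact_mod_cast h5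
    rwa [Nat.cast_prod] at h6
  exact mul_le_mul h3 h4 (Finset.prod_nonneg fun q _ => by positivity) (by positivity)

/-- `N` is large. -/
private lemma NH_large (D r cb : ℕ) (K : ℝ) : ∃ H0 : ℕ, ∀ H : ℕ, H0 ≤ H →
    K ≤ (NH D r cb H : ℝ) := by
  obtain ⟨H1, h1⟩ := NH_bounds D r cb
  obtain ⟨H2, h2⟩ := log_large (max 1 (2 * K))
  refine ⟨max H1 H2, fun H hH => ?_⟩
  have h3 := (h1 H ((le_max_left _ _).trans hH)).2
  have h4 := h2 H ((le_max_right _ _).trans hH)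
  have h5 : 1 ≤ Real.log H := (le_max_left _ _).trans h4
  have h6 : 2 * K ≤ Real.log H := (le_max_right _ _).trans h4
  have h7 : Real.log H ≤ Real.log H ^ CC D r cb := by
    apply le_self_pow₀ h5
    unfold CC
    omega
  linarith

/-- the divisor bound for numbers `≤ N ^ DD` -/
private lemma pow_omega_N (K D r cb : ℕ) (hD : 1 ≤ D) (A : ℝ) (hA : 1 ≤ A) :
    ∃ H0 : ℕ, ∀ H : ℕ, H0 ≤ H → 1 ≤ NH D r cb H ∧ ∀ m : ℕ, m ≠ 0 →
      (m : ℝ) ≤ (NH D r cb H : ℝ) ^ DD D →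
      A * (K : ℝ) ^ m.primeFactors.card ≤ (NH D r cb H : ℝ) ^ (1 / 20 : ℝ) := by
  have hDD : (0 : ℝ) < DD D := by
    unfold DD
    have : (1 : ℝ) ≤ D := by exact_mod_cast hD
    push_cast
    linarith
  obtain ⟨C, hC1, hC⟩ := pow_omega_le K (1 / (40 * (DD D : ℝ))) (by positivity)
  obtain ⟨H0, hH0⟩ := NH_large D r cb ((A * C) ^ (40 : ℕ))
  refine ⟨H0, fun H hH => ?_⟩
  have hN := hH0 H hH
  have hAC : 1 ≤ A * C := one_le_mul_of_one_le_of_one_le hA hC1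
  have hN1 : (1 : ℝ) ≤ NH D r cb H := (one_le_pow₀ hAC).trans hN
  refine ⟨by exact_mod_cast hN1, fun m hm hmN => ?_⟩
  set N : ℝ := (NH D r cb H : ℝ) with hNdef
  have hN0 : 0 < N := by linarith
  have h1 : A * C ≤ N ^ (1 / 40 : ℝ) := by
    have h2 : ((A * C) ^ (40 : ℕ)) ^ (1 / 40 : ℝ) ≤ N ^ (1 / 40 : ℝ) :=
      Real.rpow_le_rpow (by positivity) hN (by norm_num)
    rwa [← Real.rpow_natCast, ← Real.rpow_mul (by positivity),
      show ((40 : ℕ) : ℝ) * (1 / 40) = 1 by norm_num, Real.rpow_one] at h2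
  have h2 : (m : ℝ) ^ (1 / (40 * (DD D : ℝ))) ≤ N ^ (1 / 40 : ℝ) := by
    calc (m : ℝ) ^ (1 / (40 * (DD D : ℝ))) ≤ (N ^ DD D) ^ (1 / (40 * (DD D : ℝ))) :=
          Real.rpow_le_rpow (by positivity) hmN (by positivity)
      _ = N ^ (1 / 40 : ℝ) := by
          rw [← Real.rpow_natCast, ← Real.rpow_mul hN0.le]
          congr 1
          field_simp
  calc A * (K : ℝ) ^ m.primeFactors.card ≤ A * (C * (m : ℝ) ^ (1 / (40 * (DD D : ℝ)))) :=
        mul_le_mul_of_nonneg_left (hC m hm) (by linarith)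
    _ = (A * C) * (m : ℝ) ^ (1 / (40 * (DD D : ℝ))) := by ring
    _ ≤ N ^ (1 / 40 : ℝ) * N ^ (1 / 40 : ℝ) :=
        mul_le_mul h1 h2 (by positivity) (by positivity)
    _ = N ^ (1 / 20 : ℝ) := by
        rw [← Real.rpow_add hN0]
        norm_num

/-- `2^ω(vt) ≤ N^(1/4)` -/
theorem omega_vt [Nonempty ι] (c : CD ι) {D : ℕ} (hc : c.Valid D) (cb : ℕ) :
    ∃ H0 : ℕ, ∀ H : ℕ, H0 ≤ H → ∀ b : ℕ, 0 < b → (b : ℝ) ≤ Real.log H ^ cb →
      ∀ n ∈ Icc 1 (NH D (Fintype.card ι) cb H),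
        (2 : ℝ) ^ (c.vt (c.x b n)).natAbs.primeFactors.card ≤
          (NH D (Fintype.card ι) cb H : ℝ) ^ (1 / 20 : ℝ) := by
  obtain ⟨H1, h1⟩ := pow_omega_N 2 D (Fintype.card ι) cb (D_pos hc) 1 le_rfl
  obtain ⟨H2, h2⟩ := size_vt c hc cb
  refine ⟨max H1 H2, fun H hH b hb hbL n hn => ?_⟩
  have h3 := h2 H ((le_max_right _ _).trans hH) b hb hbL n hn
  have h4 := (h1 H ((le_max_left _ _).trans hH)).2 (c.vt (c.x b n)).natAbs
    (Int.natAbs_ne_zero.2 (vt_x_ne hc b n)) (by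
      have h5 : (((c.vt (c.x b n)).natAbs : ℕ) : ℝ) = |((c.vt (c.x b n) : ℤ) : ℝ)| := by
        rw [Nat.cast_natAbs, Int.cast_abs]
      rw [h5]
      exact h3)
  simpa using h4

/-- the number of squarefree divisors -/
private lemma card_sqfree_dvd (𝓔 : Finset ℕ) (h𝓔 : ∀ E ∈ 𝓔, Squarefree E) (v : ℕ) (hv : v ≠ 0) :
    (𝓔.filter (· ∣ v)).card ≤ 2 ^ v.primeFactors.card := by
  classical
  rw [← Finset.card_powerset]
  refine Finset.card_le_card_of_injOn Nat.primeFactors ?_ ?_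
  · intro E hE
    have hE' := mem_filter.1 (Finset.mem_coe.1 hE)
    exact Finset.mem_coe.2 (mem_powerset.2 (Nat.primeFactors_mono hE'.2 hv))
  · intro E hE E' hE' h
    have h1 := mem_filter.1 (Finset.mem_coe.1 hE)
    have h2 := mem_filter.1 (Finset.mem_coe.1 hE')
    rw [← Nat.prod_primeFactors_of_squarefree (h𝓔 E h1.1),
      ← Nat.prod_primeFactors_of_squarefree (h𝓔 E' h2.1), h]

theorem dg_large [Nonempty ι] (c : CD ι) {D : ℕ} (hc : c.Valid D) (cb : ℕ) :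
    ∃ H0 : ℕ, ∀ H : ℕ, H0 ≤ H → ∀ b : ℕ, 0 < b → (b : ℝ) ≤ Real.log H ^ cb →
      ∀ T 𝓔 : Finset ℕ, (∀ E ∈ 𝓔, Squarefree E ∧ E.Coprime (c.Q0 * b) ∧
        NH D (Fintype.card ι) cb H < E) →
      ∑ E ∈ 𝓔, ((c.NN (NH D (Fintype.card ι) cb H) b T E).card : ℝ) ^ 2
        ≤ (NH D (Fintype.card ι) cb H : ℝ) ^ (6 / 5 : ℝ) := by
  classical
  obtain ⟨H1, h1⟩ := pow_omega_N D D (Fintype.card ι) cb (D_pos hc) 2 (by norm_num)
  obtain ⟨H2, h2⟩ := size_vt c hc cb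
  obtain ⟨H3, h3⟩ := omega_vt c hc cb
  refine ⟨max H1 (max H2 H3), fun H hH b hb hbL T 𝓔 h𝓔 => ?_⟩
  have hH1 : H1 ≤ H := (le_max_left _ _).trans hH
  have hH2 : H2 ≤ H := ((le_max_left _ _).trans (le_max_right _ _)).trans hH
  have hH3 : H3 ≤ H := ((le_max_right _ _).trans (le_max_right _ _)).trans hH
  obtain ⟨hN1, hom⟩ := h1 H hH1
  have hsz := h2 H hH2 b hb hbL
  have hov := h3 H hH3 b hb hbL
  obtain ⟨N, hN⟩ : ∃ N, N = NH D (Fintype.card ι) cb H := ⟨_, rfl⟩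
  rw [← hN] at hN1 hom hsz hov h𝓔 ⊢
  have hNR : (1 : ℝ) ≤ N := by exact_mod_cast hN1
  have hN0 : (0 : ℝ) < N := by linarith
  -- single terms
  have hterm : ∀ E ∈ 𝓔, ((c.NN N b T E).card : ℝ) ≤ (N : ℝ) ^ (1 / 20 : ℝ) := by
    intro E hE
    obtain ⟨hsq, hcop, hlt⟩ := h𝓔 E hE
    have hE0 : 0 < E := by omega
    rcases Nat.eq_zero_or_pos (c.NN N b T E).card with h0 | h0
    · rw [h0]
      simp only [Nat.cast_zero]
      positivity
    · obtain ⟨n, hn⟩ := Finset.card_pos.1 h0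
      have hn' := mem_filter.1 (NN_sub c N b T E hn)
      have hvt := vt_x_ne hc b n
      have hEle : (E : ℝ) ≤ (N : ℝ) ^ DD D := by
        have h4 : E ≤ (c.vt (c.x b n)).natAbs :=
          Nat.le_of_dvd (Int.natAbs_pos.2 hvt) (Int.natCast_dvd.1 hn'.2)
        have h5 : (((c.vt (c.x b n)).natAbs : ℕ) : ℝ) = |((c.vt (c.x b n) : ℤ) : ℝ)| := by
          rw [Nat.cast_natAbs, Int.cast_abs]
        calc (E : ℝ) ≤ (((c.vt (c.x b n)).natAbs : ℕ) : ℝ) := by exact_mod_cast h4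
          _ ≤ _ := by rw [h5]; exact hsz n hn'.1
      have h6 := hom E hE0.ne' hEle
      have h7 : ((c.NN N b T E).card : ℝ) ≤
          (((Icc 1 N).filter (fun n => (E : ℤ) ∣ c.vt (c.x b n))).card : ℝ) := by
        exact_mod_cast Finset.card_le_card (NN_sub c N b T E)
      have h8 := (abs_le.1 (count_e c N b E hcop hE0)).2
      have h9 : (N : ℝ) * c.rho E / E ≤ c.rho E := by
        rw [div_le_iff₀ (by exact_mod_cast hE0)]
        have : (N : ℝ) ≤ E := by exact_mod_cast hlt.le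
        have h10 : (0 : ℝ) ≤ c.rho E := by positivity
        nlinarith
      have h11 : (c.rho E : ℝ) ≤ (D : ℝ) ^ E.primeFactors.card := by
        exact_mod_cast rho_le hc E hsq (Nat.Coprime.coprime_mul_right_right hcop)
      linarith
  -- sum of the cardinalities
  have hsum : ∑ E ∈ 𝓔, ((c.NN N b T E).card : ℝ) ≤ N * (N : ℝ) ^ (1 / 20 : ℝ) := by
    calc ∑ E ∈ 𝓔, ((c.NN N b T E).card : ℝ)
        ≤ ∑ E ∈ 𝓔, ∑ n ∈ Icc 1 N, (if (E : ℤ) ∣ c.vt (c.x b n) then (1 : ℝ) else 0) := by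
          refine Finset.sum_le_sum fun E hE => ?_
          rw [← Finset.sum_filter, Finset.sum_const, nsmul_eq_mul, mul_one]
          exact_mod_cast Finset.card_le_card (NN_sub c N b T E)
      _ = ∑ n ∈ Icc 1 N, ∑ E ∈ 𝓔, (if (E : ℤ) ∣ c.vt (c.x b n) then (1 : ℝ) else 0) :=
          Finset.sum_comm
      _ ≤ ∑ n ∈ Icc 1 N, (N : ℝ) ^ (1 / 20 : ℝ) := by
          refine Finset.sum_le_sum fun n hn => ?_
          refine le_trans ?_ (hov n hn)
          rw [← Finset.sum_filter, Finset.sum_const, nsmul_eq_mul, mul_one]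
          have h4 : (𝓔.filter (fun E : ℕ => ((E : ℕ) : ℤ) ∣ c.vt (c.x b n))) =
              𝓔.filter (fun E : ℕ => E ∣ (c.vt (c.x b n)).natAbs) := by
            apply Finset.filter_congr
            intro E _
            exact Int.natCast_dvd
          rw [h4]
          exact_mod_cast card_sqfree_dvd 𝓔 (fun E hE => (h𝓔 E hE).1) _
            (Int.natAbs_ne_zero.2 (vt_x_ne hc b n))
      _ = N * (N : ℝ) ^ (1 / 20 : ℝ) := by
          rw [Finset.sum_const, nsmul_eq_mul, Nat.card_Icc, Nat.add_sub_cancel]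
  calc ∑ E ∈ 𝓔, ((c.NN N b T E).card : ℝ) ^ 2
      ≤ ∑ E ∈ 𝓔, (N : ℝ) ^ (1 / 20 : ℝ) * ((c.NN N b T E).card : ℝ) := by
        refine Finset.sum_le_sum fun E hE => ?_
        rw [pow_two]
        exact mul_le_mul_of_nonneg_right (hterm E hE) (by positivity)
    _ = (N : ℝ) ^ (1 / 20 : ℝ) * ∑ E ∈ 𝓔, ((c.NN N b T E).card : ℝ) := by
        rw [Finset.mul_sum]
    _ ≤ (N : ℝ) ^ (1 / 20 : ℝ) * (N * (N : ℝ) ^ (1 / 20 : ℝ)) :=
        mul_le_mul_of_nonneg_left hsum (by positivity)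
    _ = (N : ℝ) ^ (1 / 20 + 1 + 1 / 20 : ℝ) := by
        rw [Real.rpow_add hN0, Real.rpow_add hN0, Real.rpow_one]
        ring
    _ ≤ (N : ℝ) ^ (6 / 5 : ℝ) := by
        apply Real.rpow_le_rpow_of_exponent_le hNR
        norm_num

end TwHP
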