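import Pool.Agent.Lib.MP_e426f4_ag.TWS.It
import Pool.Agent.Lib.MP_e426f4_ag.TWS.DgA
import Pool.Agent.Lib.MP_e426f4_ag.TWL.Sums

/-!
# TWS.DgB (TWIST, section 4): (DG)

`∑_{E ∈ 𝓔} #NN(b,T,E)² ≤ (C2/w) #NN(b,T,1)²` for every finite set `𝓔` of squarefree `E > 1`, coprime to `Q0 b`.

Proof. `L = log H`, `N = NH`, `A = #NN(b,T,1) ≥ (3/4) 2^(-r|T|) N ≥ N L^(-2r)/2` (`it4` with `e = 1`, `rho_one`, `2^|T| ≤ L²`).
(1) `E ≤ L^E0`: `it4`: `#NN(b,T,E) ≤ (5/4) 2^(-r|T|) N ρ(E)/E ≤ (5/3) A ρ(E)/E`; `ρ(E) ≤ D^ω(E)` (`rho_le`);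
`TWL.sum_main` (with `d = D²`; the primes of `E` are `> w` by `gt_of_not_dvd`): `≤ (25/9) A² (exp(D²/w) - 1) ≤ 3 A² (D²/w) exp(D²)`.
(2) `L^E0 < E ≤ N`: `#NN ≤ ρ(E)(N/E + 1) ≤ 2 N D^ω(E)/E` (`count_e`, `NN_sub`); `TWL.sum_tail` with `Y = L^E0`, `d = D²`:
`≤ 4 N² C L^(-E0/2) = 4 C N² L^(-4r-2) ≤ A²/w` for `L` large (`A² ≥ N² L^(-4r)/4`).
(3) `E > N`: `dg_large`: `≤ N^(6/5) ≤ A²/w` (`N = ⌊L^CC⌋`, `CC ≥ 10 r`, so `N^(4/5) ≥ 4 w L^(4r)`).
-/

set_option autoImplicit false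

namespace TwHP

open Finset Polynomial CD

variable {ι : Type} [Fintype ι] [DecidableEq ι]

/-- the constant of (DG) -/
noncomputable def C2c (D : ℕ) : ℝ := 3 * (D : ℝ) ^ 2 * Real.exp ((D : ℝ) ^ 2) + 2

/-- `exp x - 1 ≤ x exp x` -/
private lemma exp_sub_one_le (x : ℝ) : Real.exp x - 1 ≤ x * Real.exp x := by
  have h1 := Real.add_one_le_exp (-x)
  have h2 := Real.exp_pos x
  have h3 : Real.exp (-x) * Real.exp x = 1 := by rw [← Real.exp_add]; simp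
  nlinarith

theorem dg4 [Nonempty ι] (c : CD ι) {D : ℕ} (hc : c.Valid D) (cb : ℕ) :
    ∃ H0 : ℕ, ∀ H : ℕ, H0 ≤ H → ∀ b : ℕ, 0 < b → b.Coprime c.Q0 → (b : ℝ) ≤ Real.log H ^ cb →
      ∀ T : Finset ℕ, (∀ p ∈ T, p.Prime ∧ zH D (Fintype.card ι) H < p ∧ p.Coprime (c.Q0 * b)) →
      (2 : ℝ) ^ T.card ≤ Real.log H ^ 2 →
      (∀ q ∈ T, ¬ c.Bad (Real.log H) (NH D (Fintype.card ι) cb H) b (T.filter (· < q)) q) →
      (∀ 𝓔 : Finset ℕ, (∀ E ∈ 𝓔, Squarefree E ∧ E.Coprime (c.Q0 * b) ∧ 1 < E) →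
        ∑ E ∈ 𝓔, ((c.NN (NH D (Fintype.card ι) cb H) b T E).card : ℝ) ^ 2
          ≤ C2c D / c.w * ((c.NN (NH D (Fintype.card ι) cb H) b T 1).card : ℝ) ^ 2) ∧
      (NH D (Fintype.card ι) cb H : ℝ) ≤
        2 * Real.log H ^ (2 * Fintype.card ι) * (c.NN (NH D (Fintype.card ι) cb H) b T 1).card := by
  classical
  obtain ⟨H1, h1⟩ := it4 c hc cb
  obtain ⟨H2, h2⟩ := NH_bounds D (Fintype.card ι) cb
  obtain ⟨C, hC0, hC⟩ := Pool.Agent.Lib.MP_e426f4_ag.TWL.sum_tail ((D : ℝ) ^ 2) (by positivity)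
  obtain ⟨H3, h3⟩ := log_large (max 2 (max (4 * c.w) (16 * C * c.w)))
  obtain ⟨H4, h4⟩ := dg_large c hc cb
  refine ⟨max (max H1 H2) (max H3 H4), fun H hH b hb hbQ hbL T hT hTL hTB => ?_⟩
  have hH1 : H1 ≤ H := ((le_max_left _ _).trans (le_max_left _ _)).trans hH
  have hH2 : H2 ≤ H := ((le_max_right _ _).trans (le_max_left _ _)).trans hH
  have hH3 : H3 ≤ H := ((le_max_left _ _).trans (le_max_right _ _)).trans hH
  have hH4 : H4 ≤ H := ((le_max_right _ _).trans (le_max_right _ _)).trans hH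
  have hit := h1 H hH1 b hb hbQ hbL T hT hTL hTB
  have hNb := (h2 H hH2).2
  have hlog := h3 H hH3
  have hlarge := h4 H hH4 b hb hbL T
  clear h1 h2 h3 h4 hH1 hH2 hH3 hH4 hH hbL hT hTB
  have hL2 : 2 ≤ Real.log H := (le_max_left _ _).trans hlog
  have hLw : 4 * (c.w : ℝ) ≤ Real.log H :=
    ((le_max_left _ _).trans (le_max_right _ _)).trans hlog
  have hLC : 16 * C * (c.w : ℝ) ≤ Real.log H :=
    ((le_max_right _ _).trans (le_max_right _ _)).trans hlog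
  generalize Real.log H = L at *
  obtain ⟨N, hN⟩ : ∃ N, N = NH D (Fintype.card ι) cb H := ⟨_, rfl⟩
  rw [← hN] at hit hNb hlarge ⊢
  obtain ⟨r, hr⟩ : ∃ r, r = Fintype.card ι := ⟨_, rfl⟩
  rw [← hr] at hit hNb ⊢
  have hL0 : 0 < L := by linarith
  have hw0 : (0 : ℝ) < c.w := by
    have := w_big hc
    have : 0 < c.w := by omega
    exact_mod_cast this
  have hw1 : 1 ≤ c.w := by have := w_big hc; omega
  -- theta
  obtain ⟨θ, hθ⟩ : ∃ θ : ℝ, θ = (1 / 2) ^ (r * T.card) := ⟨_, rfl⟩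
  rw [← hθ] at hit
  have hθ0 : 0 < θ := by rw [hθ]; positivity
  have hθL : 1 ≤ θ * L ^ (2 * r) := by
    have h5 : ((2 : ℝ) ^ T.card) ^ r ≤ (L ^ 2) ^ r := pow_le_pow_left₀ (by positivity) hTL r
    have h6 : θ * ((2 : ℝ) ^ T.card) ^ r = 1 := by
      rw [hθ, ← pow_mul, mul_comm r, ← mul_pow]
      norm_num
    calc 1 = θ * ((2 : ℝ) ^ T.card) ^ r := h6.symm
      _ ≤ θ * (L ^ 2) ^ r := mul_le_mul_of_nonneg_left h5 hθ0.le
      _ = θ * L ^ (2 * r) := by rw [pow_mul]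
  -- the main count
  obtain ⟨A, hA⟩ : ∃ A : ℝ, A = ((c.NN N b T 1).card : ℝ) := ⟨_, rfl⟩
  rw [← hA]
  have hA0 : 0 ≤ A := by rw [hA]; positivity
  have hA1 : 3 / 4 * (θ * N) ≤ A := by
    have h5 := hit 1 squarefree_one (Nat.coprime_one_left _) (by
      rw [Nat.cast_one]
      exact one_le_pow₀ (by linarith))
    rw [rho_one, ← hA] at h5
    have h6 := (abs_le.1 h5).1
    simp only [Nat.cast_one, mul_one, div_one] at h6
    linarith
  have hNA : (N : ℝ) ≤ 2 * L ^ (2 * r) * A := by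
    have hN0 : (0 : ℝ) ≤ N := by positivity
    calc (N : ℝ) = 1 * N := by ring
      _ ≤ (θ * L ^ (2 * r)) * N := mul_le_mul_of_nonneg_right hθL hN0
      _ = L ^ (2 * r) * (θ * N) := by ring
      _ ≤ L ^ (2 * r) * (4 / 3 * A) := by
          refine mul_le_mul_of_nonneg_left ?_ (by positivity)
          linarith
      _ ≤ 2 * L ^ (2 * r) * A := by
          have : 0 ≤ L ^ (2 * r) * A := by positivity
          linarith
  refine ⟨fun 𝓔 h𝓔 => ?_, hNA⟩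
  have hN2 : (N : ℝ) ^ 2 ≤ 4 * L ^ (4 * r) * A ^ 2 := by
    calc (N : ℝ) ^ 2 ≤ (2 * L ^ (2 * r) * A) ^ 2 :=
          pow_le_pow_left₀ (by positivity) hNA 2
      _ = 4 * L ^ (4 * r) * A ^ 2 := by
          rw [mul_pow, mul_pow, ← pow_mul, show 2 * r * 2 = 4 * r by ring]
          norm_num
  have hD2 : ∀ E : ℕ, ((D : ℝ) ^ E.primeFactors.card / E) ^ 2
      = ((D : ℝ) ^ 2) ^ E.primeFactors.card / (E : ℝ) ^ 2 := by
    intro E
    rw [div_pow, ← pow_mul, ← pow_mul, mul_comm 2]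
  have hrho : ∀ E ∈ 𝓔, (c.rho E : ℝ) ≤ (D : ℝ) ^ E.primeFactors.card := fun E hE => by
    exact_mod_cast rho_le hc E (h𝓔 E hE).1 (Nat.Coprime.coprime_mul_right_right (h𝓔 E hE).2.1)
  -- range 1
  have hS1 : ∑ E ∈ 𝓔.filter (fun E : ℕ => (E : ℝ) ≤ L ^ E0 r), ((c.NN N b T E).card : ℝ) ^ 2
      ≤ 3 * (D : ℝ) ^ 2 * Real.exp ((D : ℝ) ^ 2) / c.w * A ^ 2 := by
    have h5 : ∀ E ∈ 𝓔.filter (fun E : ℕ => (E : ℝ) ≤ L ^ E0 r), ((c.NN N b T E).card : ℝ) ^ 2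
        ≤ 25 / 9 * A ^ 2 * (((D : ℝ) ^ 2) ^ E.primeFactors.card / (E : ℝ) ^ 2) := by
      intro E hE
      obtain ⟨hE1, hE2⟩ := mem_filter.1 hE
      obtain ⟨hsq, hcop, hgt⟩ := h𝓔 E hE1
      have hE0 : (0 : ℝ) < E := by
        have : 0 < E := by omega
        exact_mod_cast this
      have h6 := (abs_le.1 (hit E hsq hcop hE2)).2
      have h7 : ((c.NN N b T E).card : ℝ) ≤ 5 / 3 * A * ((D : ℝ) ^ E.primeFactors.card / E) := by
        calc ((c.NN N b T E).card : ℝ) ≤ 5 / 4 * (θ * (N * c.rho E / E)) := by linarith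
          _ = 5 / 4 * (θ * N) * (c.rho E / E) := by ring
          _ ≤ 5 / 4 * (4 / 3 * A) * ((D : ℝ) ^ E.primeFactors.card / E) := by
              refine mul_le_mul ?_ ?_ (by positivity) (by positivity)
              · linarith
              · exact div_le_div_of_nonneg_right (hrho E hE1) hE0.le
          _ = _ := by ring
      calc ((c.NN N b T E).card : ℝ) ^ 2
          ≤ (5 / 3 * A * ((D : ℝ) ^ E.primeFactors.card / E)) ^ 2 :=
            pow_le_pow_left₀ (by positivity) h7 2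
        _ = 25 / 9 * A ^ 2 * (((D : ℝ) ^ 2) ^ E.primeFactors.card / (E : ℝ) ^ 2) := by
            rw [← hD2, mul_pow, mul_pow]
            norm_num
    refine (Finset.sum_le_sum h5).trans ?_
    rw [← Finset.mul_sum]
    have h6 := Pool.Agent.Lib.MP_e426f4_ag.TWL.sum_main
      (𝓔.filter (fun E : ℕ => (E : ℝ) ≤ L ^ E0 r)) c.w hw1 (by
        intro E hE
        obtain ⟨hE1, -⟩ := mem_filter.1 hE
        obtain ⟨hsq, hcop, -⟩ := h𝓔 E hE1
        refine ⟨hsq, fun q hq => ?_⟩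
        refine gt_of_not_dvd hc (Nat.prime_of_mem_primeFactors hq) fun hqQ => ?_
        have h7 : q ∣ Nat.gcd E (c.Q0 * b) :=
          Nat.dvd_gcd (Nat.dvd_of_mem_primeFactors hq) (hqQ.trans (Nat.dvd_mul_right _ _))
        rw [hcop] at h7
        exact (Nat.prime_of_mem_primeFactors hq).one_lt.ne' (Nat.dvd_one.1 h7))
      (fun h => by
        have := (h𝓔 1 (mem_filter.1 h).1).2.2
        omega) ((D : ℝ) ^ 2) (by positivity)
    have h7 : Real.exp ((D : ℝ) ^ 2 / c.w) - 1 ≤ (D : ℝ) ^ 2 / c.w * Real.exp ((D : ℝ) ^ 2) := by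
      refine (exp_sub_one_le _).trans ?_
      refine mul_le_mul_of_nonneg_left (Real.exp_le_exp.2 ?_) (by positivity)
      rw [div_le_iff₀ hw0]
      have : (1 : ℝ) ≤ c.w := by exact_mod_cast hw1
      have h8 : (0 : ℝ) ≤ (D : ℝ) ^ 2 := by positivity
      nlinarith
    calc 25 / 9 * A ^ 2 * ∑ E ∈ 𝓔.filter (fun E : ℕ => (E : ℝ) ≤ L ^ E0 r),
          (((D : ℝ) ^ 2) ^ E.primeFactors.card / (E : ℝ) ^ 2)
        ≤ 25 / 9 * A ^ 2 * ((D : ℝ) ^ 2 / c.w * Real.exp ((D : ℝ) ^ 2)) :=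
          mul_le_mul_of_nonneg_left (h6.trans h7) (by positivity)
      _ ≤ 3 * A ^ 2 * ((D : ℝ) ^ 2 / c.w * Real.exp ((D : ℝ) ^ 2)) := by
          refine mul_le_mul_of_nonneg_right ?_ (by positivity)
          have : 0 ≤ A ^ 2 := by positivity
          linarith
      _ = 3 * (D : ℝ) ^ 2 * Real.exp ((D : ℝ) ^ 2) / c.w * A ^ 2 := by ring
  -- range 2
  have hS2 : ∑ E ∈ (𝓔.filter (fun E : ℕ => ¬ (E : ℝ) ≤ L ^ E0 r)).filter (fun E : ℕ => E ≤ N),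
      ((c.NN N b T E).card : ℝ) ^ 2 ≤ A ^ 2 / c.w := by
    have h5 : ∀ E ∈ (𝓔.filter (fun E : ℕ => ¬ (E : ℝ) ≤ L ^ E0 r)).filter (fun E : ℕ => E ≤ N),
        ((c.NN N b T E).card : ℝ) ^ 2
        ≤ 4 * (N : ℝ) ^ 2 * (((D : ℝ) ^ 2) ^ E.primeFactors.card / (E : ℝ) ^ 2) := by
      intro E hE
      obtain ⟨hE1', hEN⟩ := mem_filter.1 hE
      obtain ⟨hE1, hE2⟩ := mem_filter.1 hE1'
      obtain ⟨hsq, hcop, hgt⟩ := h𝓔 E hE1
      have hE0' : 0 < E := by omega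
      have hE0 : (0 : ℝ) < E := by exact_mod_cast hE0'
      have h6 := (abs_le.1 (count_e c N b E hcop hE0')).2
      have h7 : ((c.NN N b T E).card : ℝ) ≤
          (((Icc 1 N).filter (fun n => (E : ℤ) ∣ c.vt (c.x b n))).card : ℝ) := by
        exact_mod_cast Finset.card_le_card (NN_sub c N b T E)
      have h8 : (c.rho E : ℝ) ≤ N * c.rho E / E := by
        rw [le_div_iff₀ hE0]
        have : (E : ℝ) ≤ N := by exact_mod_cast hEN
        have h9 : (0 : ℝ) ≤ c.rho E := by positivity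
        nlinarith
      have h9 : ((c.NN N b T E).card : ℝ) ≤ 2 * N * ((D : ℝ) ^ E.primeFactors.card / E) := by
        calc ((c.NN N b T E).card : ℝ) ≤ 2 * (N * c.rho E / E) := by linarith
          _ = 2 * N * (c.rho E / E) := by ring
          _ ≤ 2 * N * ((D : ℝ) ^ E.primeFactors.card / E) := by
              refine mul_le_mul_of_nonneg_left ?_ (by positivity)
              exact div_le_div_of_nonneg_right (hrho E hE1) hE0.le
      calc ((c.NN N b T E).card : ℝ) ^ 2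
          ≤ (2 * N * ((D : ℝ) ^ E.primeFactors.card / E)) ^ 2 :=
            pow_le_pow_left₀ (by positivity) h9 2
        _ = 4 * (N : ℝ) ^ 2 * (((D : ℝ) ^ 2) ^ E.primeFactors.card / (E : ℝ) ^ 2) := by
            rw [← hD2, mul_pow, mul_pow]
            norm_num
    refine (Finset.sum_le_sum h5).trans ?_
    rw [← Finset.mul_sum]
    have h6 := hC ((𝓔.filter (fun E : ℕ => ¬ (E : ℝ) ≤ L ^ E0 r)).filter (fun E : ℕ => E ≤ N))
      (L ^ E0 r) (by positivity) (by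
        intro E hE
        obtain ⟨hE1', hEN⟩ := mem_filter.1 hE
        obtain ⟨hE1, hE2⟩ := mem_filter.1 hE1'
        exact ⟨(h𝓔 E hE1).1, (not_le.1 hE2).le⟩)
    have h7 : √(L ^ E0 r) = L ^ (4 * r + 2) := by
      rw [show E0 r = (4 * r + 2) * 2 by unfold E0; ring, pow_mul, Real.sqrt_sq (by positivity)]
    rw [h7] at h6
    calc 4 * (N : ℝ) ^ 2 * ∑ E ∈ (𝓔.filter (fun E : ℕ => ¬ (E : ℝ) ≤ L ^ E0 r)).filter
            (fun E : ℕ => E ≤ N), (((D : ℝ) ^ 2) ^ E.primeFactors.card / (E : ℝ) ^ 2)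
        ≤ 4 * (N : ℝ) ^ 2 * (C * (L ^ (4 * r + 2))⁻¹) :=
          mul_le_mul_of_nonneg_left h6 (by positivity)
      _ ≤ 4 * (4 * L ^ (4 * r) * A ^ 2) * (C * (L ^ (4 * r + 2))⁻¹) := by
          refine mul_le_mul_of_nonneg_right ?_ (by positivity)
          linarith
      _ = 16 * C * A ^ 2 / L ^ 2 := by
          rw [pow_add]
          field_simp
          ring
      _ ≤ A ^ 2 / c.w := by
          rw [div_le_div_iff₀ (by positivity) hw0]
          have h8 : 16 * C * c.w ≤ L ^ 2 := by nlinarith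
          have h9 : 0 ≤ A ^ 2 := by positivity
          nlinarith
  -- range 3
  have hS3 : ∑ E ∈ (𝓔.filter (fun E : ℕ => ¬ (E : ℝ) ≤ L ^ E0 r)).filter (fun E : ℕ => ¬ E ≤ N),
      ((c.NN N b T E).card : ℝ) ^ 2 ≤ A ^ 2 / c.w := by
    have h5 := hlarge ((𝓔.filter (fun E : ℕ => ¬ (E : ℝ) ≤ L ^ E0 r)).filter
      (fun E : ℕ => ¬ E ≤ N)) (by
        intro E hE
        obtain ⟨hE1', hEN⟩ := mem_filter.1 hE
        obtain ⟨hE1, hE2⟩ := mem_filter.1 hE1'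
        exact ⟨(h𝓔 E hE1).1, (h𝓔 E hE1).2.1, not_le.1 hEN⟩)
    refine h5.trans ?_
    have hN5 : L ^ (5 * r + 5) ≤ N := by
      have h6 : L ^ (5 * r + 6) ≤ L ^ CC D r cb := by
        refine pow_le_pow_right₀ (by linarith) ?_
        unfold CC cz E1
        omega
      have h7 : 2 * L ^ (5 * r + 5) ≤ L ^ (5 * r + 6) := by
        rw [show 5 * r + 6 = (5 * r + 5) + 1 by ring, pow_succ L (5 * r + 5)]
        have : 0 ≤ L ^ (5 * r + 5) := by positivity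
        nlinarith
      linarith
    have hN0 : (0 : ℝ) < N := lt_of_lt_of_le (by positivity) hN5
    obtain ⟨M, hM⟩ : ∃ M : ℝ, M = (N : ℝ) ^ (1 / 5 : ℝ) := ⟨_, rfl⟩
    have hM0 : 0 < M := by rw [hM]; positivity
    have hM5 : M ^ 5 = N := by
      rw [hM, ← Real.rpow_natCast, ← Real.rpow_mul hN0.le]
      norm_num
    have hM6 : (N : ℝ) ^ (6 / 5 : ℝ) = M ^ 6 := by
      rw [hM, ← Real.rpow_natCast, ← Real.rpow_mul hN0.le]
      norm_num
    have hML : L ^ (r + 1) ≤ M := by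
      have h6 : (L ^ (r + 1)) ^ 5 ≤ M ^ 5 := by
        rw [hM5, ← pow_mul, show (r + 1) * 5 = 5 * r + 5 by ring]
        exact hN5
      exact le_of_pow_le_pow_left₀ (by norm_num) hM0.le h6
    have hM4 : 4 * c.w * L ^ (4 * r) ≤ M ^ 4 := by
      calc 4 * c.w * L ^ (4 * r) ≤ L ^ 4 * L ^ (4 * r) := by
            refine mul_le_mul_of_nonneg_right ?_ (by positivity)
            have : L ≤ L ^ 4 := le_self_pow₀ (by linarith) (by norm_num)
            linarith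
        _ = (L ^ (r + 1)) ^ 4 := by
            rw [← pow_mul, ← pow_add]
            congr 1
            ring
        _ ≤ M ^ 4 := pow_le_pow_left₀ (by positivity) hML 4
    rw [hM6, le_div_iff₀ hw0]
    have h6 : M ^ 10 ≤ 4 * L ^ (4 * r) * A ^ 2 := by
      calc M ^ 10 = (M ^ 5) ^ 2 := by ring
        _ = (N : ℝ) ^ 2 := by rw [hM5]
        _ ≤ _ := hN2
    have h7 : (4 * L ^ (4 * r)) * (M ^ 6 * c.w) ≤ (4 * L ^ (4 * r)) * A ^ 2 := by
      calc (4 * L ^ (4 * r)) * (M ^ 6 * c.w) = M ^ 6 * (4 * c.w * L ^ (4 * r)) := by ring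
        _ ≤ M ^ 6 * M ^ 4 := mul_le_mul_of_nonneg_left hM4 (by positivity)
        _ = M ^ 10 := by ring
        _ ≤ _ := h6
    exact le_of_mul_le_mul_left h7 (by positivity)
  -- together
  have hsplit : ∑ E ∈ 𝓔, ((c.NN N b T E).card : ℝ) ^ 2
      = ∑ E ∈ 𝓔.filter (fun E : ℕ => (E : ℝ) ≤ L ^ E0 r), ((c.NN N b T E).card : ℝ) ^ 2 +
        (∑ E ∈ (𝓔.filter (fun E : ℕ => ¬ (E : ℝ) ≤ L ^ E0 r)).filter (fun E : ℕ => E ≤ N),
          ((c.NN N b T E).card : ℝ) ^ 2 +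
        ∑ E ∈ (𝓔.filter (fun E : ℕ => ¬ (E : ℝ) ≤ L ^ E0 r)).filter (fun E : ℕ => ¬ E ≤ N),
          ((c.NN N b T E).card : ℝ) ^ 2) := by
    rw [Finset.sum_filter_add_sum_filter_not
      (𝓔.filter (fun E : ℕ => ¬ (E : ℝ) ≤ L ^ E0 r)) (fun E : ℕ => E ≤ N),
      Finset.sum_filter_add_sum_filter_not 𝓔 (fun E : ℕ => (E : ℝ) ≤ L ^ E0 r)]
  rw [hsplit]
  have hfin : C2c D / c.w * A ^ 2
      = 3 * (D : ℝ) ^ 2 * Real.exp ((D : ℝ) ^ 2) / c.w * A ^ 2 + (A ^ 2 / c.w + A ^ 2 / c.w) := by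
    unfold C2c
    ring
  rw [hfin]
  linarith

end TwHP
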