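import Pool.Agent.Lib.MP_e426f4_ag.TWS.FsB

/-!
# TWS.FinalPrime: the case of prime twists (`m = 1`)
-/

set_option autoImplicit false
set_option linter.unusedSectionVars false

namespace TwHP

open Finset Polynomial CD Pool.Agent.Lib.MP_e426f4_ag.TWL

open Classical in
/-- twists by primes -/
theorem final_prime (D : ℕ) : ∃ C3 : ℝ, 0 < C3 ∧ ∀ (ι : Type) [Fintype ι] [DecidableEq ι]
    [Nonempty ι] (c : CD ι), c.Valid D → ∃ P0 : ℕ, ∀ P : ℕ, P0 ≤ P →
      (((Ioc P (2 * P)).filter fun p : ℕ => p.Prime ∧ p ≡ c.u [MOD W8 c.w] ∧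
        ¬ c.HasPt (c.al * (p : ℤ))).card : ℝ) ≤
      C3 / c.w * (P / (Nat.totient (W8 c.w) * Real.log P)) := by
  refine ⟨C3c D, by rw [C3c, C2c]; positivity, ?_⟩
  intro ι _ _ _ c hc
  obtain ⟨H0, hH0⟩ := fs4 c hc 0 1 one_pos
  obtain ⟨H1, hH1⟩ := log_large 1
  refine ⟨max (max H0 H1) 1, fun P hP => ?_⟩
  have hP0 : H0 ≤ P := (le_max_left _ _).trans ((le_max_left _ _).trans hP)
  have hP1 : H1 ≤ P := (le_max_right _ _).trans ((le_max_left _ _).trans hP)
  have hP2 : 1 ≤ P := (le_max_right _ _).trans hP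
  have hL := hH1 P hP1
  have hPR : (1 : ℝ) ≤ P := by exact_mod_cast hP2
  have hTT : TT (zH D (Fintype.card ι) P) 1 = ∅ := by
    rw [TT]; simp
  have hbb : bb (zH D (Fintype.card ι) P) 1 = 1 := by
    rw [bb]; simp
  have key := hH0 P hP0 1 le_rfl hP2 (Nat.coprime_one_left _)
    (by rw [hbb]; simp) (by simpa using one_le_pow₀ (n := 2) hL)
    (by intro q hq; rw [hTT] at hq; exact absurd hq (notMem_empty _))
    P c.u (by rw [Real.rpow_one]; linarith) le_rfl (by rw [one_mul])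
  refine le_trans ?_ key
  have : ((Ioc P (2 * P)).filter fun p : ℕ => p.Prime ∧ p ≡ c.u [MOD W8 c.w] ∧
        ¬ c.HasPt (c.al * (p : ℤ))).card ≤
      ((prm P (W8 c.w) c.u).filter (fun p => ¬ p ∣ 1 ∧
            ¬ c.HasPt (c.al * ((1 * p : ℕ) : ℤ)))).card := by
    refine Finset.card_le_card fun p hp => ?_
    rw [mem_filter] at hp
    rw [mem_filter, prm, mem_filter]
    refine ⟨⟨hp.1, hp.2.1, hp.2.2.1⟩, ?_, ?_⟩
    · intro h; exact hp.2.1.one_lt.ne' (Nat.dvd_one.1 h)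
    · rw [one_mul]; exact hp.2.2.2
  exact_mod_cast this

end TwHP
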