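import Pool.Agent.Lib.MP_e426f4_ag.TWS.FsA
import Pool.Agent.Lib.MP_e426f4_ag.TWS.DgB
import Pool.Agent.Lib.MP_e426f4_ag.TWL.SWJ

/-!
# TWS.FsB (TWIST, section 4): (FS), the final step

`m` fixed (coprime to `Q0`, chain-good, anatomy), `P ≥ H^δ/2`: the number of primes `p ∈ (P, 2P]`, `p ≡ v mod W8 w`, `p ∤ m`, for which
`HasPt` fails is `≤ (C3/w) P/(φ(W8 w) log P)`.

Proof. `L = log H`, `z = zH`, `N = NH`, `b = bb z m`, `T = TT z m`, `Pr = (prm P (W8 w) v).filter (¬ · ∣ m)`; `fsA` with `V = ⌊L^CC⌋^(DD D)` (`size_vt`);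
`p ∤ vt x` as `0 < |vt x| ≤ N^(DD D) < H^δ/2 ≤ P < p`; `w < p`.
`R = P/(log P)^a + L²`, `a = 4 r + CC + 3`: `swj` (`E E'` is odd, not a square as `E ≠ E'` are squarefree, coprime to `W8 w` since its primes are
`> w`, and `≤ N^(2 DD D) ≤ L^(2 CC DD D) ≤ (log P)^B`, `B = 2 CC DD D + 1`, as `log P ≥ (δ/2) L`), plus the primes dividing `m`: at most
`2^ω(m) ≤ L²`.  `G = (C2/w) A²` (`dg4`), `A = #NN(b,T,1)`, `|Pr| ≤ 2P/(φ log P)` (`prm_card_le`), `∑_n 2^ω(vt) ≤ N · N^(1/20) ≤ N^(3/2)`... :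
`(∑_n ..)² ≤ N³`, `N ≤ 2 L^(2r) A`:
`#bad ≤ (C2/w) 2P/(φ log P) + 4 L^(4r) N R ≤ (2 C2 + 1)/w · P/(φ log P)` for `H` large.
-/

set_option autoImplicit false

namespace TwHP

open Finset Polynomial CD Pool.Agent.Lib.MP_e426f4_ag.TWL

variable {ι : Type} [Fintype ι] [DecidableEq ι]

/-- the constant of (FS) -/
noncomputable def C3c (D : ℕ) : ℝ := 2 * C2c D + 1

private theorem fsB_sqf_prod (S : Finset ℕ) (hS : ∀ q ∈ S, q.Prime) : Squarefree (∏ q ∈ S, q) := by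
  classical
  induction S using Finset.induction_on with
  | empty => simp
  | insert a s ha ih =>
    rw [Finset.prod_insert ha]
    have h1 : ∀ q ∈ s, q.Prime := fun q hq => hS q (Finset.mem_insert_of_mem hq)
    have h2 : a.Prime := hS a (Finset.mem_insert_self a s)
    have h3 : Nat.Coprime a (∏ q ∈ s, q) := by
      refine Nat.Coprime.prod_right fun q hq => ?_
      exact (Nat.coprime_primes h2 (h1 q hq)).2 (fun h => ha (h ▸ hq))
    exact (Nat.squarefree_mul h3).2 ⟨h2.prime.squarefree, ih h1⟩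

theorem bb_squarefree (z a : ℕ) : Squarefree (bb z a) :=
  fsB_sqf_prod _ fun _ hq => Nat.prime_of_mem_primeFactors (Finset.mem_filter.1 hq).1

theorem bb_dvd (z a : ℕ) : bb z a ∣ a :=
  (Finset.prod_dvd_prod_of_subset _ _ _ (Finset.filter_subset _ _)).trans
    (Nat.prod_primeFactors_dvd a)

theorem mem_bb_or (z m q : ℕ) (hq : q ∈ m.primeFactors) : q ∣ bb z m ∨ q ∈ TT z m := by
  rcases Nat.lt_or_ge z q with h | h
  · exact Or.inr (Finset.mem_filter.2 ⟨hq, h⟩)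
  · exact Or.inl (Finset.dvd_prod_of_mem (fun q => q) (Finset.mem_filter.2 ⟨hq, h⟩))

theorem TT_coprime_bb (z m q : ℕ) (hq : q ∈ TT z m) : q.Coprime (bb z m) := by
  obtain ⟨h1, h2⟩ := Finset.mem_filter.1 hq
  refine Nat.Coprime.prod_right fun p hp => ?_
  obtain ⟨h3, h4⟩ := Finset.mem_filter.1 hp
  refine (Nat.coprime_primes (Nat.prime_of_mem_primeFactors h1)
    (Nat.prime_of_mem_primeFactors h3)).2 ?_
  omega

private theorem fsB_grow (δ : ℝ) (hδ : 0 < δ) (K : ℝ) (k : ℕ) :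
    ∃ H0 : ℕ, ∀ H : ℕ, H0 ≤ H → K * Real.log H ^ k ≤ (H : ℝ) ^ δ / 2 := by
  have h1 := (isLittleO_log_rpow_rpow_atTop (k : ℝ) hδ).def
    (show (0 : ℝ) < 1 / (2 * (|K| + 1)) by positivity)
  have h2 := tendsto_natCast_atTop_atTop.eventually h1
  obtain ⟨H0, hH0⟩ := Filter.eventually_atTop.1 h2
  refine ⟨max H0 1, fun H hH => ?_⟩
  have h3 := hH0 H ((le_max_left _ _).trans hH)
  have hH1 : (1 : ℝ) ≤ H := by exact_mod_cast (le_max_right _ _).trans hH
  have hL0 : 0 ≤ Real.log H := Real.log_nonneg hH1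
  rw [Real.norm_eq_abs, Real.norm_eq_abs, Real.rpow_natCast,
    abs_of_nonneg (show 0 ≤ Real.log (H : ℝ) ^ k by positivity),
    abs_of_nonneg (show 0 ≤ (H : ℝ) ^ δ by positivity)] at h3
  have hK : 0 ≤ |K| := abs_nonneg K
  have h4 : |K| * Real.log H ^ k ≤ |K| * (1 / (2 * (|K| + 1)) * (H : ℝ) ^ δ) :=
    mul_le_mul_of_nonneg_left h3 hK
  have h5 : K * Real.log H ^ k ≤ |K| * Real.log H ^ k :=
    mul_le_mul_of_nonneg_right (le_abs_self K) (by positivity)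
  refine h5.trans (h4.trans ?_)
  have h6 : |K| * (1 / (2 * (|K| + 1)) * (H : ℝ) ^ δ) = (|K| / (|K| + 1)) * ((H : ℝ) ^ δ / 2) := by
    field_simp
  rw [h6]
  have h7 : |K| / (|K| + 1) ≤ 1 := by
    rw [div_le_one (by linarith)]
    linarith
  have h8 : 0 ≤ (H : ℝ) ^ δ / 2 := by positivity
  nlinarith

private theorem fsB_cop {c : CD ι} {D : ℕ} (hc : c.Valid D) {E : ℕ} (hE : E.Coprime c.Q0) :
    Odd E ∧ E.Coprime (W8 c.w) := by
  have hw := w_big hc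
  have h2 : E.Coprime 2 := hE.coprime_dvd_right (hc.small_dvd 2 Nat.prime_two (by omega))
  refine ⟨Nat.coprime_two_right.1 h2, ?_⟩
  unfold W8
  refine Nat.Coprime.mul_right ?_ ?_
  · have : (8 : ℕ) = 2 ^ 3 := by norm_num
    rw [this]
    exact h2.pow_right 3
  · refine Nat.Coprime.prod_right fun p hp => ?_
    obtain ⟨h3, h4⟩ := Finset.mem_filter.1 hp
    exact hE.coprime_dvd_right (hc.small_dvd p h4 (Finset.mem_Icc.1 h3).2)

private theorem fsB_half {E E' : ℕ} (hE : Squarefree E) {s : ℕ} (hs : E * E' = s * s) {p : ℕ}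
    (hp : p.Prime) (h : p ∣ E) : p ∣ E' := by
  by_contra h1
  have h2 : p ∣ s * s := hs ▸ h.mul_right E'
  have h3 : p ∣ s := by
    rcases (Nat.Prime.dvd_mul hp).1 h2 with h | h <;> exact h
  have h4 : p * p ∣ E * E' := hs ▸ Nat.mul_dvd_mul h3 h3
  have h5 : Nat.Coprime (p * p) E' := by
    have := (Nat.Prime.coprime_iff_not_dvd hp).2 h1
    exact Nat.Coprime.mul_left this this
  have h6 : p * p ∣ E := h5.dvd_of_dvd_mul_right h4
  exact hp.one_lt.ne' (Nat.isUnit_iff.1 (hE p h6))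

private theorem fsB_nsq {E E' : ℕ} (hE : Squarefree E) (hE' : Squarefree E') (hne : E ≠ E') :
    ¬ IsSquare (E * E') := by
  rintro ⟨s, hs⟩
  apply hne
  rw [Nat.Squarefree.ext_iff hE hE']
  intro p hp
  exact ⟨fsB_half hE hs hp, fsB_half hE' (by rw [mul_comm, hs]) hp⟩

private theorem fsB_W8_pos (w : ℕ) : 1 ≤ W8 w := by
  unfold W8
  refine Nat.mul_pos (by norm_num) (Finset.prod_pos fun p hp => ?_)
  exact (Finset.mem_filter.1 hp).2.pos

/-- the numerical conditions for `H` large -/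
private theorem fsB_num (δ : ℝ) (hδ : 0 < δ) (D r cb w : ℕ) (hw : 1 ≤ w) (P0 : ℕ) :
    ∃ H0 : ℕ, ∀ H : ℕ, H0 ≤ H → 1 ≤ Real.log H ∧ 1 ≤ NH D r cb H ∧
      ∀ P : ℕ, (H : ℝ) ^ δ / 2 ≤ P → P ≤ H →
        P0 ≤ P ∧ w ≤ P ∧ (NH D r cb H) ^ DD D < P ∧ 0 < Real.log P ∧
        ((NH D r cb H : ℝ) ^ DD D) ^ 2 ≤ Real.log P ^ (2 * (CC D r cb * DD D) + 1) ∧
        (NH D r cb H : ℝ) * (P / Real.log P ^ (CC D r cb + 2) + Real.log H ^ 2) ≤
          1 / w * (P / (Nat.totient (W8 w) * Real.log P)) := by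
  obtain ⟨H1, h1⟩ := NH_bounds D r cb
  set C : ℕ := CC D r cb with hC
  set φ : ℕ := Nat.totient (W8 w) with hφ
  have hφ0 : 0 < φ := Nat.totient_pos.2 (fsB_W8_pos w)
  have hφr : (0 : ℝ) < φ := by exact_mod_cast hφ0
  have hwr : (0 : ℝ) < w := by exact_mod_cast hw
  set K1 : ℝ := (2 / δ) ^ C with hK1
  set K2 : ℝ := (2 / δ) ^ (2 * (C * DD D)) with hK2
  obtain ⟨H2, h2⟩ := log_large (max (2 / δ) (2 / δ * max (max 1 K2) (2 * K1 * w * φ)))
  obtain ⟨H3, h3⟩ := log_large 2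
  obtain ⟨H4, h4⟩ := fsB_grow δ hδ (2 * w * φ) (C + 3)
  obtain ⟨H5, h5⟩ := fsB_grow δ hδ (max (P0 : ℝ) w) 0
  obtain ⟨H6, h6⟩ := fsB_grow δ hδ 1 (C * DD D + 1)
  refine ⟨max (max (max H1 H2) (max H3 H4)) (max H5 H6), fun H hH => ?_⟩
  have i1 : H1 ≤ H := ((le_max_left _ _).trans ((le_max_left _ _).trans (le_max_left _ _))).trans hH
  have i2 : H2 ≤ H := ((le_max_right _ _).trans ((le_max_left _ _).trans (le_max_left _ _))).trans hH
  have i3 : H3 ≤ H := ((le_max_left _ _).trans ((le_max_right _ _).trans (le_max_left _ _))).trans hH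
  have i4 : H4 ≤ H := ((le_max_right _ _).trans ((le_max_right _ _).trans (le_max_left _ _))).trans hH
  have i5 : H5 ≤ H := ((le_max_left _ _).trans (le_max_right _ _)).trans hH
  have i6 : H6 ≤ H := ((le_max_right _ _).trans (le_max_right _ _)).trans hH
  obtain ⟨a1, a1'⟩ := h1 H i1
  have a2 := h2 H i2
  have a3 := h3 H i3
  have a4 := h4 H i4
  have a5 := h5 H i5
  have a6 := h6 H i6
  set L : ℝ := Real.log H with hL
  have hL0 : 0 < L := by linarith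
  have hL1 : 1 ≤ L := by linarith
  set N : ℕ := NH D r cb H with hN
  have hLC : (1 : ℝ) ≤ L ^ C := one_le_pow₀ hL1
  have hN1 : 1 ≤ N := by
    by_contra hcon
    have h0 : N = 0 := by omega
    rw [h0] at a1'
    simp only [Nat.cast_zero, mul_zero] at a1'
    linarith
  refine ⟨hL1, hN1, fun P hP hPH => ?_⟩
  have hP0 : P0 ≤ P ∧ w ≤ P := by
    rw [pow_zero, mul_one] at a5
    have h8 := a5.trans hP
    constructor
    · exact_mod_cast (le_max_left _ _).trans h8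
    · exact_mod_cast (le_max_right _ _).trans h8
  have hLpow : L ^ (C * DD D) < L ^ (C * DD D + 1) := by
    rw [pow_succ]
    have : 0 < L ^ (C * DD D) := by positivity
    nlinarith
  have hNP : (N : ℝ) ^ DD D < P := by
    calc (N : ℝ) ^ DD D ≤ (L ^ C) ^ DD D := pow_le_pow_left₀ (Nat.cast_nonneg _) a1 _
      _ = L ^ (C * DD D) := (pow_mul _ _ _).symm
      _ < L ^ (C * DD D + 1) := hLpow
      _ ≤ (H : ℝ) ^ δ / 2 := by rwa [one_mul] at a6
      _ ≤ P := hP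
  have hP1 : (1 : ℝ) < P := by
    refine lt_of_le_of_lt ?_ hNP
    exact one_le_pow₀ (by exact_mod_cast hN1)
  have hPr0 : (0 : ℝ) < P := by linarith
  set M : ℝ := Real.log P with hM
  have hM0 : 0 < M := Real.log_pos hP1
  have hHr : (1 : ℝ) ≤ H := hP1.le.trans (by exact_mod_cast hPH)
  have hML : M ≤ L := Real.log_le_log hPr0 (by exact_mod_cast hPH)
  -- `L ≤ (2/δ) M`
  have hLM : L ≤ 2 / δ * M := by
    have h8 : Real.log ((H : ℝ) ^ δ / 2) ≤ M := Real.log_le_log (by positivity) hP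
    rw [Real.log_div (by positivity) (by norm_num), Real.log_rpow (by linarith)] at h8
    have h9 : 2 / δ ≤ L := (le_max_left _ _).trans a2
    have h10 : Real.log 2 ≤ 1 := by
      have := Real.log_two_lt_d9
      linarith
    have h11 : 2 ≤ δ * L := by
      rw [div_le_iff₀ hδ] at h9
      linarith
    have h12 : δ * L ≤ 2 * M := by linarith
    rw [div_mul_eq_mul_div, le_div_iff₀ hδ]
    linarith
  have hMK : max (max 1 K2) (2 * K1 * w * φ) ≤ M := by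
    have h8 : 2 / δ * max (max 1 K2) (2 * K1 * w * φ) ≤ 2 / δ * M :=
      ((le_max_right _ _).trans a2).trans hLM
    exact le_of_mul_le_mul_left h8 (by positivity)
  have hM1 : 1 ≤ M := ((le_max_left _ _).trans (le_max_left _ _)).trans hMK
  have hMK2 : K2 ≤ M := ((le_max_right _ _).trans (le_max_left _ _)).trans hMK
  have hMK1 : 2 * K1 * w * φ ≤ M := (le_max_right _ _).trans hMK
  refine ⟨hP0.1, hP0.2, by exact_mod_cast hNP, hM0, ?_, ?_⟩
  · calc ((N : ℝ) ^ DD D) ^ 2 ≤ ((L ^ C) ^ DD D) ^ 2 := by gcongr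
      _ = L ^ (2 * (C * DD D)) := by
        rw [← pow_mul, ← pow_mul]
        congr 1
        ring
      _ ≤ (2 / δ * M) ^ (2 * (C * DD D)) := pow_le_pow_left₀ hL0.le hLM _
      _ = K2 * M ^ (2 * (C * DD D)) := by rw [mul_pow]
      _ ≤ M * M ^ (2 * (C * DD D)) := by gcongr
      _ = M ^ (2 * (C * DD D) + 1) := by ring
  · have hden : 0 < 2 * (w : ℝ) * φ * M := by positivity
    have t1 : (N : ℝ) * (P / M ^ (C + 2)) ≤ P / (2 * w * φ * M) := by
      rw [mul_div_assoc', div_le_div_iff₀ (by positivity) hden]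
      have h8 : (N : ℝ) ≤ K1 * M ^ C := by
        calc (N : ℝ) ≤ L ^ C := a1
          _ ≤ (2 / δ * M) ^ C := pow_le_pow_left₀ hL0.le hLM _
          _ = K1 * M ^ C := mul_pow _ _ _
      calc (N : ℝ) * P * (2 * w * φ * M) ≤ (K1 * M ^ C) * P * (2 * w * φ * M) := by gcongr
        _ = P * (M ^ C * M * (2 * K1 * w * φ)) := by ring
        _ ≤ P * (M ^ C * M * M) := by gcongr
        _ = P * M ^ (C + 2) := by ring
    have t2 : (N : ℝ) * L ^ 2 ≤ P / (2 * w * φ * M) := by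
      rw [le_div_iff₀ hden]
      calc (N : ℝ) * L ^ 2 * (2 * w * φ * M) ≤ L ^ C * L ^ 2 * (2 * w * φ * L) := by gcongr
        _ = 2 * w * φ * L ^ (C + 3) := by ring
        _ ≤ (H : ℝ) ^ δ / 2 := a4
        _ ≤ P := hP
    have t3 : 1 / (w : ℝ) * (P / (φ * M)) = P / (2 * w * φ * M) + P / (2 * w * φ * M) := by
      field_simp
      ring
    rw [t3, mul_add]
    linarith

private theorem fsB_R (P0 : ℕ) {c : CD ι} {D : ℕ} (hc : c.Valid D) (a B : ℕ)
    (hswj : ∀ P : ℕ, P0 ≤ P → ∀ F v : ℕ, Odd F → ¬ IsSquare F →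
      F.Coprime (W8 c.w) → v.Coprime (W8 c.w) → (F : ℝ) ≤ (Real.log P) ^ B →
      |∑ p ∈ prm P (W8 c.w) v, (jacobiSym (p : ℤ) F : ℝ)| ≤ P / (Real.log P) ^ a)
    (P v m V : ℕ) (hP : P0 ≤ P) (hm : m ≠ 0) (hv : v.Coprime (W8 c.w)) (L : ℝ)
    (hom : (2 : ℝ) ^ m.primeFactors.card ≤ L ^ 2) (hV : ((V : ℝ)) ^ 2 ≤ Real.log P ^ B)
    (E E' : ℕ) (hE : Squarefree E) (hE' : Squarefree E') (hne : E ≠ E')
    (hEQ : E.Coprime c.Q0) (hEQ' : E'.Coprime c.Q0) (hEV : E ≤ V) (hEV' : E' ≤ V) :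
    |∑ p ∈ (prm P (W8 c.w) v).filter (fun p => ¬ p ∣ m), (jacobiSym (p : ℤ) (E * E') : ℝ)| ≤
      P / Real.log P ^ a + L ^ 2 := by
  classical
  obtain ⟨o1, c1⟩ := fsB_cop hc hEQ
  obtain ⟨o2, c2⟩ := fsB_cop hc hEQ'
  have hF : ((E * E' : ℕ) : ℝ) ≤ Real.log P ^ B := by
    refine le_trans ?_ hV
    have h1 : E * E' ≤ V * V := Nat.mul_le_mul hEV hEV'
    have h2 : ((E * E' : ℕ) : ℝ) ≤ ((V * V : ℕ) : ℝ) := by exact_mod_cast h1
    rw [sq]
    exact_mod_cast h2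
  have h1 := hswj P hP (E * E') v (o1.mul o2) (fsB_nsq hE hE' hne)
    (Nat.Coprime.mul_left c1 c2) hv hF
  have h2 := Finset.sum_filter_add_sum_filter_not (prm P (W8 c.w) v) (fun p => p ∣ m)
    (fun p => (jacobiSym (p : ℤ) (E * E') : ℝ))
  have h3 : |∑ p ∈ (prm P (W8 c.w) v).filter (fun p => p ∣ m),
      (jacobiSym (p : ℤ) (E * E') : ℝ)| ≤ L ^ 2 := by
    refine (Finset.abs_sum_le_sum_abs _ _).trans ?_
    have h4 : ∀ p ∈ (prm P (W8 c.w) v).filter (fun p => p ∣ m),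
        |(jacobiSym (p : ℤ) (E * E') : ℝ)| ≤ 1 := by
      intro p _
      rcases jacobiSym.trichotomy (p : ℤ) (E * E') with h | h | h <;> rw [h] <;> norm_num
    refine (Finset.sum_le_sum h4).trans ?_
    rw [Finset.sum_const, nsmul_eq_mul, mul_one]
    have h5 : ((prm P (W8 c.w) v).filter (fun p => p ∣ m)).card ≤ m.primeFactors.card := by
      refine Finset.card_le_card fun p hp => ?_
      obtain ⟨h6, h7⟩ := Finset.mem_filter.1 hp
      unfold prm at h6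
      exact Nat.mem_primeFactors.2 ⟨(Finset.mem_filter.1 h6).2.1, h7, hm⟩
    have h6 : (m.primeFactors.card : ℝ) ≤ 2 ^ m.primeFactors.card := by
      exact_mod_cast Nat.lt_two_pow_self.le
    have h7 : (((prm P (W8 c.w) v).filter (fun p => p ∣ m)).card : ℝ) ≤ m.primeFactors.card := by
      exact_mod_cast h5
    linarith
  have h4 : ∑ p ∈ (prm P (W8 c.w) v).filter (fun p => ¬ p ∣ m),
      (jacobiSym (p : ℤ) (E * E') : ℝ) = ∑ p ∈ prm P (W8 c.w) v,
        (jacobiSym (p : ℤ) (E * E') : ℝ) -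
        ∑ p ∈ (prm P (W8 c.w) v).filter (fun p => p ∣ m), (jacobiSym (p : ℤ) (E * E') : ℝ) := by
    linarith
  rw [h4]
  exact (abs_sub _ _).trans (add_le_add h1 h3)

open Classical in
theorem fs4 [Nonempty ι] (c : CD ι) {D : ℕ} (hc : c.Valid D) (cb : ℕ) (δ : ℝ) (hδ : 0 < δ) :
    ∃ H0 : ℕ, ∀ H : ℕ, H0 ≤ H → ∀ m : ℕ, 1 ≤ m → m ≤ H → m.Coprime c.Q0 →
      (bb (zH D (Fintype.card ι) H) m : ℝ) ≤ Real.log H ^ cb →
      (2 : ℝ) ^ m.primeFactors.card ≤ Real.log H ^ 2 →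
      c.CG (Real.log H) (NH D (Fintype.card ι) cb H) (zH D (Fintype.card ι) H) m →
      ∀ P v : ℕ, (H : ℝ) ^ δ / 2 ≤ P → P ≤ H → m * v ≡ c.u [MOD W8 c.w] →
        (((prm P (W8 c.w) v).filter (fun p => ¬ p ∣ m ∧
            ¬ c.HasPt (c.al * ((m * p : ℕ) : ℤ)))).card : ℝ)
          ≤ C3c D / c.w * (P / (Nat.totient (W8 c.w) * Real.log P)) := by
  have hw := w_big hc
  have hwr : (0 : ℝ) < c.w := by
    have : 0 < c.w := by omega
    exact_mod_cast this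
  obtain ⟨P1, hP1⟩ := swj (CC D (Fintype.card ι) cb + 2)
    (2 * (CC D (Fintype.card ι) cb * DD D) + 1) (W8 c.w) (fsB_W8_pos _)
  obtain ⟨P2, hP2⟩ := prm_card_le (W8 c.w) (fsB_W8_pos _)
  obtain ⟨H1, h1⟩ := fsB_num δ hδ D (Fintype.card ι) cb c.w (by omega) (max P1 P2)
  obtain ⟨H2, h2⟩ := size_vt c hc cb
  obtain ⟨H3, h3⟩ := omega_vt c hc cb
  obtain ⟨H4, h4⟩ := dg4 c hc cb
  refine ⟨max (max H1 H2) (max H3 H4), ?_⟩
  intro H hH m hm hmH hmQ hbL hom hCG P v hP hPH hmv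
  have i1 : H1 ≤ H := ((le_max_left _ _).trans (le_max_left _ _)).trans hH
  have i2 : H2 ≤ H := ((le_max_right _ _).trans (le_max_left _ _)).trans hH
  have i3 : H3 ≤ H := ((le_max_left _ _).trans (le_max_right _ _)).trans hH
  have i4 : H4 ≤ H := ((le_max_right _ _).trans (le_max_right _ _)).trans hH
  obtain ⟨hL1, hN1, hnum⟩ := h1 H i1
  obtain ⟨hPP, hwP, hNP, hM0, hNM, hfin⟩ := hnum P hP hPH
  set L : ℝ := Real.log H with hL
  set N : ℕ := NH D (Fintype.card ι) cb H with hN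
  set z : ℕ := zH D (Fintype.card ι) H with hz
  have hm0 : m ≠ 0 := by omega
  have hb0 : 0 < bb z m := Nat.pos_of_ne_zero (bb_squarefree z m).ne_zero
  have hbQ : (bb z m).Coprime c.Q0 := hmQ.coprime_dvd_left (bb_dvd z m)
  have hTprop : ∀ p ∈ TT z m, p.Prime ∧ z < p ∧ p.Coprime (c.Q0 * bb z m) := by
    intro p hp
    obtain ⟨h5, h6⟩ := Finset.mem_filter.1 hp
    exact ⟨Nat.prime_of_mem_primeFactors h5, h6, Nat.Coprime.mul_right
      (hmQ.coprime_dvd_left (Nat.dvd_of_mem_primeFactors h5)) (TT_coprime_bb z m p hp)⟩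
  have hTcard : (2 : ℝ) ^ (TT z m).card ≤ L ^ 2 := by
    refine le_trans ?_ hom
    exact pow_le_pow_right₀ (by norm_num) (Finset.card_le_card (Finset.filter_subset _ _))
  obtain ⟨hG, hNA⟩ := h4 H i4 (bb z m) hb0 hbQ hbL (TT z m) hTprop hTcard hCG
  set A : ℕ := (c.NN N (bb z m) (TT z m) 1).card with hA
  have hA0 : (0 : ℝ) < A := by
    by_contra hcon
    have h5 : (A : ℝ) = 0 := le_antisymm (not_lt.1 hcon) (Nat.cast_nonneg _)
    rw [h5, mul_zero] at hNA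
    have : (1 : ℝ) ≤ N := by exact_mod_cast hN1
    linarith
  have hNNsub : ∀ n ∈ c.NN N (bb z m) (TT z m) 1, n ∈ Icc 1 N := by
    intro n hn
    unfold CD.NN at hn
    exact (Finset.mem_filter.1 hn).1
  have hvtle : ∀ n ∈ c.NN N (bb z m) (TT z m) 1,
      (c.vt (c.x (bb z m) n)).natAbs ≤ N ^ DD D := by
    intro n hn
    have h5 := h2 H i2 (bb z m) hb0 hbL n (hNNsub n hn)
    have h6 : (((c.vt (c.x (bb z m) n)).natAbs : ℕ) : ℝ) =
        |((c.vt (c.x (bb z m) n) : ℤ) : ℝ)| := by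
      rw [Nat.cast_natAbs, Int.cast_abs]
    rw [← h6] at h5
    exact_mod_cast h5
  have hvW : v.Coprime (W8 c.w) := by
    have h5 : (m * v).Coprime (W8 c.w) := by
      rw [Nat.Coprime, hmv.gcd_eq]
      exact hc.u_cop
    exact Nat.Coprime.coprime_mul_left h5
  have hkey := fsA c hc N (bb z m) (TT z m) m hm (bb_squarefree z m) hbQ (mem_bb_or z m)
    ((prm P (W8 c.w) v).filter (fun p => ¬ p ∣ m))
    (by
      intro p hp
      obtain ⟨h5, h6⟩ := Finset.mem_filter.1 hp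
      unfold prm at h5
      obtain ⟨h7, h8, h9⟩ := Finset.mem_filter.1 h5
      have h10 : P < p := (Finset.mem_Ioc.1 h7).1
      refine ⟨h8, by omega, h6, ?_, ?_⟩
      · exact (Nat.ModEq.mul_left m h9).trans hmv
      · intro n hn hdv
        have h11 := hvtle n hn
        have h12 : p ≤ (c.vt (c.x (bb z m) n)).natAbs :=
          Nat.le_of_dvd (Int.natAbs_pos.2 (vt_x_ne hc (bb z m) n)) (Int.natCast_dvd.1 hdv)
        omega)
    (N ^ DD D) hvtle (P / Real.log P ^ (CC D (Fintype.card ι) cb + 2) + L ^ 2)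
    (by positivity)
    (fun E E' hE hE' hne hEQ hEQ' hEV hEV' => by
      have h5 := fsB_R P1 hc (CC D (Fintype.card ι) cb + 2)
        (2 * (CC D (Fintype.card ι) cb * DD D) + 1) hP1 P v m (N ^ DD D)
        ((le_max_left _ _).trans hPP) hm0 hvW L hom (by push_cast; exact hNM) E E' hE hE' hne
        hEQ hEQ' hEV hEV'
      exact h5)
    (C2c D / c.w * (A : ℝ) ^ 2) hG
  have hset : ((prm P (W8 c.w) v).filter (fun p => ¬ p ∣ m ∧
      ¬ c.HasPt (c.al * ((m * p : ℕ) : ℤ)))) =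
      ((prm P (W8 c.w) v).filter (fun p => ¬ p ∣ m)).filter
        (fun p => ¬ c.HasPt (c.al * ((m * p : ℕ) : ℤ))) := by
    ext p
    simp only [Finset.mem_filter]
    tauto
  rw [hset]
  set bad : ℕ := (((prm P (W8 c.w) v).filter (fun p => ¬ p ∣ m)).filter
        (fun p => ¬ c.HasPt (c.al * ((m * p : ℕ) : ℤ)))).card with hbad
  have hsum : ∑ n ∈ c.NN N (bb z m) (TT z m) 1,
      (2 : ℝ) ^ (c.vt (c.x (bb z m) n)).natAbs.primeFactors.card ≤ A * (N : ℝ) ^ (1 / 20 : ℝ) := by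
    calc ∑ n ∈ c.NN N (bb z m) (TT z m) 1,
        (2 : ℝ) ^ (c.vt (c.x (bb z m) n)).natAbs.primeFactors.card
        ≤ ∑ _n ∈ c.NN N (bb z m) (TT z m) 1, (N : ℝ) ^ (1 / 20 : ℝ) :=
          Finset.sum_le_sum fun n hn => h3 H i3 (bb z m) hb0 hbL n (hNNsub n hn)
      _ = A * (N : ℝ) ^ (1 / 20 : ℝ) := by
          rw [Finset.sum_const, nsmul_eq_mul]
  have hN1r : (1 : ℝ) ≤ N := by exact_mod_cast hN1
  have hsq : (∑ n ∈ c.NN N (bb z m) (TT z m) 1,
      (2 : ℝ) ^ (c.vt (c.x (bb z m) n)).natAbs.primeFactors.card) ^ 2 ≤ (A : ℝ) ^ 2 * N := by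
    have h5 : (0 : ℝ) ≤ ∑ n ∈ c.NN N (bb z m) (TT z m) 1,
      (2 : ℝ) ^ (c.vt (c.x (bb z m) n)).natAbs.primeFactors.card :=
      Finset.sum_nonneg fun _ _ => by positivity
    have h6 : ((N : ℝ) ^ (1 / 20 : ℝ)) ^ 2 ≤ N := by
      rw [← Real.rpow_natCast, ← Real.rpow_mul (by linarith)]
      calc (N : ℝ) ^ ((1 / 20 : ℝ) * ((2 : ℕ) : ℝ)) ≤ (N : ℝ) ^ (1 : ℝ) :=
            Real.rpow_le_rpow_of_exponent_le hN1r (by norm_num)
        _ = N := Real.rpow_one _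
    calc (∑ n ∈ c.NN N (bb z m) (TT z m) 1,
      (2 : ℝ) ^ (c.vt (c.x (bb z m) n)).natAbs.primeFactors.card) ^ 2
        ≤ (A * (N : ℝ) ^ (1 / 20 : ℝ)) ^ 2 := pow_le_pow_left₀ h5 hsum 2
      _ = (A : ℝ) ^ 2 * ((N : ℝ) ^ (1 / 20 : ℝ)) ^ 2 := mul_pow _ _ _
      _ ≤ (A : ℝ) ^ 2 * N := mul_le_mul_of_nonneg_left h6 (by positivity)
  have hR0 : 0 ≤ (P : ℝ) / Real.log P ^ (CC D (Fintype.card ι) cb + 2) + L ^ 2 := by positivity
  have hC2 : 0 ≤ C2c D := by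
    unfold C2c
    positivity
  have hPrc : (((prm P (W8 c.w) v).filter (fun p => ¬ p ∣ m)).card : ℝ) ≤
      2 * P / (Nat.totient (W8 c.w) * Real.log P) := by
    refine le_trans ?_ (hP2 P ((le_max_right _ _).trans hPP) v hvW)
    exact_mod_cast Finset.card_le_card (Finset.filter_subset _ _)
  have hfinal : (bad : ℝ) * (A : ℝ) ^ 2 ≤
      (C3c D / c.w * (P / (Nat.totient (W8 c.w) * Real.log P))) * (A : ℝ) ^ 2 := by
    refine hkey.trans ?_
    have h5 : (((prm P (W8 c.w) v).filter (fun p => ¬ p ∣ m)).card : ℝ) *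
        (C2c D / c.w * (A : ℝ) ^ 2) ≤
        2 * P / (Nat.totient (W8 c.w) * Real.log P) * (C2c D / c.w * (A : ℝ) ^ 2) :=
      mul_le_mul_of_nonneg_right hPrc (by positivity)
    have h6 := mul_le_mul_of_nonneg_right hsq hR0
    have h7 := mul_le_mul_of_nonneg_left hfin (by positivity : (0 : ℝ) ≤ (A : ℝ) ^ 2)
    have h8 : (C3c D / c.w * (P / (Nat.totient (W8 c.w) * Real.log P))) * (A : ℝ) ^ 2 =
        2 * P / (Nat.totient (W8 c.w) * Real.log P) * (C2c D / c.w * (A : ℝ) ^ 2) +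
        (A : ℝ) ^ 2 * (1 / c.w * (P / (Nat.totient (W8 c.w) * Real.log P))) := by
      unfold C3c
      ring
    rw [h8]
    linarith
  exact le_of_mul_le_mul_right hfinal (by positivity)

end TwHP
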