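import Pool.Agent.Lib.MP_e426f4_ag.TWS.Size
import Pool.Agent.Lib.MP_e426f4_ag.TWS.Count
import Pool.Agent.Lib.MP_e426f4_ag.TWL.Step

/-!
# TWS.It (TWIST, section 4): (IT)

`|#NN(b,T,e) - 2^(-r|T|) N ρ(e)/e| ≤ (1/4) 2^(-r|T|) N ρ(e)/e`  for `T` chain-good.

Proof. `L = log H`, `N = NH`.  If `ρ(e) = 0` both are `0` (`count_e`, `NN_sub`).  Let `ρ(e) ≥ 1`, `S = N ρ(e)/e`.
Sort `T = {p_1 < … < p_t}` (or `Finset.induction_on_max`), `a_j = #NN(b,{p_1..p_j},e)`, `θ = 2^(-r)`; `TWL.iterate` of `TWL/Step.lean` with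
`η = 1/L`, `Z = 2 D N/z'`, `z' = L^cz`, `m = N/L^E1` (or redo the induction):
`a_0`: `count_e`, `NN_empty` give `|a_0 - S| ≤ ρ(e) = S e/N ≤ S/16`.  Step: `NN(b,{p_1..p_{j+1}},e)` is the filter of
`NN(b,{p_1..p_j},e)` by `∀ i, J(vc i|p_{j+1}) = 1`; `stepi` (= `TWL.step` for a finite index type; copy its proof with `Fin r` replaced
by `ι`) with the sums `≤ #NN/L` because `p_{j+1}` is not bad for `(b,{p_1..p_j})` (`hCG`, `e ≤ L^E0`, `N ≤ L^E1 #NN`); the zeros: `dvd_vt_of_zero`,
`count_e` for `e = p_{j+1}`, `rho_le`: at most `D (N/p + 1) ≤ 2 D N/L^cz` as `p > z = ⌊L^cz⌋`, `N ≥ L^cz`.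
`m ≤ θ^t S/2`: `θ^t = 2^(-rt) ≥ L^(-2r)`, `S ≥ N/e ≥ N L^(-E0)`, `E1 = E0 + 2r + 2`.
`t (2·2^r/L + Z/(θ^t S)) ≤ 3/16`: `t ≤ 2 log L/log 2`, `Z/(θ^t S) ≤ 2 D L^(2r + E0 - cz) ≤ 1/L`.
-/

set_option autoImplicit false

namespace TwHP

open Finset Polynomial CD

variable {ι : Type} [Fintype ι] [DecidableEq ι]

/-- `TWL.step` for a finite index type -/
theorem stepi (A : Finset ℕ) (v : ι → ℕ → ℤ) (p : ℕ) (η Z : ℝ) (hη : 0 ≤ η)
    (h : ∀ I : Finset ι, I.Nonempty →
      |∑ n ∈ A, (jacobiSym (∏ i ∈ I, v i n) p : ℝ)| ≤ η * A.card)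
    (hZ : ((A.filter (fun n => ∃ i, jacobiSym (v i n) p = 0)).card : ℝ) ≤ Z) :
    |((A.filter (fun n => ∀ i, jacobiSym (v i n) p = 1)).card : ℝ) - (1 / 2) ^ (Fintype.card ι) * A.card|
      ≤ η * A.card + Z := by
  classical
  let f : Fin (Fintype.card ι) ≃ ι := (Fintype.equivFin ι).symm
  have h1 := Pool.Agent.Lib.MP_e426f4_ag.TWL.step (Fintype.card ι) A (fun k => v (f k)) p η Z hη
    (fun I hI => by
      have h2 := h (I.map f.toEmbedding) (hI.map)
      simpa [Finset.prod_map] using h2)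
    (by
      have h3 : (A.filter (fun n => ∃ k, jacobiSym (v (f k) n) p = 0)) =
          (A.filter (fun n => ∃ i, jacobiSym (v i n) p = 0)) := by
        refine Finset.filter_congr fun n _ => ?_
        constructor
        · rintro ⟨k, hk⟩
          exact ⟨f k, hk⟩
        · rintro ⟨i, hi⟩
          exact ⟨f.symm i, by simpa using hi⟩
      rw [h3]
      exact hZ)
  have h4 : (A.filter (fun n => ∀ k, jacobiSym (v (f k) n) p = 1)) =
      (A.filter (fun n => ∀ i, jacobiSym (v i n) p = 1)) := by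
    refine Finset.filter_congr fun n _ => ?_
    constructor
    · intro hk i
      have := hk (f.symm i)
      simpa using this
    · intro hi k
      exact hi (f k)
  rw [h4] at h1
  exact h1

/-- a finite set of numbers as an increasing chain of initial segments -/
theorem chain_exists (T : Finset ℕ) : ∃ U : ℕ → Finset ℕ, U 0 = ∅ ∧ U T.card = T ∧
    ∀ j < T.card, ∃ q ∈ T, U (j + 1) = insert q (U j) ∧ U j = T.filter (· < q) := by
  classical
  refine ⟨fun j => (univ.filter (fun i : Fin T.card => (i : ℕ) < j)).map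
    (T.orderEmbOfFin rfl).toEmbedding, ?_, ?_, ?_⟩
  · simp
  · have h1 : (univ.filter (fun i : Fin T.card => (i : ℕ) < T.card)) = univ :=
      Finset.filter_true_of_mem fun i _ => i.2
    simp only [h1]
    exact Finset.map_orderEmbOfFin_univ T rfl
  · intro j hj
    refine ⟨T.orderEmbOfFin rfl ⟨j, hj⟩, Finset.orderEmbOfFin_mem T rfl _, ?_, ?_⟩
    · ext x
      simp only [Finset.mem_map, Finset.mem_filter, Finset.mem_univ, true_and, Finset.mem_insert,
        RelEmbedding.coe_toEmbedding]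
      constructor
      · rintro ⟨i, hi, rfl⟩
        rcases Nat.lt_succ_iff_lt_or_eq.mp hi with h | h
        · exact Or.inr ⟨i, h, rfl⟩
        · left
          congr 1
          exact Fin.ext h
      · rintro (rfl | ⟨i, hi, rfl⟩)
        · exact ⟨⟨j, hj⟩, Nat.lt_succ_self j, rfl⟩
        · exact ⟨i, Nat.lt_succ_of_lt hi, rfl⟩
    · ext x
      simp only [Finset.mem_map, Finset.mem_filter, Finset.mem_univ, true_and,
        RelEmbedding.coe_toEmbedding]
      constructor
      · rintro ⟨i, hi, rfl⟩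
        refine ⟨Finset.orderEmbOfFin_mem T rfl _, ?_⟩
        exact (T.orderEmbOfFin rfl).strictMono (show i < ⟨j, hj⟩ from hi)
      · rintro ⟨hxT, hx⟩
        have h2 : x ∈ Set.range (T.orderEmbOfFin rfl) := by
          rw [Finset.range_orderEmbOfFin]
          exact hxT
        obtain ⟨i, rfl⟩ := h2
        refine ⟨i, ?_, rfl⟩
        exact (T.orderEmbOfFin rfl).lt_iff_lt.mp hx

/-- numerical part -/
theorem it_num (r D E₀ E₁ cz' : ℕ) (_hE1 : E₁ = E₀ + 2 * r + 2) (hcz : E₀ + 2 * r + 3 ≤ cz') :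
    ∃ H0 : ℕ, ∀ H : ℕ, H0 ≤ H → 2 ≤ Real.log H ∧ ∀ t : ℕ, (2 : ℝ) ^ t ≤ Real.log H ^ 2 →
      (t : ℝ) * (2 * ((1 / Real.log H) / (1 / 2) ^ r)) ≤ 1 / 16 ∧
      (t : ℝ) * (2 * D * Real.log H ^ (2 * r + E₀) / Real.log H ^ cz') ≤ 1 / 16 := by
  have h1 : ∀ᶠ x : ℝ in Filter.atTop, Real.log x ≤ (1 / (96 * 2 ^ r)) * x := by
    have := Real.isLittleO_log_id_atTop.bound (show (0 : ℝ) < 1 / (96 * 2 ^ r) by positivity)
    filter_upwards [this, Filter.eventually_ge_atTop (1 : ℝ)] with x hx hx1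
    rw [id, Real.norm_eq_abs, Real.norm_eq_abs, abs_of_nonneg (Real.log_nonneg hx1),
      abs_of_nonneg (by linarith)] at hx
    exact hx
  obtain ⟨K, hK⟩ := Filter.eventually_atTop.mp h1
  obtain ⟨H0, hH0⟩ := log_large (max (max K 2) (32 * D))
  refine ⟨H0, fun H hH => ?_⟩
  have hL := hH0 H hH
  obtain ⟨L, hLdef⟩ : ∃ L : ℝ, L = Real.log H := ⟨_, rfl⟩
  rw [← hLdef] at hL ⊢
  have hLK : K ≤ L := ((le_max_left _ _).trans (le_max_left _ _)).trans hL
  have hL2 : 2 ≤ L := ((le_max_right _ _).trans (le_max_left _ _)).trans hL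
  have hLD : 32 * (D : ℝ) ≤ L := (le_max_right _ _).trans hL
  have hL0 : 0 < L := by linarith
  refine ⟨hL2, fun t ht => ?_⟩
  constructor
  · have h2 : (t : ℝ) * Real.log 2 ≤ 2 * Real.log L := by
      have := Real.log_le_log (by positivity) ht
      rw [Real.log_pow, Real.log_pow] at this
      exact_mod_cast this
    have h3 := hK L hLK
    have h4 := Real.log_two_gt_d9
    have h5 : (t : ℝ) ≤ 3 * ((1 / (96 * 2 ^ r)) * L) := by
      have ht0 : (0 : ℝ) ≤ t := Nat.cast_nonneg t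
      nlinarith
    have h6 : (2 : ℝ) * ((1 / L) / (1 / 2) ^ r) = 2 * 2 ^ r / L := by
      rw [one_div_pow]
      field_simp
    rw [h6]
    calc (t : ℝ) * (2 * 2 ^ r / L) ≤ (3 * ((1 / (96 * 2 ^ r)) * L)) * (2 * 2 ^ r / L) :=
          mul_le_mul_of_nonneg_right h5 (by positivity)
      _ = 1 / 16 := by
        field_simp
        norm_num
  · have h2 : (t : ℝ) ≤ L ^ 2 := by
      have : (t : ℝ) < 2 ^ t := by exact_mod_cast Nat.lt_two_pow_self
      linarith
    have h3 : L ^ (2 * r + E₀) * L ^ 3 ≤ L ^ cz' := by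
      rw [← pow_add]
      exact pow_le_pow_right₀ (by linarith) (by omega)
    have h4 : 0 < L ^ cz' := by positivity
    have h5 : 0 < L ^ (2 * r + E₀) := by positivity
    rw [mul_div_assoc']
    rw [div_le_iff₀ h4]
    calc (t : ℝ) * (2 * D * L ^ (2 * r + E₀)) ≤ L ^ 2 * (2 * D * L ^ (2 * r + E₀)) :=
          mul_le_mul_of_nonneg_right h2 (by positivity)
      _ = (1 / 16) * ((32 * D) * (L ^ 2 * L ^ (2 * r + E₀))) := by ring
      _ ≤ (1 / 16) * (L * (L ^ 2 * L ^ (2 * r + E₀))) := by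
        have := mul_le_mul_of_nonneg_right hLD (by positivity : 0 ≤ L ^ 2 * L ^ (2 * r + E₀))
        linarith
      _ = (1 / 16) * (L ^ (2 * r + E₀) * L ^ 3) := by ring
      _ ≤ 1 / 16 * L ^ cz' := by
        exact mul_le_mul_of_nonneg_left h3 (by norm_num)

theorem it4 [Nonempty ι] (c : CD ι) {D : ℕ} (hc : c.Valid D) (cb : ℕ) :
    ∃ H0 : ℕ, ∀ H : ℕ, H0 ≤ H → ∀ b : ℕ, 0 < b → b.Coprime c.Q0 → (b : ℝ) ≤ Real.log H ^ cb →
      ∀ T : Finset ℕ, (∀ p ∈ T, p.Prime ∧ zH D (Fintype.card ι) H < p ∧ p.Coprime (c.Q0 * b)) →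
      (2 : ℝ) ^ T.card ≤ Real.log H ^ 2 →
      (∀ q ∈ T, ¬ c.Bad (Real.log H) (NH D (Fintype.card ι) cb H) b (T.filter (· < q)) q) →
      ∀ e : ℕ, Squarefree e → e.Coprime (c.Q0 * b) → (e : ℝ) ≤ Real.log H ^ E0 (Fintype.card ι) →
        |((c.NN (NH D (Fintype.card ι) cb H) b T e).card : ℝ)
            - (1 / 2) ^ (Fintype.card ι * T.card) * ((NH D (Fintype.card ι) cb H : ℝ) * c.rho e / e)|
          ≤ (1 / 2) ^ (Fintype.card ι * T.card) * ((NH D (Fintype.card ι) cb H : ℝ) * c.rho e / e) / 4 := by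
  classical
  obtain ⟨r, hr⟩ : ∃ r : ℕ, r = Fintype.card ι := ⟨_, rfl⟩
  rw [← hr]
  have hczz : E0 r + 2 * r + 3 ≤ cz D r := by
    have : E1 r = E0 r + 2 * r + 2 := by unfold E1 E0; ring
    unfold cz
    omega
  have hE1 : E1 r = E0 r + 2 * r + 2 := by unfold E1 E0; ring
  obtain ⟨Ha, hHa⟩ := it_num r D (E0 r) (E1 r) (cz D r) hE1 hczz
  obtain ⟨Hb, hHb⟩ := NH_bounds D r cb
  obtain ⟨Hc, hHc⟩ := log_large 32
  refine ⟨max (max Ha Hb) Hc, fun H hH b hb0 hbQ hbL T hT h2T hgood e hes heQ heL => ?_⟩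
  obtain ⟨hL2, hnum⟩ := hHa H (((le_max_left _ _).trans (le_max_left _ _)).trans hH)
  obtain ⟨hN1, hN2⟩ := hHb H (((le_max_right _ _).trans (le_max_left _ _)).trans hH)
  have hL32 := hHc H ((le_max_right _ _).trans hH)
  obtain ⟨hna, hnb⟩ := hnum T.card h2T
  obtain ⟨L, hLdef⟩ : ∃ L : ℝ, L = Real.log H := ⟨_, rfl⟩
  rw [← hLdef] at hL2 hN1 hN2 hL32 hna hnb h2T hgood heL
  obtain ⟨N, hNdef⟩ : ∃ N : ℕ, N = NH D r cb H := ⟨_, rfl⟩
  rw [← hNdef] at hN1 hN2 hgood ⊢
  have hL0 : 0 < L := by linarith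
  have hL1 : 1 ≤ L := by linarith
  have he0 : 0 < e := Nat.pos_of_ne_zero hes.ne_zero
  have he0' : (0 : ℝ) < e := by exact_mod_cast he0
  -- N is large
  have hCC : cz D r + 1 ≤ CC D r cb := by unfold CC; omega
  have hNcz : L ^ cz D r ≤ N := by
    have h1 : L ^ cz D r * L ≤ L ^ CC D r cb := by
      rw [← pow_succ]
      exact pow_le_pow_right₀ hL1 hCC
    have h2 : L ^ cz D r * 2 ≤ L ^ cz D r * L :=
      mul_le_mul_of_nonneg_left hL2 (by positivity)
    linarith
  have hNpos : (0 : ℝ) < N := lt_of_lt_of_le (by positivity) hNcz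
  -- trivial case
  rcases Nat.eq_zero_or_pos (c.rho e) with hrho | hrho
  · have h1 := count_e c N b e heQ he0
    rw [hrho] at h1
    simp only [Nat.cast_zero, mul_zero, zero_div, sub_zero] at h1
    have h2 : (((Icc 1 N).filter (fun n => (e : ℤ) ∣ c.vt (c.x b n))).card : ℝ) = 0 :=
      abs_nonpos_iff.mp h1
    have h3 : ((c.NN N b T e).card : ℝ) = 0 := by
      refine le_antisymm ?_ (Nat.cast_nonneg _)
      rw [← h2]
      exact_mod_cast Finset.card_le_card (NN_sub c N b T e)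
    rw [h3, hrho]
    simp
  have hrho1 : (1 : ℝ) ≤ c.rho e := by exact_mod_cast hrho
  obtain ⟨S, hS⟩ : ∃ S : ℝ, S = (N : ℝ) * c.rho e / e := ⟨_, rfl⟩
  rw [← hS]
  have hSpos : 0 < S := by
    rw [hS]
    positivity
  have hSge : (N : ℝ) / L ^ E0 r ≤ S := by
    rw [hS, div_le_div_iff₀ (by positivity) he0']
    calc (N : ℝ) * e ≤ N * L ^ E0 r := mul_le_mul_of_nonneg_left heL hNpos.le
      _ = N * 1 * L ^ E0 r := by ring
      _ ≤ N * c.rho e * L ^ E0 r := by
        refine mul_le_mul_of_nonneg_right ?_ (by positivity)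
        exact mul_le_mul_of_nonneg_left hrho1 hNpos.le
  have hθt : ((1 : ℝ) / 2) ^ (r * T.card) = ((1 / 2) ^ r) ^ T.card := by rw [pow_mul]
  have hθL : 1 / L ^ (2 * r) ≤ (((1 : ℝ) / 2) ^ r) ^ T.card := by
    rw [← pow_mul, one_div_pow]
    apply one_div_le_one_div_of_le (by positivity)
    rw [mul_comm r, pow_mul, pow_mul]
    exact pow_le_pow_left₀ (by positivity) h2T r
  have hθS : (N : ℝ) / L ^ (2 * r + E0 r) ≤ ((1 / 2) ^ r) ^ T.card * S := by
    calc (N : ℝ) / L ^ (2 * r + E0 r) = 1 / L ^ (2 * r) * (N / L ^ E0 r) := by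
          rw [pow_add]
          field_simp
      _ ≤ _ := mul_le_mul hθL hSge (by positivity) (by positivity)
  obtain ⟨U, hU0, hUt, hUs⟩ := chain_exists T
  rw [hθt]
  have hmain := Pool.Agent.Lib.MP_e426f4_ag.TWL.iterate T.card
    (fun j => ((c.NN N b (U j) e).card : ℝ)) ((1 / 2) ^ r) S (1 / L)
    (2 * D * N / L ^ cz D r) (N / L ^ E1 r) (by positivity)
    (pow_le_one₀ (by norm_num) (by norm_num)) hSpos (by positivity) (by positivity) ?_ ?_ ?_ ?_
  · simp only [hUt] at hmain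
    exact hmain
  · -- start
    simp only [hU0, NN_empty]
    have h1 := count_e c N b e heQ he0
    rw [← hS] at h1
    refine h1.trans ?_
    have h3 : 16 * (e : ℝ) ≤ N := by
      have h4 : L ^ E0 r * L ≤ L ^ CC D r cb := by
        rw [← pow_succ]
        refine pow_le_pow_right₀ hL1 ?_
        omega
      have h5 : L ^ E0 r * 32 ≤ L ^ E0 r * L := mul_le_mul_of_nonneg_left hL32 (by positivity)
      linarith
    rw [hS, div_div, le_div_iff₀ (by positivity)]
    have : (c.rho e : ℝ) * (16 * e) ≤ c.rho e * N := mul_le_mul_of_nonneg_left h3 (by positivity)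
    linarith
  · -- step
    intro j hj hmj
    obtain ⟨q, hqT, hUj1, hUj⟩ := hUs j hj
    obtain ⟨hqp, hqz, hqc⟩ := hT q hqT
    have hng := hgood q hqT
    rw [← hUj] at hng
    have hNle : (N : ℝ) ≤ L ^ E1 r * (c.NN N b (U j) e).card := by
      have : (N : ℝ) / L ^ E1 r ≤ (c.NN N b (U j) e).card := hmj
      rw [div_le_iff₀ (by positivity)] at this
      linarith
    have hsum : ∀ I : Finset ι, I.Nonempty →
        |∑ n ∈ c.NN N b (U j) e, (jacobiSym (∏ i ∈ I, c.vc i (c.x b n)) q : ℝ)| ≤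
          1 / L * (c.NN N b (U j) e).card := by
      intro I hI
      by_contra hcon
      push Not at hcon
      apply hng
      refine ⟨e, ?_, hes, heQ, ?_, I, hI, ?_⟩
      · rw [← hr]
        exact heL
      · rw [← hr]
        exact hNle
      · have h6 : L * (1 / L * ((c.NN N b (U j) e).card : ℝ)) <
            L * |∑ n ∈ c.NN N b (U j) e, (jacobiSym (∏ i ∈ I, c.vc i (c.x b n)) q : ℝ)| :=
          mul_lt_mul_of_pos_left hcon hL0
        have h7 : L * (1 / L * ((c.NN N b (U j) e).card : ℝ)) = (c.NN N b (U j) e).card := by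
          field_simp
        rw [h7] at h6
        exact h6
    have hqL : L ^ cz D r ≤ q := by
      have h6 : zH D r H < q := hqz
      unfold zH at h6
      rw [← hLdef] at h6
      exact ((Nat.floor_lt (by positivity)).mp h6).le
    have hqQ : q.Coprime c.Q0 := Nat.Coprime.coprime_mul_right_right hqc
    have hZ : (((c.NN N b (U j) e).filter
        (fun n => ∃ i, jacobiSym (c.vc i (c.x b n)) q = 0)).card : ℝ) ≤
        2 * D * N / L ^ cz D r := by
      have h8 : ((c.NN N b (U j) e).filter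
          (fun n => ∃ i, jacobiSym (c.vc i (c.x b n)) q = 0)) ⊆
          (Icc 1 N).filter (fun n => (q : ℤ) ∣ c.vt (c.x b n)) := by
        intro n hn
        rw [Finset.mem_filter] at hn ⊢
        obtain ⟨hn1, i, hi⟩ := hn
        have h9 := NN_sub c N b (U j) e hn1
        rw [Finset.mem_filter] at h9
        exact ⟨h9.1, dvd_vt_of_zero c _ q hqp i hi⟩
      have h10 := count_e c N b q hqc hqp.pos
      have h11 : (c.rho q : ℝ) ≤ D := by
        have := rho_le hc q hqp.prime.squarefree hqQ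
        rw [Nat.Prime.primeFactors hqp, Finset.card_singleton, pow_one] at this
        exact_mod_cast this
      have h12 : (((Icc 1 N).filter (fun n => (q : ℤ) ∣ c.vt (c.x b n))).card : ℝ) ≤
          N * c.rho q / q + c.rho q := by
        have := (abs_le.mp h10).2
        linarith
      have hq0 : (0 : ℝ) < q := by exact_mod_cast hqp.pos
      have h13 : (N : ℝ) * c.rho q / q ≤ D * N / L ^ cz D r := by
        rw [div_le_div_iff₀ hq0 (by positivity)]
        calc (N : ℝ) * c.rho q * L ^ cz D r ≤ N * D * q := by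
              refine mul_le_mul ?_ hqL (by positivity) (by positivity)
              exact mul_le_mul_of_nonneg_left h11 hNpos.le
          _ = D * N * q := by ring
      have h14 : (c.rho q : ℝ) ≤ D * N / L ^ cz D r := by
        refine h11.trans ?_
        rw [le_div_iff₀ (by positivity)]
        exact mul_le_mul_of_nonneg_left hNcz (Nat.cast_nonneg _)
      have h15 : (((c.NN N b (U j) e).filter
          (fun n => ∃ i, jacobiSym (c.vc i (c.x b n)) q = 0)).card : ℝ) ≤
          (((Icc 1 N).filter (fun n => (q : ℤ) ∣ c.vt (c.x b n))).card : ℝ) := by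
        exact_mod_cast Finset.card_le_card h8
      have h16 : 2 * D * N / L ^ cz D r = D * N / L ^ cz D r + D * N / L ^ cz D r := by ring
      rw [h16]
      linarith
    have h17 := stepi (c.NN N b (U j) e) (fun i n => c.vc i (c.x b n)) q (1 / L)
      (2 * D * N / L ^ cz D r) (by positivity) hsum hZ
    have h18 : c.NN N b (U (j + 1)) e = (c.NN N b (U j) e).filter
        (fun n => ∀ i, jacobiSym (c.vc i (c.x b n)) q = 1) := by
      rw [hUj1]
      ext n
      simp only [CD.NN, Finset.mem_filter, Finset.mem_insert]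
      constructor
      · rintro ⟨h1, h2, h3⟩
        exact ⟨⟨h1, fun q' hq' => h2 q' (Or.inr hq'), h3⟩, h2 q (Or.inl rfl)⟩
      · rintro ⟨⟨h1, h2, h3⟩, h4⟩
        refine ⟨h1, ?_, h3⟩
        rintro q' (rfl | hq')
        · exact h4
        · exact h2 q' hq'
    simp only [h18]
    rw [← hr] at h17
    exact h17
  · -- m small
    refine le_trans ?_ (div_le_div_of_nonneg_right hθS (by norm_num : (0 : ℝ) ≤ 2))
    rw [div_div, hE1]
    apply div_le_div_of_nonneg_left hNpos.le (by positivity)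
    have h1 : L ^ (E0 r + 2 * r + 2) = L ^ (2 * r + E0 r) * L ^ 2 := by
      rw [← pow_add]
      congr 1
      ring
    rw [h1]
    refine mul_le_mul_of_nonneg_left ?_ (by positivity)
    nlinarith
  · -- total error
    have h1 : 2 * D * N / L ^ cz D r / ((((1 : ℝ) / 2) ^ r) ^ T.card * S) ≤
        2 * D * L ^ (2 * r + E0 r) / L ^ cz D r := by
      rw [div_div, div_le_div_iff₀ (by positivity) (by positivity)]
      have h2 : (N : ℝ) ≤ L ^ (2 * r + E0 r) * (((1 / 2) ^ r) ^ T.card * S) := by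
        rw [div_le_iff₀ (by positivity)] at hθS
        linarith
      calc 2 * D * (N : ℝ) * L ^ cz D r ≤
          2 * D * (L ^ (2 * r + E0 r) * (((1 / 2) ^ r) ^ T.card * S)) * L ^ cz D r := by
            refine mul_le_mul_of_nonneg_right ?_ (by positivity)
            exact mul_le_mul_of_nonneg_left h2 (by positivity)
        _ = _ := by ring
    have h3 : (T.card : ℝ) * (2 * D * N / L ^ cz D r / ((((1 : ℝ) / 2) ^ r) ^ T.card * S)) ≤
        1 / 16 := (mul_le_mul_of_nonneg_left h1 (Nat.cast_nonneg _)).trans hnb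
    rw [mul_add]
    linarith

end TwHP
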