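import Pool.Agent.Lib.MP_e426f4_ag.TWS.Size
import Pool.Agent.Lib.MP_e426f4_ag.TWL.Mult

/-!
# TWS.Mult (TWIST, section 4): (MULT)

For `H ≥ H0`, `b ≤ L^cb` (`L = log H`), `I ≠ ∅`, `t ≠ 0`: at most `N^(2/3)` of the `n ≤ N` have `t * vI I (x b n)` a square.

Proof. Apply `TWL.card_le_two_thirds` with `Ex = (Q0 * b * w₂!).primeFactors`, `w₂ = (TWL.W2 D).choose`
(`TWL.sum_log_primeFactors` with `y = 100`).  Let `q ∉ Ex` be a prime: `q > w₂`, `q` does not divide `Q0 b`.  If `t v` is a square,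
`v = vI I x`, then `J(v|q) ∈ {0, ε}` with `ε = J(t'|q)`, `t'` the prime-to-`q` part of `t`.
By `TWL.W2` applied to `f = ∏ i ∈ I, cc i` (`cc_good`, `vI_eval`) at most `0.55 q` residues `x mod q`, hence at most `0.55 q`
residues `n mod q` (`x_inj`, `jac_congr`; `n ↦ x b n mod q` is injective on residues).
-/

set_option autoImplicit false

namespace TwHP

open Finset Polynomial CD

variable {ι : Type} [Fintype ι] [DecidableEq ι]

private theorem sq_of_pow {q u : ℤ} (hq : Prime q) (hu : ¬ q ∣ u) :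
    ∀ (k : ℕ) (s : ℤ), q ^ k * u = s * s → ∃ s' : ℤ, u = s' * s' := by
  intro k
  induction k using Nat.twoStepInduction with
  | zero => intro s hs; exact ⟨s, by simpa using hs⟩
  | one =>
    intro s hs
    exfalso
    rw [pow_one] at hs
    have h1 : q ∣ s * s := ⟨u, hs.symm⟩
    have h2 : q ∣ s := by
      rcases hq.dvd_or_dvd h1 with h | h <;> exact h
    obtain ⟨r, rfl⟩ := h2
    apply hu
    have h3 : q * u = q * (q * (r * r)) := by rw [hs]; ring
    have h4 := mul_left_cancel₀ hq.ne_zero h3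
    exact ⟨r * r, h4⟩
  | more k ih _ =>
    intro s hs
    have h1 : q ∣ s * s := ⟨q ^ (k + 1) * u, by rw [← hs]; ring⟩
    have h2 : q ∣ s := by
      rcases hq.dvd_or_dvd h1 with h | h <;> exact h
    obtain ⟨r, rfl⟩ := h2
    apply ih r
    have h3 : (q * q) * (q ^ k * u) = (q * q) * (r * r) := by
      calc (q * q) * (q ^ k * u) = q ^ (k + 2) * u := by ring
        _ = q * r * (q * r) := hs
        _ = (q * q) * (r * r) := by ring
    exact mul_left_cancel₀ (mul_ne_zero hq.ne_zero hq.ne_zero) h3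

private theorem exists_eps (q : ℕ) (hq : q.Prime) (t : ℤ) (ht : t ≠ 0) :
    ∃ ε : ℤ, (ε = 1 ∨ ε = -1) ∧ ∀ v : ℤ, IsSquare (t * v) →
      jacobiSym v q = 0 ∨ jacobiSym v q = ε := by
  have hqF : Fact q.Prime := ⟨hq⟩
  have hqp : Prime (q : ℤ) := Nat.prime_iff_prime_int.1 hq
  have hfin : FiniteMultiplicity (q : ℤ) t :=
    Int.finiteMultiplicity_iff.2 ⟨by rw [Int.natAbs_natCast]; exact hq.ne_one, ht⟩
  obtain ⟨t', htt, htn⟩ := hfin.exists_eq_pow_mul_and_not_dvd
  have hcop : ∀ u : ℤ, ¬ (q : ℤ) ∣ u → u.gcd q = 1 := by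
    intro u hu
    have h1 : IsCoprime (q : ℤ) u := (Prime.coprime_iff_not_dvd hqp).2 hu
    exact Int.isCoprime_iff_gcd_eq_one.1 h1.symm
  refine ⟨jacobiSym t' q, jacobiSym.eq_one_or_neg_one (hcop t' htn), ?_⟩
  intro v hv
  by_cases hqv : (q : ℤ) ∣ v
  · left
    rw [jacobiSym.eq_zero_iff]
    refine ⟨hq.ne_zero, ?_⟩
    intro h1
    have h2 := Int.isCoprime_iff_gcd_eq_one.2 h1
    exact (Prime.coprime_iff_not_dvd hqp).1 h2.symm hqv
  · right
    obtain ⟨s, hs⟩ := hv
    have hu : ¬ (q : ℤ) ∣ t' * v := by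
      intro h
      rcases hqp.dvd_or_dvd h with h | h
      · exact htn h
      · exact hqv h
    obtain ⟨s', hs'⟩ := sq_of_pow hqp hu (multiplicity (q : ℤ) t) s (by rw [← hs, ← mul_assoc, ← htt])
    have hqs : ¬ (q : ℤ) ∣ s' := by
      intro h
      apply hu
      rw [hs']
      exact h.mul_left s'
    have h1 : jacobiSym t' q * jacobiSym v q = 1 := by
      rw [← jacobiSym.mul_left, hs', jacobiSym.mul_left, ← pow_two]
      exact jacobiSym.sq_one (hcop s' hqs)
    rcases jacobiSym.eq_one_or_neg_one (hcop t' htn) with h2 | h2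
    · rw [h2] at h1 ⊢
      linarith
    · rw [h2] at h1 ⊢
      linarith

theorem mult4 [Nonempty ι] (c : CD ι) {D : ℕ} (hc : c.Valid D) (cb : ℕ) :
    ∃ H0 : ℕ, ∀ H : ℕ, H0 ≤ H → ∀ b : ℕ, 0 < b → (b : ℝ) ≤ Real.log H ^ cb →
      ∀ I : Finset ι, I.Nonempty → ∀ t : ℤ, t ≠ 0 →
        ((Icc 1 (NH D (Fintype.card ι) cb H)).filter (fun n => IsSquare (t * c.vI I (c.x b n)))).card ^ 3
          ≤ (NH D (Fintype.card ι) cb H) ^ 2 := by
  classical
  obtain ⟨w2, hw2, hW2⟩ := Pool.Agent.Lib.MP_e426f4_ag.TWL.W2 D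
  obtain ⟨N0, hN0⟩ := Pool.Agent.Lib.MP_e426f4_ag.TWL.card_le_two_thirds
  obtain ⟨H1, h1⟩ := NH_bounds D (Fintype.card ι) cb
  set K1 : ℝ := Real.log ((c.Q0 * w2.factorial : ℕ) : ℝ) with hK1
  set K2 : ℝ := 25 * (Real.log 100 + Real.log 4 + |K1|) with hK2
  obtain ⟨H2, h2⟩ := log_large (max 2 (max (2 * N0) (2 * Real.exp K2)))
  refine ⟨max H1 H2, fun H hH b hb hbL I hI t ht => ?_⟩
  obtain ⟨hN1, hN2⟩ := h1 H ((le_max_left _ _).trans hH)
  have hL := h2 H ((le_max_right _ _).trans hH)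
  set L : ℝ := Real.log H with hLdef
  set N : ℕ := NH D (Fintype.card ι) cb H with hN
  have hL2 : 2 ≤ L := (le_max_left _ _).trans hL
  have hLN0 : 2 * (N0 : ℝ) ≤ L := (le_max_left _ _).trans ((le_max_right _ _).trans hL)
  have hLK : 2 * Real.exp K2 ≤ L := (le_max_right _ _).trans ((le_max_right _ _).trans hL)
  have hL1 : 1 ≤ L := by linarith
  have hL0 : 0 < L := by linarith
  -- lower bounds for `N`
  have hNcb : L ^ cb ≤ N := by
    have e1 : L ^ (cb + 1) ≤ L ^ CC D (Fintype.card ι) cb :=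
      pow_le_pow_right₀ hL1 (by rw [CC]; omega)
    have e2 : L ^ (cb + 1) = L ^ cb * L := pow_succ _ _
    have e3 : 0 < L ^ cb := by positivity
    nlinarith
  have hNL : L / 2 ≤ N := by
    have e1 : L ^ 1 ≤ L ^ CC D (Fintype.card ι) cb :=
      pow_le_pow_right₀ hL1 (by rw [CC]; omega)
    rw [pow_one] at e1
    linarith
  have hNpos : (0 : ℝ) < N := by linarith
  have hlogN : K2 ≤ Real.log N := by
    calc K2 = Real.log (Real.exp K2) := (Real.log_exp _).symm
      _ ≤ Real.log N := Real.log_le_log (Real.exp_pos _) (by linarith)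
  have hN0N : N0 ≤ N := by
    have : (N0 : ℝ) ≤ N := by linarith
    exact_mod_cast this
  have hbN : Real.log b ≤ Real.log N := Real.log_le_log (by exact_mod_cast hb) (hbL.trans hNcb)
  have hQ : 0 < c.Q0 := hc.Q0_pos
  have hfac : 0 < w2.factorial := Nat.factorial_pos _
  set m := c.Q0 * w2.factorial * b with hm
  have hm0 : m ≠ 0 := (Nat.mul_pos (Nat.mul_pos hQ hfac) hb).ne'
  refine hN0 N hN0N _ m.primeFactors (filter_subset _ _) ?_ ?_
  · -- the excluded primes
    refine (Pool.Agent.Lib.MP_e426f4_ag.TWL.sum_log_primeFactors m 100 hm0 (by norm_num)).trans ?_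
    have e1 : Real.log m = K1 + Real.log b := by
      rw [hm, hK1]
      push_cast
      rw [Real.log_mul (by positivity) (by positivity)]
    rw [e1]
    push_cast
    have e2 := le_abs_self K1
    have e3 : 0 ≤ |K1| := abs_nonneg K1
    have e4 : 0 ≤ Real.log 100 := Real.log_nonneg (by norm_num)
    have e5 : 0 ≤ Real.log 4 := Real.log_nonneg (by norm_num)
    rw [hK2] at hlogN
    linarith
  · -- classes modulo `q`
    intro q hq hqE _
    have hqm : ¬ q ∣ m := fun h => hqE (Nat.mem_primeFactors.2 ⟨hq, h, hm0⟩)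
    have hqw : w2 < q := by
      by_contra hcon
      push Not at hcon
      apply hqm
      rw [hm]
      exact ((Nat.dvd_factorial hq.pos hcon).mul_left c.Q0).mul_right b
    have hqQ : ¬ q ∣ c.Q0 := fun h => hqm ((h.mul_right _).mul_right _)
    have hqb : ¬ q ∣ b := fun h => hqm (h.mul_left _)
    have hcop : q.Coprime (c.Q0 * b) := by
      rw [Nat.Prime.coprime_iff_not_dvd hq]
      intro h
      rcases (Nat.Prime.dvd_mul hq).1 h with h | h
      · exact hqQ h
      · exact hqb h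
    obtain ⟨g1, g2, g3⟩ := cc_good hc hq hqQ I hI
    obtain ⟨ε, hε, hεv⟩ := exists_eps q hq t ht
    refine le_trans ?_ (hW2 q hq hqw _ g1 g2 g3 ε hε)
    have hcard : ((((Icc 1 N).filter (fun n => IsSquare (t * c.vI I (c.x b n)))).image
        (fun a => a % q)).card) ≤
        ((range q).filter (fun x : ℕ => jacobiSym ((∏ i ∈ I, c.cc i).eval (x : ℤ)) q = 0 ∨
          jacobiSym ((∏ i ∈ I, c.cc i).eval (x : ℤ)) q = ε)).card := by
      have hmod : ∀ n : ℕ, c.x b (n % q) ≡ c.x b n [MOD q] := by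
        intro n
        rw [CD.x, CD.x]
        exact Nat.ModEq.add_left _ (Nat.ModEq.mul_left _ (Nat.ModEq.add_left _
          (Nat.ModEq.mul_left _ (Nat.mod_modEq n q))))
      apply Finset.card_le_card_of_injOn (fun r => c.x b r % q)
      · intro r hr
        rw [mem_coe, mem_image] at hr
        obtain ⟨n, hn, rfl⟩ := hr
        rw [mem_filter] at hn
        rw [mem_coe, mem_filter, mem_range]
        refine ⟨Nat.mod_lt _ hq.pos, ?_⟩
        have e1 : jacobiSym ((∏ i ∈ I, c.cc i).eval ((c.x b (n % q) % q : ℕ) : ℤ)) q =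
            jacobiSym (c.vI I (c.x b n)) q := by
          rw [← vI_eval]
          exact jac_congr c I ((Nat.mod_modEq _ q).trans (hmod n))
        rw [e1]
        exact hεv _ hn.2
      · intro r hr r' hr' hrr
        rw [mem_coe, mem_image] at hr hr'
        obtain ⟨n, _, rfl⟩ := hr
        obtain ⟨n', _, rfl⟩ := hr'
        have e1 : c.x b (n % q) ≡ c.x b (n' % q) [MOD q] := hrr
        have e2 := x_inj c hcop _ _ e1
        exact Nat.ModEq.eq_of_lt_of_lt e2 (Nat.mod_lt _ hq.pos) (Nat.mod_lt _ hq.pos)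
    exact_mod_cast hcard

end TwHP
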