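import Pool.Agent.Lib.MP_e426f4_ag.TWS.Base

/-!
# TWS.Size (TWIST, section 4): size of the values
-/

set_option autoImplicit false
set_option linter.unusedSectionVars false

namespace TwHP

open Finset Polynomial CD

variable {ι : Type} [Fintype ι] [DecidableEq ι]

/-- `log H → ∞` -/
theorem log_large (K : ℝ) : ∃ H0 : ℕ, ∀ H : ℕ, H0 ≤ H → K ≤ Real.log H := by
  refine ⟨⌈Real.exp K⌉₊, fun H hH => ?_⟩
  have h1 : Real.exp K ≤ H := (Nat.le_ceil _).trans (by exact_mod_cast hH)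
  calc K = Real.log (Real.exp K) := (Real.log_exp K).symm
    _ ≤ Real.log H := Real.log_le_log (Real.exp_pos _) h1

theorem NH_bounds (D r cb : ℕ) : ∃ H0 : ℕ, ∀ H : ℕ, H0 ≤ H → (NH D r cb H : ℝ) ≤ Real.log H ^ CC D r cb ∧
    Real.log H ^ CC D r cb ≤ 2 * (NH D r cb H : ℝ) := by
  obtain ⟨H0, h0⟩ := log_large 1
  refine ⟨H0, fun H hH => ?_⟩
  have hL := h0 H hH
  have h1 : (1 : ℝ) ≤ Real.log H ^ CC D r cb := one_le_pow₀ hL
  refine ⟨Nat.floor_le (by linarith), ?_⟩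
  have h2 : 1 ≤ NH D r cb H := (Nat.one_le_floor_iff _).2 h1
  have h3 : Real.log H ^ CC D r cb < (NH D r cb H : ℝ) + 1 := Nat.lt_floor_add_one _
  have h4 : (1 : ℝ) ≤ NH D r cb H := by exact_mod_cast h2
  linarith

/-- the value of a polynomial -/
theorem eval_abs_le (f : ℤ[X]) (x : ℕ) (hx : 1 ≤ x) :
    |((f.eval (x : ℤ) : ℤ) : ℝ)| ≤ (∑ k ∈ range (f.natDegree + 1), |(f.coeff k : ℝ)|) * (x : ℝ) ^ f.natDegree := by
  have hx1 : (1 : ℝ) ≤ x := by exact_mod_cast hx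
  rw [Polynomial.eval_eq_sum_range, Finset.sum_mul]
  push_cast
  refine (Finset.abs_sum_le_sum_abs _ _).trans (Finset.sum_le_sum fun k hk => ?_)
  rw [abs_mul, abs_pow, Nat.abs_cast]
  refine mul_le_mul_of_nonneg_left ?_ (abs_nonneg _)
  exact pow_le_pow_right₀ hx1 (by have := mem_range.1 hk; omega)

theorem size_vt [Nonempty ι] (c : CD ι) {D : ℕ} (hc : c.Valid D) (cb : ℕ) :
    ∃ H0 : ℕ, ∀ H : ℕ, H0 ≤ H → ∀ b : ℕ, 0 < b → (b : ℝ) ≤ Real.log H ^ cb →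
      ∀ n ∈ Icc 1 (NH D (Fintype.card ι) cb H),
        |((c.vt (c.x b n) : ℤ) : ℝ)| ≤ (NH D (Fintype.card ι) cb H : ℝ) ^ DD D := by
  have hD := D_pos hc
  set K : ℝ := ∑ k ∈ range (c.Pt.natDegree + 1), |(c.Pt.coeff k : ℝ)| with hK
  have hK0 : 0 ≤ K := Finset.sum_nonneg fun _ _ => abs_nonneg _
  obtain ⟨H1, h1⟩ := NH_bounds D (Fintype.card ι) cb
  obtain ⟨H2, h2⟩ := log_large (max 2 (max (4 * (c.x0 + 2 * c.Q0)) (2 * K)))
  refine ⟨max H1 H2, fun H hH b hb hbL n hn => ?_⟩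
  obtain ⟨hN1, hN2⟩ := h1 H ((le_max_left _ _).trans hH)
  have hL := h2 H ((le_max_right _ _).trans hH)
  set L : ℝ := Real.log H with hLdef
  set N : ℕ := NH D (Fintype.card ι) cb H with hN
  have hL2 : 2 ≤ L := (le_max_left _ _).trans hL
  have hLx : 4 * (c.x0 + 2 * c.Q0) ≤ L := (le_max_left _ _).trans ((le_max_right _ _).trans hL)
  have hLK : 2 * K ≤ L := (le_max_right _ _).trans ((le_max_right _ _).trans hL)
  have hL0 : 0 < L := by linarith
  have hL1 : 1 ≤ L := by linarith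
  rw [mem_Icc] at hn
  -- bound for N from below
  have hNlow : L ^ (cb + 1) ≤ N := by
    have e1 : L ^ (cb + 2) ≤ L ^ CC D (Fintype.card ι) cb := by
      refine pow_le_pow_right₀ hL1 ?_
      rw [CC]; omega
    have e2 : L ^ (cb + 2) = L ^ (cb + 1) * L := pow_succ _ _
    have e3 : 0 < L ^ (cb + 1) := by positivity
    nlinarith
  have hNL : L ≤ N := by
    refine le_trans ?_ hNlow
    calc L = L ^ 1 := (pow_one L).symm
      _ ≤ L ^ (cb + 1) := pow_le_pow_right₀ hL1 (by omega)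
  have hN1' : (1 : ℝ) ≤ N := by linarith
  have hxpos : 1 ≤ c.x b n := le_trans hc.x0_pos (x_ge c b n)
  -- the bound for x
  have hx : (c.x b n : ℝ) ≤ (N : ℝ) ^ 2 := by
    have e1 : c.x b n ≤ (c.x0 + 2 * c.Q0) * (b * N) := by
      rw [CD.x]
      have t1 := tb_le c b
      have t2 : b * n ≤ b * N := Nat.mul_le_mul_left _ hn.2
      have t3 : 1 ≤ N := hn.1.trans hn.2
      have t4 : b ≤ b * N := Nat.le_mul_of_pos_right _ t3
      have t5 : 1 ≤ b * N := le_trans hb t4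
      calc c.x0 + c.Q0 * (c.tb b + b * n) ≤ c.x0 * (b * N) + c.Q0 * (b * N + b * N) := by
            refine Nat.add_le_add (Nat.le_mul_of_pos_right _ t5) (Nat.mul_le_mul_left _ ?_)
            exact Nat.add_le_add (t1.trans t4) t2
        _ = (c.x0 + 2 * c.Q0) * (b * N) := by ring
    have e2 : (c.x b n : ℝ) ≤ (c.x0 + 2 * c.Q0) * (b * N) := by exact_mod_cast e1
    have e3 : ((c.x0 : ℝ) + 2 * c.Q0) * b ≤ N := by
      calc ((c.x0 : ℝ) + 2 * c.Q0) * b ≤ L * L ^ cb := by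
            refine mul_le_mul ?_ hbL (Nat.cast_nonneg _) hL0.le
            have : (0 : ℝ) ≤ (c.x0 : ℝ) + 2 * c.Q0 := by positivity
            linarith
        _ = L ^ (cb + 1) := by rw [pow_succ, mul_comm]
        _ ≤ N := hNlow
    calc (c.x b n : ℝ) ≤ (c.x0 + 2 * c.Q0) * (b * N) := e2
      _ = ((c.x0 : ℝ) + 2 * c.Q0) * b * N := by ring
      _ ≤ N * N := mul_le_mul_of_nonneg_right e3 (Nat.cast_nonneg _)
      _ = (N : ℝ) ^ 2 := by ring
  have h3 := eval_abs_le c.Pt (c.x b n) hxpos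
  rw [← hK, hc.deg_Pt] at h3
  calc |((c.vt (c.x b n) : ℤ) : ℝ)| ≤ K * (c.x b n : ℝ) ^ D := h3
    _ ≤ N * ((N : ℝ) ^ 2) ^ D := by
        refine mul_le_mul (by linarith) (pow_le_pow_left₀ (Nat.cast_nonneg _) hx D) (by positivity)
          (Nat.cast_nonneg _)
    _ = (N : ℝ) ^ (2 * D + 1) := by rw [← pow_mul]; ring
    _ ≤ (N : ℝ) ^ DD D := pow_le_pow_right₀ hN1' (by rw [DD]; omega)

end TwHP
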