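import Pool.Agent.Lib.MP_e426f4_ag.TWS.Ch
import Pool.Agent.Lib.MP_e426f4_ag.TWS.FsB

/-!
# TWS.Sum (TWIST, section 4): (SUM)
-/

set_option autoImplicit false
set_option linter.unusedSectionVars false

namespace TwHP

open Finset Polynomial CD Pool.Agent.Lib.MP_e426f4_ag.TWL

variable {ι : Type} [Fintype ι] [DecidableEq ι]

/-- decomposition `a = m p`, `p` the largest prime factor -/
theorem decomp [Nonempty ι] (c : CD ι) (D cb : ℕ) (δ : ℝ) (H : ℕ) (L : ℝ) (N : ℕ)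
    (hz : (zH D (Fintype.card ι) H : ℝ) < (H : ℝ) ^ δ) (a : ℕ)
    (ha : 0 < a) (hA : c.Anat D cb δ H a) (hCG : c.CG L N (zH D (Fintype.card ι) H) a) :
    ∃ m p : ℕ, a = m * p ∧ p.Prime ∧ ¬ p ∣ m ∧ 1 ≤ m ∧ (H : ℝ) ^ δ ≤ p ∧ m.Coprime c.Q0 ∧
      (bb (zH D (Fintype.card ι) H) m : ℝ) ≤ Real.log H ^ cb ∧
      (2 : ℝ) ^ m.primeFactors.card ≤ Real.log H ^ 2 ∧
      c.CG L N (zH D (Fintype.card ι) H) m := by
  set z := zH D (Fintype.card ι) H with hzdef
  obtain ⟨p0, hp0, hp0a, hp0H⟩ := hA.big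
  have hne : a.primeFactors.Nonempty := ⟨p0, Nat.mem_primeFactors.2 ⟨hp0, hp0a, by omega⟩⟩
  set p := a.primeFactors.max' hne with hpdef
  have hpmem : p ∈ a.primeFactors := Finset.max'_mem _ _
  have hmax : ∀ q ∈ a.primeFactors, q ≤ p := fun q hq => Finset.le_max' _ _ hq
  have hp : p.Prime := Nat.prime_of_mem_primeFactors hpmem
  have hpa : p ∣ a := Nat.dvd_of_mem_primeFactors hpmem
  have hpH : (H : ℝ) ^ δ ≤ p := by
    refine hp0H.trans ?_
    exact_mod_cast hmax p0 (Nat.mem_primeFactors.2 ⟨hp0, hp0a, by omega⟩)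
  have hzp : z < p := by
    have : (z : ℝ) < p := lt_of_lt_of_le hz hpH
    exact_mod_cast this
  obtain ⟨m, hm⟩ := hpa
  have ham : a = m * p := by rw [hm, mul_comm]
  have hm1 : 1 ≤ m := by
    rcases Nat.eq_zero_or_pos m with h | h
    · rw [h, zero_mul] at ham; omega
    · exact h
  have hpm : ¬ p ∣ m := by
    rintro ⟨k, hk⟩
    apply hA.sqf p hp hzp
    exact ⟨k, by rw [ham, hk]; ring⟩
  have hcop : m.Coprime p := Nat.Coprime.symm ((Nat.Prime.coprime_iff_not_dvd hp).2 hpm)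
  have hpf : a.primeFactors = insert p m.primeFactors := by
    rw [ham, hcop.primeFactors_mul, hp.primeFactors, Finset.union_comm]
    rfl
  have hpnot : p ∉ m.primeFactors := fun h => hpm (Nat.dvd_of_mem_primeFactors h)
  have hbb : bb z m = bb z a := by
    rw [bb, bb, hpf, Finset.filter_insert, if_neg (by omega)]
  have hTT : ∀ q, q ∈ TT z m ↔ q ∈ TT z a ∧ q ≠ p := by
    intro q
    rw [TT, TT, mem_filter, mem_filter, hpf, mem_insert]
    constructor
    · rintro ⟨h1, h2⟩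
      exact ⟨⟨Or.inr h1, h2⟩, fun h => hpnot (h ▸ h1)⟩
    · rintro ⟨⟨h1, h2⟩, h3⟩
      exact ⟨h1.resolve_left h3, h2⟩
  refine ⟨m, p, ham, hp, hpm, hm1, hpH, ?_, ?_, ?_, ?_⟩
  · exact Nat.Coprime.coprime_dvd_left ⟨p, ham⟩ hA.cop
  · rw [hbb]; exact hA.bb_le
  · refine le_trans ?_ hA.om
    refine pow_le_pow_right₀ (by norm_num) (Finset.card_le_card ?_)
    rw [hpf]; exact Finset.subset_insert _ _
  · intro q hq
    have hq' := (hTT q).1 hq
    have h1 : (TT z m).filter (· < q) = (TT z a).filter (· < q) := by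
      ext s
      rw [mem_filter, mem_filter, hTT]
      constructor
      · rintro ⟨⟨h1, _⟩, h3⟩; exact ⟨h1, h3⟩
      · rintro ⟨h1, h2⟩
        refine ⟨⟨h1, ?_⟩, h2⟩
        rintro rfl
        have h4 : q ∈ a.primeFactors := (mem_filter.1 hq'.1).1
        exact absurd (hmax q h4) (by omega)
    rw [h1, hbb]
    exact hCG q hq'.1

theorem sum_two_pow_le (m X K : ℕ) (hm : 1 ≤ m) :
    ∑ j ∈ (range K).filter (fun j => m * 2 ^ j < X), ((2 ^ j : ℕ) : ℝ) ≤ 2 * ((X : ℝ) / m) := by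
  classical
  have hm0 : (0 : ℝ) < m := by exact_mod_cast hm
  rcases Finset.eq_empty_or_nonempty ((range K).filter (fun j => m * 2 ^ j < X)) with h | h
  · rw [h, Finset.sum_empty]; positivity
  · set j0 := ((range K).filter (fun j => m * 2 ^ j < X)).max' h with hj0
    have hmem := Finset.max'_mem _ h
    rw [← hj0, mem_filter] at hmem
    have hsub : (range K).filter (fun j => m * 2 ^ j < X) ⊆ range (j0 + 1) := by
      intro j hj
      rw [mem_range]
      have := Finset.le_max' _ _ hj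
      omega
    have h1 : ∑ j ∈ (range K).filter (fun j => m * 2 ^ j < X), ((2 ^ j : ℕ) : ℝ)
        ≤ ∑ j ∈ range (j0 + 1), ((2 ^ j : ℕ) : ℝ) :=
      Finset.sum_le_sum_of_subset_of_nonneg hsub (fun _ _ _ => by positivity)
    have h2 : ∑ j ∈ range (j0 + 1), ((2 ^ j : ℕ) : ℝ) ≤ 2 * ((2 ^ j0 : ℕ) : ℝ) := by
      have h3 : ∑ j ∈ range (j0 + 1), 2 ^ j = 2 ^ (j0 + 1) - 1 := by
        have := Nat.geomSum_eq (m := 2) le_rfl (j0 + 1)
        simpa using this
      have h4 : ∑ j ∈ range (j0 + 1), 2 ^ j ≤ 2 * 2 ^ j0 := by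
        rw [h3, pow_succ]; omega
      exact_mod_cast h4
    have h5 : ((2 ^ j0 : ℕ) : ℝ) ≤ (X : ℝ) / m := by
      rw [le_div_iff₀ hm0]
      have : 2 ^ j0 * m ≤ X := by rw [mul_comm]; exact hmem.2.le
      exact_mod_cast this
    linarith

theorem sum_inv_le (X : ℕ) : ∑ m ∈ Icc 1 X, (1 : ℝ) / m ≤ 1 + Real.log X := by
  have h := harmonic_le_one_add_log X
  rw [harmonic_eq_sum_Icc] at h
  push_cast at h
  refine le_trans (le_of_eq ?_) h
  exact Finset.sum_congr rfl fun m _ => by rw [one_div]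

/-- summation over the dyadic blocks -/
theorem dyadic_sum (δ : ℝ) (hδ : 0 < δ) (_hδ1 : δ ≤ 1) : ∃ H0 : ℕ, ∀ H : ℕ, H0 ≤ H → ∀ X : ℕ, X ≤ H →
    ∀ Q : ℝ, 0 < Q →
      ∑ m ∈ Icc 1 X, ∑ j ∈ (range (Nat.log 2 X + 1)).filter
        (fun j => (H : ℝ) ^ δ / 2 ≤ ((2 ^ j : ℕ) : ℝ) ∧ m * 2 ^ j < X),
          (((2 ^ j : ℕ) : ℝ) / (Q * Real.log ((2 ^ j : ℕ) : ℝ))) ≤ 8 * X / (Q * δ) := by
  obtain ⟨H0, hH0⟩ := log_large (max 1 (2 / δ))
  refine ⟨max H0 1, fun H hH X hX Q hQ => ?_⟩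
  have hL := hH0 H ((le_max_left _ _).trans hH)
  have hH1 : 1 ≤ H := (le_max_right _ _).trans hH
  have hHpos : (0 : ℝ) < H := by exact_mod_cast hH1
  set L := Real.log H with hLdef
  have hL1 : 1 ≤ L := (le_max_left _ _).trans hL
  have hL0 : 0 < L := by linarith
  have hLδ : 2 ≤ δ * L := by
    have := (le_max_right _ _).trans hL
    rw [div_le_iff₀ hδ] at this
    linarith
  have hlog2 : Real.log 2 ≤ 1 := by have := Real.log_two_lt_d9; linarith
  rcases Nat.eq_zero_or_pos X with hX0 | hXpos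
  · rw [hX0]; simp
  have hXR : (0 : ℝ) < X := by exact_mod_cast hXpos
  -- inner sum
  have hinner : ∀ m ∈ Icc 1 X, ∑ j ∈ (range (Nat.log 2 X + 1)).filter
        (fun j => (H : ℝ) ^ δ / 2 ≤ ((2 ^ j : ℕ) : ℝ) ∧ m * 2 ^ j < X),
          (((2 ^ j : ℕ) : ℝ) / (Q * Real.log ((2 ^ j : ℕ) : ℝ))) ≤
          (4 * X / (Q * δ * L)) * (1 / m) := by
    intro m hm
    have hm1 := (mem_Icc.1 hm).1
    have hm0 : (0 : ℝ) < m := by exact_mod_cast hm1
    have h1 : ∀ j ∈ (range (Nat.log 2 X + 1)).filter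
        (fun j => (H : ℝ) ^ δ / 2 ≤ ((2 ^ j : ℕ) : ℝ) ∧ m * 2 ^ j < X),
          (((2 ^ j : ℕ) : ℝ) / (Q * Real.log ((2 ^ j : ℕ) : ℝ))) ≤ (2 / (Q * δ * L)) * ((2 ^ j : ℕ) : ℝ) := by
      intro j hj
      rw [mem_filter] at hj
      have hpow : (0 : ℝ) < (H : ℝ) ^ δ := Real.rpow_pos_of_pos hHpos _
      have h2 : δ * L / 2 ≤ Real.log ((2 ^ j : ℕ) : ℝ) := by
        have h3 := Real.log_le_log (by positivity) hj.2.1
        rw [Real.log_div hpow.ne' (by norm_num), Real.log_rpow hHpos] at h3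
        linarith
      have h4 : 0 < δ * L / 2 := by positivity
      rw [div_mul_eq_mul_div, div_le_div_iff₀ (mul_pos hQ (lt_of_lt_of_le h4 h2)) (by positivity)]
      have h5 : Q * δ * L ≤ 2 * (Q * Real.log ((2 ^ j : ℕ) : ℝ)) := by
        have : Q * (δ * L / 2) ≤ Q * Real.log ((2 ^ j : ℕ) : ℝ) := mul_le_mul_of_nonneg_left h2 hQ.le
        linarith
      have h6 : (0 : ℝ) ≤ ((2 ^ j : ℕ) : ℝ) := Nat.cast_nonneg _
      calc ((2 ^ j : ℕ) : ℝ) * (Q * δ * L) ≤ ((2 ^ j : ℕ) : ℝ) * (2 * (Q * Real.log ((2 ^ j : ℕ) : ℝ))) :=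
            mul_le_mul_of_nonneg_left h5 h6
        _ = 2 * ((2 ^ j : ℕ) : ℝ) * (Q * Real.log ((2 ^ j : ℕ) : ℝ)) := by ring
    refine (Finset.sum_le_sum h1).trans ?_
    rw [← Finset.mul_sum]
    have h7 : ∑ j ∈ (range (Nat.log 2 X + 1)).filter
        (fun j => (H : ℝ) ^ δ / 2 ≤ ((2 ^ j : ℕ) : ℝ) ∧ m * 2 ^ j < X), ((2 ^ j : ℕ) : ℝ)
        ≤ 2 * ((X : ℝ) / m) := by
      refine le_trans ?_ (sum_two_pow_le m X (Nat.log 2 X + 1) hm1)
      refine Finset.sum_le_sum_of_subset_of_nonneg ?_ (fun _ _ _ => by positivity)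
      intro j hj
      rw [mem_filter] at hj ⊢
      exact ⟨hj.1, hj.2.2⟩
    refine (mul_le_mul_of_nonneg_left h7 (by positivity)).trans (le_of_eq ?_)
    field_simp
    norm_num
  refine (Finset.sum_le_sum hinner).trans ?_
  rw [← Finset.mul_sum]
  have h8 : ∑ m ∈ Icc 1 X, (1 : ℝ) / m ≤ 2 * L := by
    refine (sum_inv_le X).trans ?_
    have : Real.log X ≤ L := Real.log_le_log hXR (by exact_mod_cast hX)
    linarith
  calc (4 * X / (Q * δ * L)) * ∑ m ∈ Icc 1 X, (1 : ℝ) / m ≤ (4 * X / (Q * δ * L)) * (2 * L) :=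
        mul_le_mul_of_nonneg_left h8 (by positivity)
    _ = 8 * X / (Q * δ) := by field_simp; norm_num

/-- `z < H^δ` for large `H` -/
theorem zH_lt (D r : ℕ) (δ : ℝ) (hδ : 0 < δ) : ∃ H0 : ℕ, ∀ H : ℕ, H0 ≤ H → (zH D r H : ℝ) < (H : ℝ) ^ δ := by
  have ht := Real.tendsto_pow_mul_exp_neg_atTop_nhds_zero (cz D r)
  have hev : ∀ᶠ x : ℝ in Filter.atTop, x ^ (cz D r) * Real.exp (-x) < δ ^ (cz D r) :=
    ht.eventually_lt_const (by positivity)
  obtain ⟨x0, hx0⟩ := Filter.eventually_atTop.1 hev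
  obtain ⟨H0, hH0⟩ := log_large (max 1 (x0 / δ))
  refine ⟨max H0 1, fun H hH => ?_⟩
  have hL := hH0 H ((le_max_left _ _).trans hH)
  have hH1 : 1 ≤ H := (le_max_right _ _).trans hH
  have hHpos : (0 : ℝ) < H := by exact_mod_cast hH1
  have hL1 : 1 ≤ Real.log H := (le_max_left _ _).trans hL
  have hLx : x0 ≤ δ * Real.log H := by
    have := (le_max_right _ _).trans hL
    rw [div_le_iff₀ hδ] at this
    linarith
  have h1 := hx0 _ hLx
  have h2 : (zH D r H : ℝ) ≤ Real.log H ^ cz D r := Nat.floor_le (by positivity)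
  refine lt_of_le_of_lt h2 ?_
  rw [Real.rpow_def_of_pos hHpos, mul_comm (Real.log H) δ]
  rw [mul_pow, mul_assoc] at h1
  have h3 : 0 < δ ^ cz D r := by positivity
  have h4 : Real.log H ^ cz D r * Real.exp (-(δ * Real.log H)) < 1 := by
    by_contra hcon
    push Not at hcon
    have := mul_le_mul_of_nonneg_left hcon h3.le
    linarith
  rw [Real.exp_neg, ← div_eq_mul_inv, div_lt_one (Real.exp_pos _)] at h4
  exact h4

open Classical in
theorem sum4 [Nonempty ι] (c : CD ι) {D : ℕ} (hc : c.Valid D) (cb : ℕ) (δ : ℝ) (hδ : 0 < δ) (hδ1 : δ ≤ 1) :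
    ∃ H0 : ℕ, ∀ H : ℕ, H0 ≤ H →
      (((Icc 1 (H / c.al.natAbs)).filter fun a : ℕ => a ≡ c.u [MOD W8 c.w] ∧ c.Anat D cb δ H a ∧
        ¬ c.HasPt (c.al * (a : ℤ))).card : ℝ) ≤
      8 * C3c D / (c.w * δ * Nat.totient (W8 c.w)) * ((H : ℝ) / c.al.natAbs) + H / Real.log H := by
  obtain ⟨H1, h1⟩ := ch4 c hc cb
  obtain ⟨H2, h2⟩ := fs4 c hc cb δ hδ
  obtain ⟨H3, h3⟩ := dyadic_sum δ hδ hδ1
  obtain ⟨H4, h4⟩ := zH_lt D (Fintype.card ι) δ hδ
  refine ⟨max (max H1 H2) (max H3 H4), fun H hH => ?_⟩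
  have k1 := h1 H ((le_max_left _ _).trans ((le_max_left _ _).trans hH))
  have k2 := h2 H ((le_max_right _ _).trans ((le_max_left _ _).trans hH))
  have k3 := h3 H ((le_max_left _ _).trans ((le_max_right _ _).trans hH))
  have k4 := h4 H ((le_max_right _ _).trans ((le_max_right _ _).trans hH))
  set L := Real.log H with hL
  set N := NH D (Fintype.card ι) cb H with hN
  set z := zH D (Fintype.card ι) H with hz
  set X := H / c.al.natAbs with hX
  have hXH : X ≤ H := Nat.div_le_self _ _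
  have hwpos : 0 < c.w := lt_of_lt_of_le (by norm_num) (w_big hc)
  have hW8 : 0 < W8 c.w := by
    rw [W8]
    refine Nat.mul_pos (by norm_num) (Finset.prod_pos fun p hp => ?_)
    exact (mem_filter.1 hp).2.pos
  have hφ : 0 < Nat.totient (W8 c.w) := Nat.totient_pos.2 hW8
  have hφR : (0 : ℝ) < (Nat.totient (W8 c.w) : ℝ) := by exact_mod_cast hφ
  have hwR : (0 : ℝ) < (c.w : ℝ) := by exact_mod_cast hwpos
  have hC3 : 0 < C3c D := by rw [C3c, C2c]; positivity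
  -- the residue `v m`
  set vv : ℕ → ℕ := fun m => if h : ∃ v, m * v ≡ c.u [MOD W8 c.w] then h.choose else 0 with hvv
  set Gd : ℕ → Prop := fun m => m.Coprime c.Q0 ∧ (bb z m : ℝ) ≤ L ^ cb ∧
    (2 : ℝ) ^ m.primeFactors.card ≤ L ^ 2 ∧ c.CG L N z m ∧ ∃ v, m * v ≡ c.u [MOD W8 c.w] with hGd
  set Bs : ℕ → ℕ → Finset ℕ := fun m P => if Gd m then
    (prm P (W8 c.w) (vv m)).filter (fun p => ¬ p ∣ m ∧ ¬ c.HasPt (c.al * ((m * p : ℕ) : ℤ))) else ∅ with hBs
  set J : ℕ → Finset ℕ := fun m => (range (Nat.log 2 X + 1)).filter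
        (fun j => (H : ℝ) ^ δ / 2 ≤ ((2 ^ j : ℕ) : ℝ) ∧ m * 2 ^ j < X) with hJ
  set S1 : Finset ℕ := (Icc 1 H).filter (fun a : ℕ => (bb z a : ℝ) ≤ L ^ cb ∧ ¬ c.CG L N z a) with hS1
  set S2 : Finset ℕ := (Icc 1 X).biUnion (fun m => (J m).biUnion (fun j => (Bs m (2 ^ j)).image (fun p => m * p)))
    with hS2
  have hsub : ((Icc 1 X).filter fun a : ℕ => a ≡ c.u [MOD W8 c.w] ∧ c.Anat D cb δ H a ∧
        ¬ c.HasPt (c.al * (a : ℤ))) ⊆ S1 ∪ S2 := by
    intro a ha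
    rw [mem_filter, mem_Icc] at ha
    obtain ⟨⟨ha1, haX⟩, hau, hA, hno⟩ := ha
    rw [mem_union]
    by_cases hCG : c.CG L N z a
    · right
      obtain ⟨m, p, ham, hp, hpm, hm1, hpH, hmQ, hmb, hmo, hmC⟩ :=
        decomp c D cb δ H L N k4 a ha1 hA hCG
      have hex : ∃ v, m * v ≡ c.u [MOD W8 c.w] := ⟨p, by rw [← ham]; exact hau⟩
      have hvm : m * vv m ≡ c.u [MOD W8 c.w] := by
        rw [hvv]; simp only [dif_pos hex]; exact hex.choose_spec
      have hcopW : (W8 c.w).Coprime m := by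
        have e1 : Nat.gcd a (W8 c.w) = Nat.gcd c.u (W8 c.w) := Nat.ModEq.gcd_eq hau
        have e2 : a.Coprime (W8 c.w) := by rw [Nat.Coprime, e1]; exact hc.u_cop
        exact (Nat.Coprime.coprime_dvd_left ⟨p, ham⟩ e2).symm
      have hpv : p ≡ vv m [MOD W8 c.w] := by
        refine Nat.ModEq.cancel_left_of_coprime hcopW (c := m) ?_
        rw [← ham]
        exact hau.trans hvm.symm
      have hp2 := hp.two_le
      have hj1 : 2 ^ (Nat.log 2 (p - 1)) ≤ p - 1 := Nat.pow_log_le_self 2 (by omega)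
      have hj2 : p - 1 < 2 ^ (Nat.log 2 (p - 1) + 1) := Nat.lt_pow_succ_log_self (by norm_num) _
      set j := Nat.log 2 (p - 1) with hj
      rw [pow_succ] at hj2
      have hpa : p ≤ a := by rw [ham]; exact Nat.le_mul_of_pos_left _ hm1
      rw [hS2, mem_biUnion]
      have hma : m ≤ a := by rw [ham]; exact Nat.le_mul_of_pos_right _ hp.pos
      refine ⟨m, mem_Icc.2 ⟨hm1, hma.trans haX⟩, ?_⟩
      rw [mem_biUnion]
      refine ⟨j, ?_, ?_⟩
      · rw [hJ, mem_filter, mem_range]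
        refine ⟨?_, ?_, ?_⟩
        · rw [Nat.lt_succ_iff]
          exact Nat.log_mono_right (by omega)
        · have : (p : ℝ) ≤ 2 * ((2 ^ j : ℕ) : ℝ) := by
            have : p ≤ 2 * 2 ^ j := by omega
            exact_mod_cast this
          linarith
        · calc m * 2 ^ j < m * p := Nat.mul_lt_mul_of_pos_left (by omega) hm1
            _ = a := ham.symm
            _ ≤ X := haX
      · rw [mem_image]
        refine ⟨p, ?_, ham.symm⟩
        rw [hBs]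
        have hgd : Gd m := ⟨hmQ, hmb, hmo, hmC, hex⟩
        simp only [if_pos hgd]
        rw [mem_filter, prm, mem_filter, mem_Ioc]
        refine ⟨⟨⟨by omega, by omega⟩, hp, hpv⟩, hpm, ?_⟩
        rw [← ham]; exact hno
    · left
      rw [hS1, mem_filter, mem_Icc]
      exact ⟨⟨ha1, haX.trans hXH⟩, hA.bb_le, hCG⟩
  have hcard2 : (S2.card : ℝ) ≤ C3c D / c.w * (8 * X / (Nat.totient (W8 c.w) * δ)) := by
    have e1 : S2.card ≤ ∑ m ∈ Icc 1 X, ∑ j ∈ J m, (Bs m (2 ^ j)).card := by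
      rw [hS2]
      refine Finset.card_biUnion_le.trans (Finset.sum_le_sum fun m _ => ?_)
      refine Finset.card_biUnion_le.trans (Finset.sum_le_sum fun j _ => ?_)
      exact Finset.card_image_le
    have e2 : ∀ m ∈ Icc 1 X, ∀ j ∈ J m, ((Bs m (2 ^ j)).card : ℝ) ≤
        C3c D / c.w * (((2 ^ j : ℕ) : ℝ) / (Nat.totient (W8 c.w) * Real.log ((2 ^ j : ℕ) : ℝ))) := by
      intro m hm j hj
      rw [mem_Icc] at hm
      rw [hJ, mem_filter] at hj
      have h2j : 2 ^ j ≤ H := by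
        have : 2 ^ j ≤ m * 2 ^ j := Nat.le_mul_of_pos_left _ hm.1
        omega
      rw [hBs]
      by_cases hgd : Gd m
      · simp only [if_pos hgd]
        have hex := hgd.2.2.2.2
        have hvm : m * vv m ≡ c.u [MOD W8 c.w] := by
          rw [hvv]; simp only [dif_pos hex]; exact hex.choose_spec
        exact k2 m hm.1 (hm.2.trans hXH) hgd.1 hgd.2.1 hgd.2.2.1 hgd.2.2.2.1 (2 ^ j) (vv m) hj.2.1 h2j hvm
      · simp only [if_neg hgd, Finset.card_empty, Nat.cast_zero]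
        have : 0 ≤ Real.log ((2 ^ j : ℕ) : ℝ) := Real.log_natCast_nonneg _
        positivity
    have e3 : (S2.card : ℝ) ≤ ∑ m ∈ Icc 1 X, ∑ j ∈ J m, C3c D / c.w *
        (((2 ^ j : ℕ) : ℝ) / (Nat.totient (W8 c.w) * Real.log ((2 ^ j : ℕ) : ℝ))) := by
      have e1' : (S2.card : ℝ) ≤ ((∑ m ∈ Icc 1 X, ∑ j ∈ J m, (Bs m (2 ^ j)).card : ℕ) : ℝ) := by
        exact_mod_cast e1
      refine e1'.trans ?_
      push_cast
      refine Finset.sum_le_sum fun m hm => Finset.sum_le_sum fun j hj => ?_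
      have := e2 m hm j hj
      push_cast at this
      exact this
    refine e3.trans ?_
    simp only [← Finset.mul_sum]
    exact mul_le_mul_of_nonneg_left (k3 X hXH _ hφR) (by positivity)
  have hcard : (((Icc 1 X).filter fun a : ℕ => a ≡ c.u [MOD W8 c.w] ∧ c.Anat D cb δ H a ∧
        ¬ c.HasPt (c.al * (a : ℤ))).card : ℝ) ≤ S1.card + S2.card := by
    exact_mod_cast (Finset.card_le_card hsub).trans (Finset.card_union_le _ _)
  have hXle : (X : ℝ) ≤ (H : ℝ) / c.al.natAbs := Nat.cast_div_le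
  have hfin : C3c D / c.w * (8 * X / (Nat.totient (W8 c.w) * δ)) ≤
      8 * C3c D / (c.w * δ * Nat.totient (W8 c.w)) * ((H : ℝ) / c.al.natAbs) := by
    have e5 : C3c D / c.w * (8 * X / (Nat.totient (W8 c.w) * δ)) =
        8 * C3c D / (c.w * δ * Nat.totient (W8 c.w)) * X := by
      field_simp
    rw [e5]
    exact mul_le_mul_of_nonneg_left hXle (by positivity)
  calc (((Icc 1 X).filter fun a : ℕ => a ≡ c.u [MOD W8 c.w] ∧ c.Anat D cb δ H a ∧
        ¬ c.HasPt (c.al * (a : ℤ))).card : ℝ) ≤ S1.card + S2.card := hcard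
    _ ≤ H / L + 8 * C3c D / (c.w * δ * Nat.totient (W8 c.w)) * ((H : ℝ) / c.al.natAbs) :=
        add_le_add k1 (hcard2.trans hfin)
    _ = _ := by ring

end TwHP
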